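import Pool.Agent.TH268.PD.StirOrd
import Pool.Agent.TH268.PD.LocA
import Pool.Agent.TH268.PD.LocB
import Pool.Agent.TH268.PD.LocC
import Pool.Agent.TH268.PD.LocU
import Pool.Agent.TH268.PD.Varl
import Pool.Agent.TH268.PD.PoisRep

/-!
# Random stirring with long range rates at all times: definitions and statements
-/

set_option autoImplicit false

namespace Pool.Agent.N795.ST

open Finset Equiv
open Pool.Agent.W805.LR (len cnt)
open Pool.Agent.TH268.PD (law mas TT)

/-- the fraction of the points in cycles with at least `K` and less than `K'` points -/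
noncomputable def win {V : Type} [Fintype V] [DecidableEq V] (K K' : ℝ) (g : Perm V) : ℝ :=
  mas K g - mas K' g

/-- additional rates with row sums at most `κ` touch a given cycle of length `k` with probability at
most `1 - exp (-(t k κ))` -/
def Dom : Prop := ∀ (V : Type) [Fintype V] [DecidableEq V] (J₁ J₂ : V → V → ℝ) (t κ : ℝ) (v : V)
  (k : ℕ), (∀ x y, 0 ≤ J₁ x y) → (∀ x y, 0 ≤ J₂ x y) → 0 ≤ t → 0 ≤ κ →
    (∀ x, ∑ y, (J₂ x y + J₂ y x) / 2 ≤ κ) →
    Real.exp (-(t * k * κ)) *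
        ∑ g, law J₁ t g * (open Classical in if len g v = k then (1 : ℝ) else 0) ≤
      ∑ g, law (fun x y => J₁ x y + J₂ x y) t g *
        (open Classical in if len g v = k then (1 : ℝ) else 0)

/-- one sided comparison -/
def CmpUp : Prop := ∀ (V : Type) [Fintype V] [DecidableEq V] (J₁ J₂ : V → V → ℝ) (t G : ℝ)
  (F : Perm V → ℝ), (∀ x y, 0 ≤ J₁ x y) → (∀ x y, 0 ≤ J₂ x y) → 0 ≤ t →
    (∀ g₁ g₂ : Perm V,
      ∑ x, ∑ y, J₂ x y / 2 * (F (g₁ * swap x y * g₂) - F (g₁ * g₂)) ≤ G) →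
    ∑ g, law (fun x y => J₁ x y + J₂ x y) t g * F g ≤ ∑ g, law J₁ t g * F g + t * G

/-- how much the window mass can grow under a random transposition -/
def Gain : Prop := ∀ (V : Type) [Fintype V] [DecidableEq V] (h : Perm V) (K K' : ℝ), 0 ≤ K →
  K ≤ K' → ∑ a, ∑ b, max 0 (win K K' (h * swap a b) - win K K' h) ≤
    2 * K * Fintype.card V + 2 * K' ^ 2

/-- displacement on the torus -/
def disp {d M : ℕ} (x y : Fin d → ZMod M) : Fin d → ℤ := fun i => (x i - y i).valMinAbs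

/-- sup norm -/
def nrm {d : ℕ} (z : Fin d → ℤ) : ℕ := univ.sup fun i => (z i).natAbs

/-- two points of the same box of side `n` with coordinate differences less than `n / 2` -/
def bcore {d M : ℕ} (n : ℕ) (x y : Fin d → ZMod M) : Prop :=
  ∀ i, (x i).val / n = (y i).val / n ∧
    2 * |(((x i).val % n : ℕ) : ℤ) - (((y i).val % n : ℕ) : ℤ)| < n

/-- sum over the pairs that are close but in different boxes -/
def NearSum : Prop := ∀ (d : ℕ) (σ : ℝ), 1 ≤ d → 0 < σ → σ < 1 → ∃ C : ℝ, 0 < C ∧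
  ∀ (M n : ℕ) [NeZero M] [NeZero n] (R : ℝ), n ∣ M → 0 < R → 2 * R ≤ n →
    ∑ x : Fin d → ZMod M, ∑ y, (open Classical in
      if ¬ bcore n x y ∧ (nrm (disp x y) : ℝ) < R
        then (nrm (disp x y) : ℝ) ^ (-((d : ℝ) + σ)) else 0) ≤
      C * (Fintype.card (Fin d → ZMod M) : ℝ) * R ^ (1 - σ) / n

/-- sum over the far points -/
def FarSum : Prop := ∀ (d : ℕ) (σ : ℝ), 1 ≤ d → 0 < σ → ∃ C : ℝ, 0 < C ∧
  ∀ (M : ℕ) [NeZero M] (x : Fin d → ZMod M) (R : ℝ), 1 ≤ R →
    ∑ y, (open Classical in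
      if R ≤ (nrm (disp x y) : ℝ) then (nrm (disp x y) : ℝ) ^ (-((d : ℝ) + σ)) else 0) ≤
      C * R ^ (-σ)

/-- the boxes of the torus of side `m n` -/
def Geo : Prop := ∀ (d m n : ℕ) [NeZero m] [NeZero n] [NeZero (m * n)]
  (x y : Fin d → ZMod (m * n)),
    (bcore n x y ↔ (Pool.Agent.TH268.PD.LocC.E m n d x).1 = (Pool.Agent.TH268.PD.LocC.E m n d y).1 ∧
      bcore n (Pool.Agent.TH268.PD.LocC.E m n d x).2 (Pool.Agent.TH268.PD.LocC.E m n d y).2) ∧
    (bcore n x y → disp x y =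
      disp (Pool.Agent.TH268.PD.LocC.E m n d x).2 (Pool.Agent.TH268.PD.LocC.E m n d y).2)

/-! Mean field part: no cycles of intermediate length -/

/-- `U` is a cycle of `g` -/
def cyU {V : Type} (g : Perm V) (U : Finset V) : Prop := ∃ v ∈ U, ∀ w, w ∈ U ↔ g.SameCycle v w

/-- the probability that after `i` random transpositions `U` is a cycle and each of the
transpositions avoided `U` or joined two different cycles in `U` -/
noncomputable def pw {V : Type} [Fintype V] [DecidableEq V] : ℕ → Perm V → Finset V → ℝ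
  | 0 => fun g U => open Classical in if cyU g U then 1 else 0
  | i + 1 => fun g U => (∑ a, ∑ b, open Classical in
      if (a ∉ U ∧ b ∉ U) ∨ (a ∈ U ∧ b ∈ U ∧ ¬ g.SameCycle a b)
        then pw i (g * swap a b) U else 0) / (Fintype.card V : ℝ) ^ 2

/-- only few points are in a short cycle whose history contains a split -/
def Pure : Prop := ∀ (V : Type) [Fintype V] [DecidableEq V] [Nonempty V] (f : ℝ → ℝ) (K : ℝ),
  (∀ x, 0 ≤ f x) → (∀ x, f x ≤ 1) → 0 ≤ K → (∀ x, K < x → f x = 0) → ∀ (i : ℕ) (g : Perm V),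
    (TT^[i] fun g => (∑ v, f (len g v)) / Fintype.card V) g ≤
      (∑ U : Finset V, (U.card : ℝ) * f U.card * pw i g U) / Fintype.card V +
        i * (2 * K ^ 2 / (Fintype.card V : ℝ) ^ 2)

/-- `r`-tuples of points, one in each of the cycles that make up `U` -/
noncomputable def ntup {V : Type} [Fintype V] [DecidableEq V] (r : ℕ) (g : Perm V)
    (U : Finset V) : ℝ :=
  ∑ z : Fin r → V, open Classical in
    if (∀ i j, i ≠ j → ¬ g.SameCycle (z i) (z j)) ∧ (∀ w, w ∈ U ↔ ∃ i, g.SameCycle (z i) w)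
      then 1 else 0

/-- joining two of the cycles of `U` -/
def Join : Prop := ∀ (V : Type) [Fintype V] [DecidableEq V] (r : ℕ) (g : Perm V) (U : Finset V),
  1 ≤ r →
    ∑ a, ∑ b, (open Classical in
      if a ∈ U ∧ b ∈ U ∧ ¬ g.SameCycle a b then ntup r (g * swap a b) U else 0) =
      2 * r / (r + 1) * (U.card : ℝ) * ntup (r + 1) g U

/-- the closed form of `pw` -/
def Closed : Prop := ∀ (V : Type) [Fintype V] [DecidableEq V] [Nonempty V] (i : ℕ) (g : Perm V)
  (U : Finset V),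
    (U.card : ℝ) * pw i g U = ∑ q ∈ range (i + 1), (i.choose q : ℝ) / (q + 1) *
      (2 * U.card / (Fintype.card V : ℝ) ^ 2) ^ q *
        (1 - U.card / Fintype.card V) ^ (2 * (i - q)) * ntup (q + 1) g U

/-- a sum of Poisson weights -/
def PoiSum : Prop := ∃ C : ℝ, 0 < C ∧ ∀ μ : ℝ, 1 ≤ μ → ∃ B : ℕ → ℝ, Summable B ∧
  ∑' q, B q ≤ C / Real.sqrt μ ∧
    ∀ (q : ℕ) (y : ℝ), μ ≤ y → y ^ q * Real.exp (-y) / (q.factorial * (q + 1)) ≤ B q

/-- with a mean field part of rate `c / N` there are few cycles of length in `[k, 2k)` if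
`1 / (t c) ≪ k ≪ √(N / (t c))` -/
def Nmt : Prop := ∃ C : ℝ, 0 < C ∧ ∀ (V : Type) [Fintype V] [DecidableEq V] [Nonempty V]
  (J : V → V → ℝ) (c t k : ℝ), (∀ x y, 0 ≤ J x y) → 0 < c → 0 < t → 0 < k →
    ∑ g, law (fun x y => J x y + if x ≠ y then c / Fintype.card V else 0) t g *
      win k (2 * k) g ≤
        C * (1 / Real.sqrt (t * c * k) + t * c * k ^ 2 / Fintype.card V)

end Pool.Agent.N795.ST
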