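import Pool.Agent.N795.ST.Stm
import Pool.Agent.TH268.PD.StirDet

/-!
# Means under the law of random stirring: comparison, copies, domination
-/

set_option autoImplicit false

namespace Pool.Agent.N795.ST

open Finset Equiv Filter Topology
open Pool.Agent.W805.LR (len cnt)
open Pool.Agent.TH268.PD (law mas TT BD)

/-- the mean of `F` under stirring with rates `J` at time `t` -/
noncomputable def mn {V : Type} [Fintype V] [DecidableEq V] (J : V → V → ℝ) (t : ℝ)
    (F : Perm V → ℝ) : ℝ := ∑ g, law J t g * F g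

section basic

variable {V : Type} [Fintype V] [DecidableEq V]

theorem mn_mono {J : V → V → ℝ} (hJ : ∀ x y, 0 ≤ J x y) {t : ℝ} (ht : 0 ≤ t) {F G : Perm V → ℝ}
    (h : ∀ g, F g ≤ G g) : mn J t F ≤ mn J t G :=
  Finset.sum_le_sum fun g _ =>
    mul_le_mul_of_nonneg_left (h g) ((Pool.Agent.TH268.PD.law_prob J t ht hJ).1 g)

theorem mn_const {J : V → V → ℝ} (hJ : ∀ x y, 0 ≤ J x y) {t : ℝ} (ht : 0 ≤ t) (c : ℝ) :
    mn J t (fun _ => c) = c := by
  unfold mn
  rw [← Finset.sum_mul, (Pool.Agent.TH268.PD.law_prob J t ht hJ).2, one_mul]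

theorem mn_add (J : V → V → ℝ) (t : ℝ) (F G : Perm V → ℝ) :
    mn J t (fun g => F g + G g) = mn J t F + mn J t G := by
  unfold mn
  rw [← Finset.sum_add_distrib]
  exact Finset.sum_congr rfl fun g _ => by ring

theorem mn_sub (J : V → V → ℝ) (t : ℝ) (F G : Perm V → ℝ) :
    mn J t (fun g => F g - G g) = mn J t F - mn J t G := by
  unfold mn
  rw [← Finset.sum_sub_distrib]
  exact Finset.sum_congr rfl fun g _ => by ring

theorem mn_nonneg {J : V → V → ℝ} (hJ : ∀ x y, 0 ≤ J x y) {t : ℝ} (ht : 0 ≤ t) {F : Perm V → ℝ}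
    (h : ∀ g, 0 ≤ F g) : 0 ≤ mn J t F :=
  Finset.sum_nonneg fun g _ => mul_nonneg ((Pool.Agent.TH268.PD.law_prob J t ht hJ).1 g) (h g)

theorem mn_le_const {J : V → V → ℝ} (hJ : ∀ x y, 0 ≤ J x y) {t : ℝ} (ht : 0 ≤ t)
    {F : Perm V → ℝ} (c : ℝ) (h : ∀ g, F g ≤ c) : mn J t F ≤ c := by
  rw [← mn_const hJ ht c]
  exact mn_mono hJ ht h

theorem mn_abs {J : V → V → ℝ} (hJ : ∀ x y, 0 ≤ J x y) {t : ℝ} (ht : 0 ≤ t) (F : Perm V → ℝ) :
    |mn J t F| ≤ mn J t (fun g => |F g|) := by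
  unfold mn
  refine (Finset.abs_sum_le_sum_abs _ _).trans (le_of_eq ?_)
  refine Finset.sum_congr rfl fun g _ => ?_
  rw [abs_mul, abs_of_nonneg ((Pool.Agent.TH268.PD.law_prob J t ht hJ).1 g)]

theorem win_nonneg {K K' : ℝ} (h : K ≤ K') (g : Perm V) : 0 ≤ win K K' g := by
  unfold win
  linarith [Pool.Agent.TH268.PD.mas_anti h g]

theorem win_le_one (K K' : ℝ) (g : Perm V) : win K K' g ≤ 1 := by
  unfold win
  linarith [Pool.Agent.TH268.PD.mas_le_one K g, Pool.Agent.TH268.PD.mas_nonneg K' g]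

theorem mas_BD [Nonempty V] {K : ℝ} (hK : 0 ≤ K) :
    BD (2 * K / Fintype.card V) (mas K : Perm V → ℝ) := by
  intro g a b
  have hN : (0 : ℝ) < Fintype.card V := by exact_mod_cast Fintype.card_pos
  have h1 := Pool.Agent.TH268.PD.mass_swap g a b K hK
  unfold mas
  rw [← sub_div, abs_div, abs_of_pos hN]
  exact div_le_div_of_nonneg_right h1 hN.le

theorem win_BD [Nonempty V] {K K' : ℝ} (hK : 0 ≤ K) (hKK : K ≤ K') :
    BD (4 * K' / Fintype.card V) (win K K' : Perm V → ℝ) := by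
  intro g a b
  have hN : (0 : ℝ) < Fintype.card V := by exact_mod_cast Fintype.card_pos
  have h1 := mas_BD (V := V) hK g a b
  have h2 := mas_BD (V := V) (hK.trans hKK) g a b
  unfold win
  have h3 : 2 * K / (Fintype.card V : ℝ) + 2 * K' / Fintype.card V ≤ 4 * K' / Fintype.card V := by
    rw [← add_div]
    exact div_le_div_of_nonneg_right (by linarith) hN.le
  rw [abs_le] at h1 h2 ⊢
  constructor <;> linarith [h1.1, h1.2, h2.1, h2.2]

theorem cmp {J₁ J₂ : V → V → ℝ} {t β : ℝ} {F : Perm V → ℝ} (h₁ : ∀ x y, 0 ≤ J₁ x y)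
    (h₂ : ∀ x y, 0 ≤ J₂ x y) (ht : 0 ≤ t) (hF : BD β F) :
    |mn J₁ t F - mn J₂ t F| ≤ t * (∑ x, ∑ y, |J₁ x y - J₂ x y| / 2) * β :=
  Pool.Agent.TH268.PD.law_compare Pool.Agent.TH268.PD.unif_law V J₁ J₂ t β F h₁ h₂ ht hF

/-- the window mass as a sum over the lengths -/
theorem win_sum (K K' : ℝ) (hK : 0 ≤ K) (hKK : K ≤ K') (g : Perm V) :
    win K K' g = (∑ v, ∑ k ∈ (range (⌈K'⌉₊)).filter (fun k : ℕ => K ≤ k ∧ (k : ℝ) < K'),
      (open Classical in if len g v = k then (1 : ℝ) else 0)) / Fintype.card V := by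
  classical
  unfold win mas
  rw [← sub_div]
  congr 1
  unfold cnt
  rw [← Finset.sum_sub_distrib]
  refine Finset.sum_congr rfl fun v _ => ?_
  obtain ⟨l, hl⟩ : ∃ l : ℕ, len g v = l := by
    refine ⟨(univ.filter fun w => g.SameCycle v w).card, ?_⟩
    unfold Pool.Agent.W805.LR.len
    rw [Pool.Agent.TH268.PD.Bad.cnt_eq]
  beta_reduce
  rw [hl]
  by_cases h1 : K ≤ l
  · by_cases h2 : K' ≤ l
    · rw [if_pos h1, if_pos h2, sub_self]
      symm
      refine Finset.sum_eq_zero fun k hk => ?_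
      rw [Finset.mem_filter] at hk
      rw [if_neg]
      intro h
      have : l = k := by exact_mod_cast h
      subst this
      linarith [hk.2.2]
    · rw [if_pos h1, if_neg h2, sub_zero]
      symm
      rw [Finset.sum_eq_single l]
      · simp
      · intro b _ hb
        rw [if_neg]
        intro h
        exact hb (by exact_mod_cast h.symm)
      · intro h
        exfalso
        apply h
        rw [Finset.mem_filter, Finset.mem_range]
        push Not at h2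
        exact ⟨Nat.lt_ceil.2 h2, h1, h2⟩
  · have h2 : ¬ K' ≤ l := fun h => h1 (hKK.trans h)
    rw [if_neg h1, if_neg h2, sub_zero]
    symm
    refine Finset.sum_eq_zero fun k hk => ?_
    rw [Finset.mem_filter] at hk
    rw [if_neg]
    intro h
    have : l = k := by exact_mod_cast h
    subst this
    exact h1 hk.2.1

/-- domination for the window mass -/
theorem dom_win (hD : Dom) {J₁ J₂ : V → V → ℝ} {t κ K K' : ℝ} (h₁ : ∀ x y, 0 ≤ J₁ x y)
    (h₂ : ∀ x y, 0 ≤ J₂ x y) (ht : 0 ≤ t) (hκ : 0 ≤ κ)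
    (hrow : ∀ x, ∑ y, (J₂ x y + J₂ y x) / 2 ≤ κ) (hK : 0 ≤ K) (hKK : K ≤ K') :
    Real.exp (-(t * K' * κ)) * mn J₁ t (win K K') ≤
      mn (fun x y => J₁ x y + J₂ x y) t (win K K') := by
  classical
  have h12 : ∀ x y, 0 ≤ J₁ x y + J₂ x y := fun x y => add_nonneg (h₁ x y) (h₂ x y)
  obtain ⟨T, hT⟩ : ∃ T : Finset ℕ, T = (range (⌈K'⌉₊)).filter
    (fun k : ℕ => K ≤ k ∧ (k : ℝ) < K') := ⟨_, rfl⟩
  have hexp : ∀ J : V → V → ℝ, mn J t (win K K') = (∑ v, ∑ k ∈ T, ∑ g, law J t g *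
      (open Classical in if len g v = (k : ℝ) then (1 : ℝ) else 0)) / Fintype.card V := by
    intro J
    unfold mn
    simp only [win_sum K K' hK hKK, ← hT]
    rw [Finset.sum_congr rfl fun g _ => (mul_div_assoc (law J t g) _ _).symm, ← Finset.sum_div]
    congr 1
    rw [Finset.sum_congr rfl fun g _ => Finset.mul_sum _ _ _, Finset.sum_comm]
    refine Finset.sum_congr rfl fun v _ => ?_
    rw [Finset.sum_congr rfl fun g _ => Finset.mul_sum _ _ _, Finset.sum_comm]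
  rw [hexp, hexp, ← mul_div_assoc]
  refine div_le_div_of_nonneg_right ?_ (Nat.cast_nonneg _)
  rw [Finset.mul_sum]
  refine Finset.sum_le_sum fun v _ => ?_
  rw [Finset.mul_sum]
  refine Finset.sum_le_sum fun k hk => ?_
  have hk' : (k : ℝ) ≤ K' := by
    rw [hT, Finset.mem_filter] at hk
    exact hk.2.2.le
  refine le_trans ?_ (hD V J₁ J₂ t κ v k h₁ h₂ ht hκ hrow)
  refine mul_le_mul_of_nonneg_right ?_ (Finset.sum_nonneg fun g _ =>
    mul_nonneg ((Pool.Agent.TH268.PD.law_prob J₁ t ht h₁).1 g) (by split_ifs <;> norm_num))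
  rw [Real.exp_le_exp, neg_le_neg_iff]
  exact mul_le_mul_of_nonneg_right (mul_le_mul_of_nonneg_left hk' ht) hκ

/-- far rates create only few new cycles in the window -/
theorem far_win (hC : CmpUp) (hG : Gain) {J₁ J₂ : V → V → ℝ} {t j K K' : ℝ}
    (h₁ : ∀ x y, 0 ≤ J₁ x y) (h₂ : ∀ x y, 0 ≤ J₂ x y) (ht : 0 ≤ t) (hj : 0 ≤ j)
    (hJj : ∀ x y, J₂ x y ≤ j) (hK : 0 ≤ K) (hKK : K ≤ K') :
    mn (fun x y => J₁ x y + J₂ x y) t (win K K') ≤
      mn J₁ t (win K K') + t * (j * (K * Fintype.card V + K' ^ 2)) := by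
  refine hC V J₁ J₂ t _ (win K K') h₁ h₂ ht fun g₁ g₂ => ?_
  have e1 : ∀ x y : V, g₁ * swap x y * g₂ = g₁ * g₂ * swap (g₂⁻¹ x) (g₂⁻¹ y) := by
    intro x y
    rw [mul_assoc, mul_assoc]
    congr 1
    rw [Equiv.mul_swap_eq_swap_mul]
    simp
  have h3 : ∑ x, ∑ y, J₂ x y / 2 * (win K K' (g₁ * swap x y * g₂) - win K K' (g₁ * g₂)) ≤
      ∑ x, ∑ y, j / 2 * max 0 (win K K' (g₁ * g₂ * swap (g₂⁻¹ x) (g₂⁻¹ y)) -
        win K K' (g₁ * g₂)) := by
    refine Finset.sum_le_sum fun x _ => Finset.sum_le_sum fun y _ => ?_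
    rw [e1 x y]
    refine le_trans (mul_le_mul_of_nonneg_left (le_max_right 0 _)
      (div_nonneg (h₂ x y) two_pos.le)) ?_
    refine mul_le_mul_of_nonneg_right ?_ (le_max_left _ _)
    linarith [hJj x y]
  refine h3.trans ?_
  have h4 : ∑ x, ∑ y, j / 2 * max 0 (win K K' (g₁ * g₂ * swap (g₂⁻¹ x) (g₂⁻¹ y)) -
        win K K' (g₁ * g₂)) = j / 2 * ∑ a, ∑ b, max 0 (win K K' (g₁ * g₂ * swap a b) -
        win K K' (g₁ * g₂)) := by
    rw [Finset.mul_sum]
    rw [← Equiv.sum_comp (g₂⁻¹ : Perm V) (fun a => j / 2 * ∑ b, max 0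
      (win K K' (g₁ * g₂ * swap a b) - win K K' (g₁ * g₂)))]
    refine Finset.sum_congr rfl fun x _ => ?_
    rw [Finset.mul_sum]
    rw [← Equiv.sum_comp (g₂⁻¹ : Perm V) (fun b => j / 2 * max 0
      (win K K' (g₁ * g₂ * swap (g₂⁻¹ x) b) - win K K' (g₁ * g₂)))]
  rw [h4]
  have h5 := hG V (g₁ * g₂) K K' hK hKK
  have h6 := mul_le_mul_of_nonneg_left h5 (show 0 ≤ j / 2 by linarith)
  refine h6.trans (le_of_eq ?_)
  ring

end basic

section copies

open Pool.Agent.TH268.PD.LocA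

variable {I V W : Type} [Fintype I] [DecidableEq I] [Nonempty I] [Fintype V]
  [DecidableEq V] [Nonempty V] [Fintype W] [DecidableEq W]

/-- disjoint copies -/
theorem copies (e : W ≃ I × V) (J : V → V → ℝ) (t K : ℝ) :
    mn (J2 e J) t (mas K) = mn J t (mas K) := by
  classical
  have hI : (Fintype.card I : ℝ) ≠ 0 := by exact_mod_cast Fintype.card_ne_zero
  have hV : (Fintype.card V : ℝ) ≠ 0 := by exact_mod_cast Fintype.card_ne_zero
  have hW : (Fintype.card W : ℝ) = Fintype.card I * Fintype.card V := by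
    rw [Fintype.card_congr e, Fintype.card_prod]; push_cast; ring
  obtain ⟨F, hFdef⟩ : ∃ F : I → Perm W → ℝ, F = fun i g =>
    (∑ v, if K ≤ len g (e.symm (i, v)) then (1 : ℝ) else 0) / Fintype.card V := ⟨_, rfl⟩
  have hF : ∀ i g h, Rel e i g h → F i g = mas K h := by
    intro i g h H
    rw [hFdef]
    unfold mas cnt
    beta_reduce
    congr 1
    refine Finset.sum_congr rfl fun v _ => ?_
    rw [len_eq e i g h H v]
  have hmas : ∀ g : Perm W, mas K g = (∑ i, F i g) / Fintype.card I := by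
    intro g
    rw [hFdef]
    unfold mas cnt
    beta_reduce
    rw [← Finset.sum_div, div_div, mul_comm (Fintype.card V : ℝ), ← hW]
    congr 1
    rw [← Equiv.sum_comp e.symm, Fintype.sum_prod_type]
  have hlaw : ∀ i, mn (J2 e J) t (F i) = mn J t (mas K) := fun i =>
    law_eq Pool.Agent.TH268.PD.unif_law e J t i (F i) (mas K) (hF i)
  have h1 : mn (J2 e J) t (mas K) = (∑ i, mn (J2 e J) t (F i)) / Fintype.card I := by
    unfold mn
    rw [Finset.sum_comm, Finset.sum_div]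
    refine Finset.sum_congr rfl fun g _ => ?_
    rw [hmas g, ← Finset.mul_sum, mul_div_assoc]
  rw [h1, Finset.sum_congr rfl fun i _ => hlaw i, Finset.sum_const, Finset.card_univ,
    nsmul_eq_mul]
  field_simp

theorem copies_win (e : W ≃ I × V) (J : V → V → ℝ) (t K K' : ℝ) :
    mn (J2 e J) t (win K K') = mn J t (win K K') := by
  have h1 : ∀ (X : Type) [Fintype X] [DecidableEq X] (J' : X → X → ℝ),
      mn J' t (win K K') = mn J' t (mas K) - mn J' t (mas K') := fun X _ _ J' => mn_sub J' t _ _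
  rw [h1, h1, copies, copies]

end copies

end Pool.Agent.N795.ST
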