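import Pool.Agent.N795.ST.Tor

/-!
# The mass of the long cycles as the torus grows; no cycles in the windows
-/

set_option autoImplicit false

namespace Pool.Agent.N795.ST

open Finset Equiv Filter Topology
open Pool.Agent.W805.LR (len cnt)
open Pool.Agent.TH268.PD (law mas TT BD)

/-- the mean fraction of the points in cycles with at least `K` points, on the torus of side `n` -/
noncomputable def aa {d : ℕ} (J : (Fin d → ℤ) → ℝ) (t K : ℝ) (n : ℕ) [NeZero n] : ℝ :=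
  mn (tr J : (Fin d → ZMod n) → (Fin d → ZMod n) → ℝ) t (mas K)

theorem aa_congr {d : ℕ} (J : (Fin d → ℤ) → ℝ) (t K : ℝ) {n n' : ℕ} [NeZero n] [NeZero n']
    (h : n = n') : aa J t K n = aa J t K n' := by
  subst h
  rfl

section

variable {d : ℕ} {σ lam Lam C : ℝ} {J : (Fin d → ℤ) → ℝ}

theorem aa_nonneg (hlam : 0 < lam) (hJ : Cmpr d σ lam Lam J) {t : ℝ} (ht : 0 < t) (K : ℝ) (n : ℕ)
    [NeZero n] : 0 ≤ aa J t K n :=
  mn_nonneg (fun x y => tr_nonneg hlam hJ x y) ht.le fun g => Pool.Agent.TH268.PD.mas_nonneg K g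

theorem aa_le_one (hlam : 0 < lam) (hJ : Cmpr d σ lam Lam J) {t : ℝ} (ht : 0 < t) (K : ℝ) (n : ℕ)
    [NeZero n] : aa J t K n ≤ 1 :=
  mn_le_const (fun x y => tr_nonneg hlam hJ x y) ht.le 1 fun g =>
    Pool.Agent.TH268.PD.mas_le_one K g

theorem aa_anti (hlam : 0 < lam) (hJ : Cmpr d σ lam Lam J) {t : ℝ} (ht : 0 < t) {K K' : ℝ}
    (h : K ≤ K') (n : ℕ) [NeZero n] : aa J t K' n ≤ aa J t K n :=
  mn_mono (fun x y => tr_nonneg hlam hJ x y) ht.le fun g => Pool.Agent.TH268.PD.mas_anti h g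

theorem pow_anti {σ : ℝ} (hσ : 0 < σ) {a b : ℝ} (ha : 0 < a) (hab : a ≤ b) :
    b ^ (-σ) ≤ a ^ (-σ) :=
  Real.rpow_le_rpow_of_nonpos ha hab (by linarith)

/-- the mass converges -/
theorem exists_alpha (hGeo : Geo) (hC : Cs d σ C) (hlam : 0 < lam) (hLam : 0 < Lam) (hσ : 0 < σ)
    (hJ : Cmpr d σ lam Lam J) (t : ℝ) (ht : 0 < t) (K : ℝ) (hK : 0 ≤ K) :
    ∃ α : ℝ, Tendsto (fun L : ℕ => aa J t K (L + 1)) atTop (𝓝 α) := by
  have hC0 := hC.pos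
  obtain ⟨B, hB⟩ : ∃ B : ℕ → ℝ, B = fun L : ℕ => 4 * t * Lam * C * K * (((L : ℝ) + 2) / 2) ^ (-σ) :=
    ⟨_, rfl⟩
  have hstep : ∀ L L' : ℕ, |aa J t K (L + 2) - aa J t K (L' + 2)| ≤ B L + B L' := by
    intro L L'
    have i1 : NeZero ((L' + 2) * (L + 2)) := ⟨by positivity⟩
    have i2 : NeZero ((L + 2) * (L' + 2)) := ⟨by positivity⟩
    have h1 := mas_step hGeo hC hlam hLam hσ hJ t ht (L' + 2) (L + 2) K hK (by omega)
    have h2 := mas_step hGeo hC hlam hLam hσ hJ t ht (L + 2) (L' + 2) K hK (by omega)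
    have h3 : mn (tr J : (Fin d → ZMod ((L + 2) * (L' + 2))) → _ → ℝ) t (mas K) =
      mn (tr J : (Fin d → ZMod ((L' + 2) * (L + 2))) → _ → ℝ) t (mas K) :=
      aa_congr J t K (mul_comm _ _)
    rw [h3] at h2
    have e1 : (4 * t * Lam * C * K * (((L + 2 : ℕ) : ℝ) / 2) ^ (-σ)) = B L := by
      rw [hB]; push_cast; rfl
    have e2 : (4 * t * Lam * C * K * (((L' + 2 : ℕ) : ℝ) / 2) ^ (-σ)) = B L' := by
      rw [hB]; push_cast; rfl
    rw [e1] at h1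
    rw [e2] at h2
    have h4 := abs_sub_le (aa J t K (L + 2)) (aa J t K ((L' + 2) * (L + 2))) (aa J t K (L' + 2))
    rw [abs_sub_comm (aa J t K (L + 2)) (aa J t K ((L' + 2) * (L + 2)))] at h4
    have h1' : |aa J t K ((L' + 2) * (L + 2)) - aa J t K (L + 2)| ≤ B L := h1
    have h2' : |aa J t K ((L' + 2) * (L + 2)) - aa J t K (L' + 2)| ≤ B L' := h2
    linarith
  have hBanti : ∀ N n : ℕ, N ≤ n → B n ≤ B N := by
    intro N n hn
    rw [hB]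
    refine mul_le_mul_of_nonneg_left (pow_anti hσ (by positivity) ?_) (by positivity)
    have : (N : ℝ) ≤ n := by exact_mod_cast hn
    linarith
  have hB0 : Tendsto (fun N => 2 * B N) atTop (𝓝 0) := by
    have h1 : Tendsto (fun L : ℕ => ((L : ℝ) + 2) / 2) atTop atTop :=
      Tendsto.atTop_div_const (by norm_num)
        (tendsto_atTop_add_const_right _ _ tendsto_natCast_atTop_atTop)
    have h2 := (tendsto_rpow_neg_atTop hσ).comp h1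
    have h3 := (h2.const_mul (4 * t * Lam * C * K)).const_mul 2
    rw [mul_zero, mul_zero] at h3
    rw [hB]
    exact h3
  have hcau : CauchySeq (fun L : ℕ => aa J t K (L + 2)) := by
    refine cauchySeq_of_le_tendsto_0 _ (fun n m N hn hm => ?_) hB0
    rw [Real.dist_eq]
    refine (hstep n m).trans ?_
    linarith [hBanti N n hn, hBanti N m hm]
  obtain ⟨z, hz⟩ := cauchySeq_tendsto_of_complete hcau
  refine ⟨z, ?_⟩
  exact (tendsto_add_atTop_iff_nat (f := fun L : ℕ => aa J t K (L + 1)) (l := 𝓝 z) 1).1 hz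

/-- the limits for all lengths -/
theorem exists_al (hGeo : Geo) (hC : Cs d σ C) (hlam : 0 < lam) (hLam : 0 < Lam) (hσ : 0 < σ)
    (hJ : Cmpr d σ lam Lam J) (t : ℝ) (ht : 0 < t) :
    ∃ (α : ℝ → ℝ) (m : ℝ), 0 ≤ m ∧ m ≤ 1 ∧
      (∀ K, 0 ≤ K → Tendsto (fun L : ℕ => aa J t K (L + 1)) atTop (𝓝 (α K))) ∧
      (∀ K, 0 ≤ K → m ≤ α K) ∧ (∀ ε : ℝ, 0 < ε → ∃ K₀ : ℝ, 1 ≤ K₀ ∧ ∀ K, K₀ ≤ K → α K ≤ m + ε) := by
  have h0 : ∀ K : ℝ, ∃ α : ℝ, 0 ≤ K → Tendsto (fun L : ℕ => aa J t K (L + 1)) atTop (𝓝 α) := by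
    intro K
    by_cases hK : 0 ≤ K
    · obtain ⟨α, hα⟩ := exists_alpha hGeo hC hlam hLam hσ hJ t ht K hK
      exact ⟨α, fun _ => hα⟩
    · exact ⟨0, fun h => absurd h hK⟩
  choose α hα using h0
  have hα0 : ∀ K, 0 ≤ K → 0 ≤ α K := fun K hK =>
    ge_of_tendsto' (hα K hK) fun L => aa_nonneg hlam hJ ht K (L + 1)
  have hα1 : ∀ K, 0 ≤ K → α K ≤ 1 := fun K hK =>
    le_of_tendsto' (hα K hK) fun L => aa_le_one hlam hJ ht K (L + 1)
  have hanti : ∀ K K' : ℝ, 0 ≤ K → K ≤ K' → α K' ≤ α K := fun K K' hK h =>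
    le_of_tendsto_of_tendsto' (hα K' (hK.trans h)) (hα K hK) fun L =>
      aa_anti hlam hJ ht h (L + 1)
  obtain ⟨S, hS⟩ : ∃ S : Set ℝ, S = α '' Set.Ici 0 := ⟨_, rfl⟩
  have hne : S.Nonempty := ⟨α 0, by rw [hS]; exact ⟨0, Set.mem_Ici.2 le_rfl, rfl⟩⟩
  have hbd : BddBelow S := ⟨0, by
    rw [hS]
    rintro _ ⟨K, hK, rfl⟩
    exact hα0 K hK⟩
  refine ⟨α, sInf S, ?_, ?_, hα, ?_, ?_⟩
  · refine le_csInf hne ?_
    rw [hS]
    rintro _ ⟨K, hK, rfl⟩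
    exact hα0 K hK
  · refine (csInf_le hbd (by rw [hS]; exact ⟨0, Set.mem_Ici.2 le_rfl, rfl⟩)).trans
      (hα1 0 le_rfl)
  · intro K hK
    exact csInf_le hbd (by rw [hS]; exact ⟨K, hK, rfl⟩)
  · intro ε hε
    obtain ⟨_, hx, hlt⟩ := exists_lt_of_csInf_lt hne (show sInf S < sInf S + ε by linarith)
    rw [hS] at hx
    obtain ⟨K₁, hK₁, rfl⟩ := hx
    refine ⟨max K₁ 1, le_max_right _ _, fun K hK => ?_⟩
    exact (hanti K₁ K hK₁ ((le_max_left _ _).trans hK)).trans hlt.le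

/-- **No cycles of length between a constant and `A L ^ σ`.** -/
theorem window (hD : Dom) (hU : CmpUp) (hG : Gain) (hGeo : Geo) (hC : Cs d σ C) (hd : 1 ≤ d)
    (hlam : 0 < lam) (hLam : 0 < Lam) (hσ : 0 < σ) (hσ1 : σ < 1) (hJ : Cmpr d σ lam Lam J) (t : ℝ)
    (ht : 0 < t) (A : ℝ) (hA : 0 < A) (ε : ℝ) (hε : 0 < ε) :
    ∃ K₀ : ℝ, 1 ≤ K₀ ∧ ∀ K, K₀ ≤ K → ∃ L₀ : ℕ, ∀ (n : ℕ) [NeZero n], L₀ ≤ n →
      mn (tr J : (Fin d → ZMod n) → (Fin d → ZMod n) → ℝ) t (win K (A * (n : ℝ) ^ σ)) ≤ ε := by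
  have hC0 := hC.pos
  have hd1 : (1 : ℝ) ≤ d := by exact_mod_cast hd
  -- the choice of γ
  obtain ⟨γ, hγ0, hγ1, hγ⟩ : ∃ γ : ℝ, 0 < γ ∧ 2 * γ ≤ 1 ∧
      4 * t * Lam * C * A * γ ^ (1 - σ) ≤ ε / 3 := by
    have h1 : Tendsto (fun γ : ℝ => 4 * t * Lam * C * A * γ ^ (1 - σ)) (𝓝[>] 0) (𝓝 0) := by
      have h2 : Tendsto (fun γ : ℝ => γ ^ (1 - σ)) (𝓝[>] 0) (𝓝 0) := by
        have h3 := (Real.continuous_rpow_const (show 0 ≤ 1 - σ by linarith)).tendsto 0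
        rw [Real.zero_rpow (by linarith)] at h3
        exact h3.mono_left nhdsWithin_le_nhds
      have h4 := h2.const_mul (4 * t * Lam * C * A)
      rw [mul_zero] at h4
      exact h4
    have h5 := h1.eventually_le_const (show 0 < ε / 3 by positivity)
    have h6 : ∀ᶠ γ : ℝ in 𝓝[>] 0, 0 < γ := eventually_mem_nhdsWithin
    have h7 : ∀ᶠ γ : ℝ in 𝓝[>] 0, γ ≤ 1 / 2 :=
      nhdsWithin_le_nhds (eventually_le_nhds (by norm_num : (0 : ℝ) < 1 / 2))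
    obtain ⟨γ, ⟨q1, q2⟩, q3⟩ := ((h5.and h6).and h7).exists
    exact ⟨γ, q2, by linarith, q1⟩
  obtain ⟨B, hB⟩ : ∃ B : ℝ, B = t * A * (Lam * (C * γ ^ (-σ))) := ⟨_, rfl⟩
  obtain ⟨α, m, hm0, hm1, hα, hmα, hαm⟩ := exists_al hGeo hC hlam hLam hσ hJ t ht
  obtain ⟨K₀, hK₀, hK₀'⟩ := hαm (Real.exp (-B) * (ε / 6)) (by positivity)
  refine ⟨K₀, hK₀, fun K hK => ?_⟩
  have hK1 : 1 ≤ K := hK₀.trans hK
  have hKpos : 0 < K := by linarith
  -- large `n`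
  have hlim1 : Tendsto (fun n : ℕ => γ * (n : ℝ)) atTop atTop :=
    Tendsto.const_mul_atTop hγ0 tendsto_natCast_atTop_atTop
  have hlim2 : Tendsto (fun n : ℕ => A * (n : ℝ) ^ σ) atTop atTop :=
    Tendsto.const_mul_atTop hA ((tendsto_rpow_atTop hσ).comp tendsto_natCast_atTop_atTop)
  have hlim3 : Tendsto (fun n : ℕ => t * Lam * γ ^ (-((d : ℝ) + σ)) *
      (K * (n : ℝ) ^ (-σ) + A ^ 2 * (n : ℝ) ^ (-((d : ℝ) - σ)))) atTop (𝓝 0) := by
    have h1 := ((tendsto_rpow_neg_atTop hσ).comp tendsto_natCast_atTop_atTop (α := ℕ)).const_mul K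
    have h2 := ((tendsto_rpow_neg_atTop (show 0 < (d : ℝ) - σ by linarith)).comp
      tendsto_natCast_atTop_atTop (α := ℕ)).const_mul (A ^ 2)
    have h3 := (h1.add h2).const_mul (t * Lam * γ ^ (-((d : ℝ) + σ)))
    simp only [mul_zero, add_zero] at h3
    exact h3
  obtain ⟨L₀, hL₀⟩ := Filter.eventually_atTop.1
    (((hlim1.eventually_ge_atTop 1).and (hlim2.eventually_ge_atTop K)).and
      (hlim3.eventually_le_const (show 0 < ε / 3 by positivity)))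
  refine ⟨L₀, fun n _ hn => ?_⟩
  obtain ⟨⟨q1, q2⟩, q3⟩ := hL₀ n hn
  have hn0 : (0 : ℝ) < n := by exact_mod_cast Nat.pos_of_ne_zero (NeZero.ne n)
  obtain ⟨R, hR⟩ : ∃ R : ℝ, R = γ * n := ⟨_, rfl⟩
  obtain ⟨K', hK'⟩ : ∃ K' : ℝ, K' = A * (n : ℝ) ^ σ := ⟨_, rfl⟩
  rw [← hR] at q1
  rw [← hK'] at q2 ⊢
  have hR0 : 0 < R := by linarith
  have hK'0 : 0 ≤ K' := hKpos.le.trans q2
  -- the mass of the window on large tori
  obtain ⟨δ, hδ⟩ : ∃ δ : ℝ, δ = Real.exp (-B) * (ε / 6) := ⟨_, rfl⟩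
  have hδ0 : 0 < δ := by rw [hδ]; positivity
  have hw : Tendsto (fun L : ℕ => aa J t K (L + 1) - aa J t K' (L + 1)) atTop
      (𝓝 (α K - α K')) := (hα K hKpos.le).sub (hα K' hK'0)
  have hw1 : α K - α K' < 2 * δ := by
    have h1 := hK₀' K hK
    have h2 := hmα K' hK'0
    rw [← hδ] at h1
    linarith
  obtain ⟨N, hN⟩ := Filter.eventually_atTop.1 (hw.eventually_lt_const hw1)
  have i1 : NeZero (N + 1) := ⟨by omega⟩
  have i2 : NeZero ((N + 1) * n) := ⟨Nat.mul_ne_zero (by omega) (NeZero.ne n)⟩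
  have hwin : mn (tr J : (Fin d → ZMod ((N + 1) * n)) → _ → ℝ) t (win K K') ≤ 2 * δ := by
    have h1 : (N + 1) * n = ((N + 1) * n - 1) + 1 := by
      have : 0 < (N + 1) * n := Nat.pos_of_ne_zero (NeZero.ne _)
      omega
    have h2 : N ≤ (N + 1) * n - 1 := by
      have : N + 1 ≤ (N + 1) * n := Nat.le_mul_of_pos_right _ (Nat.pos_of_ne_zero (NeZero.ne n))
      omega
    have h3 := hN _ h2
    have h4 : mn (tr J : (Fin d → ZMod ((N + 1) * n)) → _ → ℝ) t (win K K') =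
        aa J t K ((N + 1) * n) - aa J t K' ((N + 1) * n) := mn_sub _ t _ _
    rw [h4, aa_congr J t K h1, aa_congr J t K' h1]
    exact h3.le
  have hkey := key hD hU hG hGeo hC hlam hLam hσ hJ t ht (N + 1) n R K K' q1
    (by rw [hR]; nlinarith) hKpos.le q2
  refine hkey.trans ?_
  -- first term
  have e1 : R ^ (-σ) = γ ^ (-σ) * (n : ℝ) ^ (-σ) := by
    rw [hR, Real.mul_rpow hγ0.le hn0.le]
  have e2 : (n : ℝ) ^ σ * (n : ℝ) ^ (-σ) = 1 := by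
    rw [← Real.rpow_add hn0, add_neg_cancel, Real.rpow_zero]
  have e3 : t * K' * (Lam * (C * R ^ (-σ))) = B := by
    rw [hB, hK', e1]
    calc t * (A * (n : ℝ) ^ σ) * (Lam * (C * (γ ^ (-σ) * (n : ℝ) ^ (-σ))))
        = t * A * (Lam * (C * γ ^ (-σ))) * ((n : ℝ) ^ σ * (n : ℝ) ^ (-σ)) := by ring
      _ = t * A * (Lam * (C * γ ^ (-σ))) := by rw [e2, mul_one]
  have h1 : Real.exp (t * K' * (Lam * (C * R ^ (-σ)))) *
      mn (tr J : (Fin d → ZMod ((N + 1) * n)) → _ → ℝ) t (win K K') ≤ ε / 3 := by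
    rw [e3]
    refine (mul_le_mul_of_nonneg_left hwin (Real.exp_pos _).le).trans (le_of_eq ?_)
    rw [hδ, show Real.exp B * (2 * (Real.exp (-B) * (ε / 6))) =
      (Real.exp B * Real.exp (-B)) * (ε / 3) by ring, ← Real.exp_add, add_neg_cancel,
      Real.exp_zero, one_mul]
  -- second term
  have h2 : 4 * t * Lam * C * K' * R ^ (1 - σ) / n ≤ ε / 3 := by
    refine le_trans (le_of_eq ?_) hγ
    have e4 : R ^ (1 - σ) = γ ^ (1 - σ) * ((n : ℝ) * (n : ℝ) ^ (-σ)) := by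
      rw [hR, Real.mul_rpow hγ0.le hn0.le]
      congr 1
      rw [sub_eq_add_neg, Real.rpow_add hn0, Real.rpow_one]
    rw [e4, hK']
    calc 4 * t * Lam * C * (A * (n : ℝ) ^ σ) * (γ ^ (1 - σ) * ((n : ℝ) * (n : ℝ) ^ (-σ))) / n
        = 4 * t * Lam * C * A * γ ^ (1 - σ) * ((n : ℝ) ^ σ * (n : ℝ) ^ (-σ)) * (n / n) := by ring
      _ = 4 * t * Lam * C * A * γ ^ (1 - σ) := by rw [e2, div_self hn0.ne', mul_one, mul_one]
  -- third term
  have h3 : t * (Lam * R ^ (-((d : ℝ) + σ)) *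
      (K * Fintype.card (Fin d → ZMod n) + K' ^ 2)) ≤ ε / 3 := by
    refine le_trans (le_of_eq ?_) q3
    have hcard : (Fintype.card (Fin d → ZMod n) : ℝ) = (n : ℝ) ^ (d : ℝ) := by
      rw [Real.rpow_natCast]
      exact Pool.Agent.W805.LR.card_torus d n
    have e5 : R ^ (-((d : ℝ) + σ)) = γ ^ (-((d : ℝ) + σ)) * (n : ℝ) ^ (-((d : ℝ) + σ)) := by
      rw [hR, Real.mul_rpow hγ0.le hn0.le]
    have e6 : (n : ℝ) ^ (-((d : ℝ) + σ)) * (n : ℝ) ^ (d : ℝ) = (n : ℝ) ^ (-σ) := by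
      rw [← Real.rpow_add hn0]
      congr 1
      ring
    have e7 : (n : ℝ) ^ (-((d : ℝ) + σ)) * ((n : ℝ) ^ σ) ^ 2 = (n : ℝ) ^ (-((d : ℝ) - σ)) := by
      rw [← Real.rpow_natCast ((n : ℝ) ^ σ) 2, ← Real.rpow_mul hn0.le, ← Real.rpow_add hn0]
      congr 1
      push_cast
      ring
    rw [hcard, e5, hK', ← e6, ← e7]
    ring
  linarith

end

end Pool.Agent.N795.ST
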