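import Pool.Agent.N795.ST.Mid
import Pool.Agent.N795.ST.Lim
import Pool.Agent.N795.LR.Trans
import Pool.Agent.TH268.PD.StirOrd
import Pool.Agent.TH268.PD.Varl

/-!
# Random stirring with long range rates at all times: assembly
-/

set_option autoImplicit false

namespace Pool.Agent.N795.ST

open Finset Equiv Filter Topology
open Pool.Agent.W805.LR (len cnt)
open Pool.Agent.TH268.PD (law mas TT BD top frac pdm)

section

variable {d : ℕ} {σ lam Lam C : ℝ} {J : (Fin d → ℤ) → ℝ}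

/-- the row sums on the torus -/
theorem row_sum (hC : Cs d σ C) (hLam : 0 < Lam) (hJ : Cmpr d σ lam Lam J)
    (n : ℕ) [NeZero n] (x : Fin d → ZMod n) : ∑ y, tr J x y ≤ Lam * C := by
  classical
  have h1 := hC.far n x 1 le_rfl
  rw [Real.one_rpow, mul_one] at h1
  refine le_trans ?_ (mul_le_mul_of_nonneg_left h1 hLam.le)
  rw [Finset.mul_sum]
  refine Finset.sum_le_sum fun y _ => ?_
  by_cases hxy : x = y
  · rw [hxy, tr_self]
    split_ifs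
    · positivity
    · simp
  · have h2 : (1 : ℝ) ≤ (nrm (disp x y) : ℝ) := by
      exact_mod_cast nrm_pos fun h' => hxy ((disp_eq_zero x y).1 h')
    rw [if_pos h2]
    exact tr_le hJ hxy

/-- the rates are bounded from below by a constant -/
theorem tr_lower (hlam : 0 < lam) (hσ : 0 < σ) (hJ : Cmpr d σ lam Lam J) (n : ℕ) [NeZero n]
    (x y : Fin d → ZMod n) (h : x ≠ y) : lam * (n : ℝ) ^ (-((d : ℝ) + σ)) ≤ tr J x y := by
  refine le_trans ?_ (le_tr hJ h)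
  refine mul_le_mul_of_nonneg_left ?_ hlam.le
  have h1 : (1 : ℝ) ≤ (nrm (disp x y) : ℝ) := by
    exact_mod_cast nrm_pos fun h' => h ((disp_eq_zero x y).1 h')
  have h2 : (nrm (disp x y) : ℝ) ≤ n := by exact_mod_cast nrm_le x y
  refine Real.rpow_le_rpow_of_nonpos (by linarith) h2 ?_
  have : (0 : ℝ) ≤ d := by positivity
  linarith

/-- first moment bound from the variance -/
theorem abs_var {V : Type} [Fintype V] [DecidableEq V] [Nonempty V] (J : V → V → ℝ) (t : ℝ)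
    (ht : 0 ≤ t) (hJ : ∀ x y, 0 ≤ J x y) (β : ℝ) (F : Perm V → ℝ) (hF : BD β F) (η : ℝ)
    (hη : 0 < η) (h : 2 * (t * ∑ x, ∑ y, J x y / 2) * β ^ 2 ≤ η ^ 2) :
    mn J t (fun g => |F g - mn J t F|) ≤ η := by
  have h1 := Pool.Agent.TH268.PD.var_law J t ht hJ β F hF
  have h2 : ∀ g, |F g - mn J t F| ≤ η / 2 + (1 / (2 * η)) * (F g - mn J t F) ^ 2 := by
    intro g
    have h3 : |F g - mn J t F| ^ 2 = (F g - mn J t F) ^ 2 := sq_abs _
    obtain ⟨a, ha⟩ : ∃ a, a = |F g - mn J t F| := ⟨_, rfl⟩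
    rw [← h3, ← ha]
    have h4 : 1 / (2 * η) * a ^ 2 = a ^ 2 / (2 * η) := by ring
    rw [h4, div_add_div _ _ (by norm_num) (by positivity), le_div_iff₀ (by positivity)]
    nlinarith [sq_nonneg (a - η)]
  refine (mn_mono hJ ht h2).trans ?_
  rw [mn_add, mn_const hJ ht]
  have h3 : mn J t (fun g => 1 / (2 * η) * (F g - mn J t F) ^ 2) =
      1 / (2 * η) * ∑ g, law J t g * (F g - mn J t F) ^ 2 := by
    unfold mn
    rw [Finset.mul_sum]
    exact Finset.sum_congr rfl fun g _ => by ring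
  rw [h3]
  have h4 : ∑ g, law J t g * (F g - mn J t F) ^ 2 ≤ η ^ 2 := h1.trans h
  have h5 := mul_le_mul_of_nonneg_left h4 (show 0 ≤ 1 / (2 * η) by positivity)
  refine (add_le_add le_rfl h5).trans (le_of_eq ?_)
  field_simp
  ring

/-- **Concentration and the law of the ordered cycle lengths at a fixed scale.** -/
theorem core (hD : Dom) (hU : CmpUp) (hG : Gain) (hGeo : Geo) (hN : Nmt) (hC : Cs d σ C)
    (hd : 1 ≤ d) (hlam : 0 < lam) (hLam : 0 < Lam) (hσ : 0 < σ) (hσ1 : σ < 1)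
    (hJ : Cmpr d σ lam Lam J) (t : ℝ) (ht : 0 < t) (α : ℝ → ℝ) (m : ℝ)
    (hα : ∀ K, 0 ≤ K → Tendsto (fun L : ℕ => aa J t K (L + 1)) atTop (𝓝 (α K)))
    (hmα : ∀ K, 0 ≤ K → m ≤ α K)
    (hαm : ∀ ε : ℝ, 0 < ε → ∃ K₀ : ℝ, 1 ≤ K₀ ∧ ∀ K, K₀ ≤ K → α K ≤ m + ε)
    (k : ℕ) (f : (Fin k → ℝ) → ℝ) (hfc : Continuous f) (Cf : ℝ) (hCf : ∀ u, |f u| ≤ Cf)
    (η : ℝ) (hη : 0 < η) :
    ∃ K₀ δ₀ : ℝ, 1 ≤ K₀ ∧ 0 < δ₀ ∧ ∃ L₀ : ℕ, ∀ (n : ℕ) [NeZero n], L₀ ≤ n →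
      (∀ K : ℝ, K₀ ≤ K → K ≤ δ₀ * (n : ℝ) ^ d →
        mn (tr J : (Fin d → ZMod n) → (Fin d → ZMod n) → ℝ) t (fun g => |mas K g - m|) ≤ η) ∧
      ∃ K : ℝ, K₀ ≤ K ∧ K ≤ δ₀ * (n : ℝ) ^ d ∧
        |mn (tr J : (Fin d → ZMod n) → (Fin d → ZMod n) → ℝ) t
            (fun g => f (fun i => top (frac g) i)) -
          mn (tr J : (Fin d → ZMod n) → (Fin d → ZMod n) → ℝ) t
            (fun g => pdm (fun u : Fin k → ℝ => f (fun i => mas K g * u i)))| ≤ η := by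
  have hC0 := hC.pos
  have hd1 : (1 : ℝ) ≤ d := by exact_mod_cast hd
  have hη' : 0 < η / 8 := by positivity
  obtain ⟨δ₀, hδ₀, A₁, hA₁, HS⟩ := Pool.Agent.TH268.PD.stir_ord k f hfc Cf hCf (η / 8) hη'
  obtain ⟨A', hA'⟩ : ∃ A' : ℝ, A' = A₁ / Real.sqrt (t * lam) := ⟨_, rfl⟩
  have hstl : 0 < Real.sqrt (t * lam) := Real.sqrt_pos.2 (by positivity)
  have hA'0 : 0 < A' := by rw [hA']; positivity
  obtain ⟨A, hA, HM⟩ := mid hN hlam hσ hJ t ht A' hA'0 (η / 8) hη'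
  obtain ⟨K₁, hK₁, HW⟩ := window hD hU hG hGeo hC hd hlam hLam hσ hσ1 hJ t ht A hA (η / 8) hη'
  obtain ⟨K₂, hK₂, HA⟩ := hαm (η / 8) hη'
  obtain ⟨K₀, hK₀⟩ : ∃ K₀ : ℝ, K₀ = max K₁ K₂ := ⟨_, rfl⟩
  have hK₀1 : 1 ≤ K₀ := by rw [hK₀]; exact hK₁.trans (le_max_left _ _)
  have hK₀0 : 0 ≤ K₀ := by linarith
  obtain ⟨L₁, hL₁⟩ := HW K₀ (by rw [hK₀]; exact le_max_left _ _)
  have hα1 := HA K₀ (by rw [hK₀]; exact le_max_right _ _)
  have hα2 := hmα K₀ hK₀0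
  -- the mean converges
  have hlimα := hα K₀ hK₀0
  obtain ⟨L₂, hL₂⟩ := (Metric.tendsto_atTop.1 hlimα) (η / 8) hη'
  -- growth
  have hlim1 : Tendsto (fun L : ℕ => (L : ℝ) ^ d) atTop atTop :=
    (tendsto_pow_atTop (by omega)).comp tendsto_natCast_atTop_atTop
  have hlim2 : Tendsto (fun L : ℕ => t * lam * (L : ℝ) ^ ((d : ℝ) - σ)) atTop atTop := by
    refine Tendsto.const_mul_atTop (by positivity) ?_
    exact (tendsto_rpow_atTop (by linarith)).comp tendsto_natCast_atTop_atTop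
  have hlim3 : Tendsto (fun L : ℕ => (L : ℝ) ^ (((d : ℝ) - σ) / 2)) atTop atTop :=
    (tendsto_rpow_atTop (by linarith)).comp tendsto_natCast_atTop_atTop
  have hlim4 : Tendsto (fun L : ℕ => A' * (L : ℝ) ^ (((d : ℝ) + σ) / 2)) atTop atTop := by
    refine Tendsto.const_mul_atTop hA'0 ?_
    exact (tendsto_rpow_atTop (by linarith)).comp tendsto_natCast_atTop_atTop
  have hlim5 : Tendsto (fun L : ℕ => A * (L : ℝ) ^ σ) atTop atTop :=
    Tendsto.const_mul_atTop hA ((tendsto_rpow_atTop hσ).comp tendsto_natCast_atTop_atTop)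
  have hlim6 : Tendsto (fun L : ℕ => A' * (L : ℝ) ^ (((d : ℝ) - σ) / 2)) atTop atTop :=
    Tendsto.const_mul_atTop hA'0 hlim3
  obtain ⟨L₃, hL₃⟩ := Filter.eventually_atTop.1
    (((((((hlim1.eventually_ge_atTop A₁).and (hlim2.eventually_ge_atTop A₁)).and
      (hlim3.eventually_ge_atTop (A' / δ₀))).and (hlim4.eventually_ge_atTop K₀)).and
      (hlim5.eventually_ge_atTop K₀)).and (hlim6.eventually_ge_atTop A)).and
      (hlim1.eventually_ge_atTop (4 * t * Lam * C * K₀ ^ 2 / (η / 8) ^ 2)))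
  refine ⟨K₀, δ₀, hK₀1, hδ₀, max (max L₁ (L₂ + 1)) L₃, fun n _ hn => ?_⟩
  have hn1 : L₁ ≤ n := (le_max_left _ _).trans ((le_max_left _ _).trans hn)
  have hn2 : L₂ + 1 ≤ n := (le_max_right _ _).trans ((le_max_left _ _).trans hn)
  have hn3 : L₃ ≤ n := (le_max_right _ _).trans hn
  obtain ⟨⟨⟨⟨⟨⟨q1, q2⟩, q3⟩, q4⟩, q5⟩, q6⟩, q7⟩ := hL₃ n hn3
  have hn0 : (0 : ℝ) < n := by exact_mod_cast Nat.pos_of_ne_zero (NeZero.ne n)
  have hcard := Pool.Agent.W805.LR.card_torus d n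
  obtain ⟨T, hT⟩ : ∃ T : (Fin d → ZMod n) → (Fin d → ZMod n) → ℝ, T = tr J := ⟨_, rfl⟩
  rw [← hT]
  have hT0 : ∀ x y, 0 ≤ T x y := fun x y => by rw [hT]; exact tr_nonneg hlam hJ x y
  obtain ⟨κ, hκ⟩ : ∃ κ : ℝ, κ = lam * (n : ℝ) ^ (-((d : ℝ) + σ)) := ⟨_, rfl⟩
  have hκ0 : 0 < κ := by rw [hκ]; positivity
  obtain ⟨K', hK'⟩ : ∃ K' : ℝ, K' = A' * (n : ℝ) ^ (((d : ℝ) + σ) / 2) := ⟨_, rfl⟩
  have hKeq : A₁ / Real.sqrt (t * κ) = K' := by
    have e1 : t * κ = (t * lam) * (n : ℝ) ^ (-((d : ℝ) + σ)) := by rw [hκ]; ring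
    have e2 : Real.sqrt ((n : ℝ) ^ (-((d : ℝ) + σ))) = ((n : ℝ) ^ (((d : ℝ) + σ) / 2))⁻¹ := by
      rw [← Real.rpow_neg hn0.le, Real.sqrt_eq_rpow, ← Real.rpow_mul hn0.le]
      congr 1
      ring
    rw [hK', hA', e1, Real.sqrt_mul (by positivity), e2]
    field_simp
  have hK'le : K' ≤ δ₀ * (n : ℝ) ^ d := by
    have e1 : (n : ℝ) ^ d = (n : ℝ) ^ (((d : ℝ) - σ) / 2) * (n : ℝ) ^ (((d : ℝ) + σ) / 2) := by
      rw [← Real.rpow_add hn0, ← Real.rpow_natCast]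
      congr 1
      ring
    rw [hK', e1, ← mul_assoc]
    refine mul_le_mul_of_nonneg_right ?_ (by positivity)
    rw [div_le_iff₀ hδ₀] at q3
    linarith
  have hAA : A * (n : ℝ) ^ σ ≤ K' := by
    have e1 : (n : ℝ) ^ (((d : ℝ) + σ) / 2) = (n : ℝ) ^ (((d : ℝ) - σ) / 2) * (n : ℝ) ^ σ := by
      rw [← Real.rpow_add hn0]
      congr 1
      ring
    rw [hK', e1, ← mul_assoc]
    exact mul_le_mul_of_nonneg_right q6 (by positivity)
  have hK₀K' : K₀ ≤ K' := by rw [hK']; exact q4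
  have hsi := HS (Fin d → ZMod n) T κ t ht hκ0
    (fun x y hxy => by rw [hT, hκ]; exact tr_lower hlam hσ hJ n x y hxy)
    (fun x => by rw [hT]; exact tr_self J x)
    (by rw [hcard]; exact q1)
    (by
      rw [hcard]
      refine q2.trans (le_of_eq ?_)
      have e1 : ((n : ℝ) ^ d) ^ 2 = (n : ℝ) ^ (2 * (d : ℝ)) := by
        rw [← pow_mul, ← Real.rpow_natCast]
        push_cast
        ring_nf
      have e2 : (n : ℝ) ^ ((d : ℝ) - σ) = (n : ℝ) ^ (-((d : ℝ) + σ)) * (n : ℝ) ^ (2 * (d : ℝ)) := by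
        rw [← Real.rpow_add hn0]
        ring_nf
      rw [e1, e2, hκ]
      ring)
  rw [hKeq, hcard] at hsi
  -- the masses
  have hmid := HM n
  rw [← hT, ← hK'] at hmid
  have hwin := hL₁ n hn1
  rw [← hT] at hwin
  have hgap := (hsi K' le_rfl hK'le).2
  have hne : Nonempty (Fin d → ZMod n) := ⟨fun _ => 0⟩
  have hmean : |mn T t (mas K₀) - m| ≤ η / 8 + η / 8 := by
    obtain ⟨L', rfl⟩ : ∃ L', n = L' + 1 := ⟨n - 1, by omega⟩
    have h1 := hL₂ L' (by omega)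
    rw [Real.dist_eq] at h1
    have h2 : aa J t K₀ (L' + 1) = mn T t (mas K₀) := by rw [hT]; rfl
    rw [h2] at h1
    have h3 : |α K₀ - m| ≤ η / 8 := by
      rw [abs_of_nonneg (by linarith)]
      linarith
    have h4 := abs_sub_le (mn T t (mas K₀)) (α K₀) m
    linarith
  have hvar : mn T t (fun g => |mas K₀ g - mn T t (mas K₀)|) ≤ η / 8 := by
    refine abs_var T t ht.le hT0 (2 * K₀ / Fintype.card (Fin d → ZMod n)) (mas K₀)
      (mas_BD hK₀0) (η / 8) hη' ?_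
    have h1 : ∑ x, ∑ y, T x y / 2 ≤ (n : ℝ) ^ d * (Lam * C) / 2 := by
      have h2 : ∑ x, ∑ y, T x y / 2 = (∑ x, ∑ y, T x y) / 2 := by
        rw [Finset.sum_div]
        exact Finset.sum_congr rfl fun x _ => by rw [Finset.sum_div]
      rw [h2]
      refine div_le_div_of_nonneg_right ?_ (by norm_num)
      have h3 : ∑ x, ∑ y, T x y ≤ ∑ _x : Fin d → ZMod n, Lam * C :=
        Finset.sum_le_sum fun x _ => by rw [hT]; exact row_sum hC hLam hJ n x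
      rw [Finset.sum_const, nsmul_eq_mul, Finset.card_univ, hcard] at h3
      exact h3
    rw [hcard]
    have h2 : (0 : ℝ) < (n : ℝ) ^ d := by positivity
    have h3 : 2 * (t * ∑ x, ∑ y, T x y / 2) * (2 * K₀ / (n : ℝ) ^ d) ^ 2 ≤
        2 * (t * ((n : ℝ) ^ d * (Lam * C) / 2)) * (2 * K₀ / (n : ℝ) ^ d) ^ 2 := by
      refine mul_le_mul_of_nonneg_right ?_ (by positivity)
      exact mul_le_mul_of_nonneg_left (mul_le_mul_of_nonneg_left h1 ht.le) (by norm_num)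
    refine h3.trans ?_
    have h4 : 2 * (t * ((n : ℝ) ^ d * (Lam * C) / 2)) * (2 * K₀ / (n : ℝ) ^ d) ^ 2 =
        4 * t * Lam * C * K₀ ^ 2 / (n : ℝ) ^ d := by
      field_simp
      ring
    rw [h4, div_le_iff₀ h2]
    rw [div_le_iff₀ (by positivity)] at q7
    linarith
  have hconc : ∀ K : ℝ, K₀ ≤ K → K ≤ δ₀ * (n : ℝ) ^ d → mn T t (fun g => |mas K g - m|) ≤ η := by
    intro K hKa hKb
    have h1 : ∀ g : Perm (Fin d → ZMod n), |mas K g - m| ≤ ((win K₀ (A * (n : ℝ) ^ σ) g + win (A * (n : ℝ) ^ σ) K' g) +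
        (mas K' g - mas (δ₀ * (n : ℝ) ^ d) g)) + (|mas K₀ g - mn T t (mas K₀)| +
          |mn T t (mas K₀) - m|) := by
      intro g
      have h2 := abs_sub_le (mas K g) (mas K₀ g) m
      have h3 := abs_sub_le (mas K₀ g) (mn T t (mas K₀)) m
      have h4 : |mas K g - mas K₀ g| ≤ mas K₀ g - mas (δ₀ * (n : ℝ) ^ d) g := by
        have h5 := Pool.Agent.TH268.PD.mas_anti hKa g
        have h6 := Pool.Agent.TH268.PD.mas_anti hKb g
        rw [abs_sub_comm, abs_of_nonneg (by linarith)]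
        linarith
      unfold win
      linarith
    refine (mn_mono hT0 ht.le h1).trans ?_
    rw [mn_add, mn_add, mn_add, mn_add, mn_const hT0 ht.le]
    have h2 : mn T t (fun g => mas K' g - mas (δ₀ * (n : ℝ) ^ d) g) ≤ η / 8 := hgap
    have h3 : mn T t (fun g => win K₀ (A * (n : ℝ) ^ σ) g) ≤ η / 8 := hwin
    have h4 : mn T t (fun g => win (A * (n : ℝ) ^ σ) K' g) ≤ η / 8 := hmid
    linarith
  refine ⟨hconc, K', hK₀K', hK'le, ?_⟩
  have h1 := (hsi K' le_rfl hK'le).1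
  unfold mn
  linarith

end

end Pool.Agent.N795.ST
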