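import Pool.Agent.N795.ST.Fin
import Pool.Agent.TH268.PD.Seq

/-!
# The iterated limit of the expected sums of the first ordered cycle lengths
-/

set_option autoImplicit false

namespace Pool.Agent.N795.ST

open Finset Equiv Filter Topology
open Pool.Agent.TH268.PD (law mas top frac pdm gk gk_cont gk_bdd)

section

variable {V : ℕ → Type} [∀ n, Fintype (V n)] [∀ n, DecidableEq (V n)] [∀ n, Nonempty (V n)]

theorem sums_lim (T : ∀ n, V n → V n → ℝ) (t m : ℝ) (hm0 : 0 ≤ m) (hm1 : m ≤ 1)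
    (h : ∀ (k : ℕ) (f : (Fin k → ℝ) → ℝ), Continuous f → (∃ B, ∀ u, |f u| ≤ B) →
      Tendsto (fun n : ℕ => mn (T n) t (fun g => f (fun i => top (frac g) i))) atTop
          (𝓝 (pdm (fun u : Fin k → ℝ => f (fun i => m * u i))))) :
    ∃ S : ℕ → ℝ, (∀ k, Tendsto (fun n : ℕ => ∑ i ∈ range k, mn (T n) t
      (fun g => top (frac g) i)) atTop (𝓝 (S k))) ∧ Tendsto S atTop (𝓝 m) := by
  refine ⟨fun k => m * Pool.Agent.TH268.PD.Lim.I (Pool.Agent.TH268.PD.Lim.Sm k), fun k => ?_, ?_⟩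
  · have h1 := h k (gk k) (gk_cont k) ⟨k, gk_bdd k⟩
    have h2 : pdm (fun u : Fin k → ℝ => gk k (fun i => m * u i)) =
        m * Pool.Agent.TH268.PD.Lim.I (Pool.Agent.TH268.PD.Lim.Sm k) :=
      Pool.Agent.TH268.PD.pd_sum k m hm0 hm1
    rw [h2] at h1
    refine h1.congr fun n => ?_
    unfold mn
    rw [Finset.sum_comm]
    refine Finset.sum_congr rfl fun g _ => ?_
    rw [← Finset.mul_sum]
    congr 1
    unfold gk
    rw [← Fin.sum_univ_eq_sum_range (fun i => top (frac g) i)]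
    refine Finset.sum_congr rfl fun i _ => ?_
    obtain ⟨h1, h2⟩ := Pool.Agent.TH268.PD.top_mem g i
    rw [max_eq_left h1, min_eq_left h2]
  · have h1 : Tendsto (fun k : ℕ => Pool.Agent.TH268.PD.Lim.I (Pool.Agent.TH268.PD.Lim.Sm k)) atTop
        (𝓝 1) := by
      refine tendsto_of_tendsto_of_tendsto_of_le_of_le (g := fun k : ℕ => 1 - (1 / 2 : ℝ) ^ k)
        (h := fun _ => (1 : ℝ)) ?_ tendsto_const_nhds Pool.Agent.TH268.PD.Lim.S_lower
        Pool.Agent.TH268.PD.Lim.S_upper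
      have h2 := (tendsto_pow_atTop_nhds_zero_of_lt_one (show (0 : ℝ) ≤ 1 / 2 by norm_num)
        (by norm_num)).const_sub 1
      rwa [sub_zero] at h2
    have h2 := h1.const_mul m
    rwa [mul_one] at h2

theorem scaled_lim (T : ∀ n, V n → V n → ℝ) (t m : ℝ) (hm0 : 0 < m)
    (h : ∀ (k : ℕ) (f : (Fin k → ℝ) → ℝ), Continuous f → (∃ B, ∀ u, |f u| ≤ B) →
      Tendsto (fun n : ℕ => mn (T n) t (fun g => f (fun i => top (frac g) i))) atTop
          (𝓝 (pdm (fun u : Fin k → ℝ => f (fun i => m * u i)))))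
    (k : ℕ) (f : (Fin k → ℝ) → ℝ) (hf : Continuous f) (hb : ∃ B, ∀ u, |f u| ≤ B) :
    Tendsto (fun n : ℕ => mn (T n) t (fun g => f (fun i => top (frac g) i / m))) atTop
      (𝓝 (pdm f)) := by
  obtain ⟨B, hB⟩ := hb
  have h1 := h k (fun u => f (fun i => u i / m)) (hf.comp (by fun_prop)) ⟨B, fun u => hB _⟩
  have h2 : (fun u : Fin k → ℝ => f (fun i => m * u i / m)) = f := by
    funext u
    congr 1
    funext i
    field_simp
  rwa [h2] at h1

end

end Pool.Agent.N795.ST
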