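import Pool.Agent.N795.ST.Weak
import Pool.Agent.N795.ST.Sums

/-!
# Stirring with a weak mean field part: no mesoscopic cycles, the law of the ordered cycle lengths
-/

set_option autoImplicit false

namespace Pool.Agent.N795.ST

open Finset Equiv Filter Topology
open Pool.Agent.W805.LR (len cnt)
open Pool.Agent.TH268.PD (law mas TT BD top frac pdm)

/-- the rates plus a mean field part of rate `c / N` for every pair -/
noncomputable def mf {V : Type} [Fintype V] [DecidableEq V] (J : V → V → ℝ) (c : ℝ) (x y : V) : ℝ :=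
  J x y + if x ≠ y then c / (Fintype.card V : ℝ) else 0

section

variable {d : ℕ} {Mo : ℝ} {J : (Fin d → ℤ) → ℝ}

/-- small times -/
theorem small_aa' (hJ0 : ∀ {M : ℕ} (x y : Fin d → ZMod M), 0 ≤ tr J x y) (S : ℝ)
    (hS : ∀ s : Finset (Fin d → ℤ), 0 ∉ s → ∑ z ∈ s, J z ≤ S) (t : ℝ) (ht : 0 < t)
    (hq : t * S < 1) (K : ℝ) (hK : 0 < K) (n : ℕ) [NeZero n] :
    aa J t K n ≤ 1 / (1 - t * S) / K := by
  classical
  unfold aa
  obtain ⟨T, hT⟩ : ∃ T : (Fin d → ZMod n) → (Fin d → ZMod n) → ℝ, T = tr J := ⟨_, rfl⟩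
  rw [← hT]
  have hT0 : ∀ x y, 0 ≤ T x y := fun x y => by rw [hT]; exact hJ0 x y
  have hTs : ∀ x y, T x y = T y x := fun x y => by rw [hT]; exact tr_symm J x y
  have hne : Nonempty (Fin d → ZMod n) := ⟨fun _ => 0⟩
  have hN : (0 : ℝ) < Fintype.card (Fin d → ZMod n) := by exact_mod_cast Fintype.card_pos
  have h1 : ∀ g : Perm (Fin d → ZMod n), mas K g ≤
      (∑ v, len g v) / (K * Fintype.card (Fin d → ZMod n)) := by
    intro g
    unfold mas
    rw [Pool.Agent.TH268.PD.Bad.cnt_eq, div_le_div_iff₀ hN (by positivity)]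
    have h2 : ((univ.filter fun v => K ≤ len g v).card : ℝ) * K ≤ ∑ v, len g v := by
      rw [← nsmul_eq_mul, ← Finset.sum_const]
      refine (Finset.sum_le_sum fun v hv => (Finset.mem_filter.1 hv).2).trans ?_
      refine Finset.sum_le_univ_sum_of_nonneg fun v => ?_
      unfold len
      rw [Pool.Agent.TH268.PD.Bad.cnt_eq]
      positivity
    calc ((univ.filter fun v => K ≤ len g v).card : ℝ) * (K * Fintype.card (Fin d → ZMod n)) =
        (((univ.filter fun v => K ≤ len g v).card : ℝ) * K) * Fintype.card (Fin d → ZMod n) := by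
          ring
      _ ≤ _ := mul_le_mul_of_nonneg_right h2 hN.le
  refine (mn_mono hT0 ht.le h1).trans ?_
  have e1 : mn T t (fun g => (∑ v, len g v) / (K * Fintype.card (Fin d → ZMod n))) =
      (∑ v, ∑ g, law T t g * len g v) / (K * Fintype.card (Fin d → ZMod n)) := by
    unfold mn
    rw [Finset.sum_comm, Finset.sum_div]
    refine Finset.sum_congr rfl fun g _ => ?_
    rw [← Finset.mul_sum]
    ring
  rw [e1]
  have hq0 : 0 < 1 - t * S := by linarith
  have h2 : ∑ v, ∑ g, law T t g * len g v ≤ Fintype.card (Fin d → ZMod n) * (1 / (1 - t * S)) := by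
    refine (Finset.sum_le_sum fun v _ => Pool.Agent.N795.LR.small_law T hT0 hTs t ht.le S
      (fun x => by rw [hT]; exact row_le S hS n x) hq v).trans (le_of_eq ?_)
    rw [Finset.sum_const, nsmul_eq_mul, Finset.card_univ]
  refine (div_le_div_of_nonneg_right h2 (by positivity)).trans (le_of_eq ?_)
  field_simp

theorem weak_core (hU : CmpUp) (hG : Gain) (hN : Nmt) (hd : 1 ≤ d) (h : FM d J Mo)
    (t : ℝ) (ht : 0 < t) (α : ℝ → ℝ) (m : ℝ)
    (hα : ∀ K, 0 ≤ K → ∀ (n : ℕ) [NeZero n], |aa J t K n - α K| ≤ 4 * t * d * Mo * K / n)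
    (hmα : ∀ K, 0 ≤ K → m ≤ α K) (hαm : Tendsto α atTop (𝓝 m))
    (c : ℕ → ℝ) (hc : ∀ L, 0 < c L) (hc0 : Tendsto c atTop (𝓝 0))
    (hcL : Tendsto (fun L : ℕ => ((L : ℝ) + 1) * c L) atTop atTop)
    (k : ℕ) (f : (Fin k → ℝ) → ℝ) (hfc : Continuous f) (Cf : ℝ) (hCf : ∀ u, |f u| ≤ Cf)
    (η : ℝ) (hη : 0 < η) :
    ∃ K₀ δ₀ : ℝ, 1 ≤ K₀ ∧ 0 < δ₀ ∧ ∃ L₀ : ℕ, ∀ L : ℕ, L₀ ≤ L →
      (∀ K : ℝ, K₀ ≤ K → K ≤ δ₀ * ((L + 1 : ℕ) : ℝ) ^ d →
        mn (mf (tr J : (Fin d → ZMod (L + 1)) → (Fin d → ZMod (L + 1)) → ℝ) (c L)) t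
          (fun g => |mas K g - m|) ≤ η) ∧
      ∃ K : ℝ, K₀ ≤ K ∧ K ≤ δ₀ * ((L + 1 : ℕ) : ℝ) ^ d ∧
        |mn (mf (tr J : (Fin d → ZMod (L + 1)) → (Fin d → ZMod (L + 1)) → ℝ) (c L)) t
            (fun g => f (fun i => top (frac g) i)) -
          mn (mf (tr J : (Fin d → ZMod (L + 1)) → (Fin d → ZMod (L + 1)) → ℝ) (c L)) t
            (fun g => pdm (fun u : Fin k → ℝ => f (fun i => mas K g * u i)))| ≤ η := by
  have hMo := h.Mo_nonneg
  have hη' : 0 < η / 16 := by positivity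
  obtain ⟨δ₀, hδ₀, A₁, hA₁, HS⟩ := Pool.Agent.TH268.PD.stir_ord k f hfc Cf hCf (η / 16) hη'
  obtain ⟨A', hA'⟩ : ∃ A' : ℝ, A' = A₁ / Real.sqrt t := ⟨_, rfl⟩
  have hst : 0 < Real.sqrt t := Real.sqrt_pos.2 ht
  have hA'0 : 0 < A' := by rw [hA']; positivity
  obtain ⟨A, hA, HM⟩ := mid_gen hN t ht A' hA'0 (η / 16) hη'
  obtain ⟨K₂, HA⟩ := (Metric.tendsto_atTop.1 hαm) (η / 16) hη'
  obtain ⟨K₀, hK₀⟩ : ∃ K₀ : ℝ, K₀ = max 1 K₂ := ⟨_, rfl⟩
  have hK₀1 : 1 ≤ K₀ := by rw [hK₀]; exact le_max_left _ _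
  have hK₀0 : 0 ≤ K₀ := by linarith
  have hα2 := hmα K₀ hK₀0
  have hα1 : α K₀ ≤ m + η / 16 := by
    have h1 := HA K₀ (by rw [hK₀]; exact le_max_right _ _)
    rw [Real.dist_eq, abs_lt] at h1
    linarith [h1.2]
  obtain ⟨B, hB⟩ : ∃ B : ℝ, B = 4 * t * d * Mo := ⟨_, rfl⟩
  have hB0 : 0 ≤ B := by rw [hB]; positivity
  -- growth
  have hlim1 : Tendsto (fun L : ℕ => (L : ℝ) + 1) atTop atTop :=
    tendsto_atTop_add_const_right _ _ tendsto_natCast_atTop_atTop
  obtain ⟨L₀, hL₀⟩ := Filter.eventually_atTop.1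
    (((((hlim1.eventually_ge_atTop (A₁ + (K₀ / A') ^ 2 + B * K₀ / (η / 16) +
        4 * t * (Mo + 1) * K₀ ^ 2 / (η / 16) ^ 2)).and
      (hcL.eventually_ge_atTop (A₁ / t + (A' / δ₀) ^ 2 + B * A / (η / 16) +
        t * A ^ 2 / (η / 16)))).and
      (hc0.eventually_le_const (show (0 : ℝ) < 1 from one_pos))).and
      (hc0.eventually_le_const (show (0 : ℝ) < A / K₀ by positivity))).and
      (hc0.eventually_le_const (show (0 : ℝ) < η / 16 / (t * K₀) by positivity)))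
  refine ⟨K₀, δ₀, hK₀1, hδ₀, L₀, fun L hL => ?_⟩
  obtain ⟨⟨⟨⟨q1, q2⟩, q3⟩, q4⟩, q5⟩ := hL₀ L hL
  obtain ⟨cL, hcLdef⟩ : ∃ cL, cL = c L := ⟨_, rfl⟩
  have hcp : 0 < cL := by rw [hcLdef]; exact hc L
  rw [← hcLdef] at q2 q3 q4 q5 ⊢
  obtain ⟨nr, hnr⟩ : ∃ nr : ℝ, nr = (L : ℝ) + 1 := ⟨_, rfl⟩
  rw [← hnr] at q1 q2
  have hnr1 : 1 ≤ nr := by
    rw [hnr]
    have : (0 : ℝ) ≤ L := Nat.cast_nonneg L
    linarith
  have hnr0 : 0 < nr := by linarith
  have hcast : ((L + 1 : ℕ) : ℝ) = nr := by rw [hnr]; push_cast; ring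
  have hcard0 := Pool.Agent.W805.LR.card_torus d (L + 1)
  rw [hcast] at hcard0
  obtain ⟨N, hNdef⟩ : ∃ N : ℝ, N = Fintype.card (Fin d → ZMod (L + 1)) := ⟨_, rfl⟩
  have hcard : N = nr ^ d := by rw [hNdef, hcard0]
  have hnN : nr ≤ N := by
    rw [hcard]
    exact le_self_pow₀ hnr1 (by omega)
  have hN0 : 0 < N := by linarith
  have hcN : nr * cL ≤ cL * N := by
    rw [mul_comm]
    exact mul_le_mul_of_nonneg_left hnN hcp.le
  -- consequences
  have r1 : A₁ ≤ N := by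
    have : 0 ≤ (K₀ / A') ^ 2 := by positivity
    have : 0 ≤ B * K₀ / (η / 16) := by positivity
    have : 0 ≤ 4 * t * (Mo + 1) * K₀ ^ 2 / (η / 16) ^ 2 := by positivity
    linarith
  have r2 : (K₀ / A') ^ 2 ≤ N := by
    have : 0 ≤ B * K₀ / (η / 16) := by positivity
    have : 0 ≤ 4 * t * (Mo + 1) * K₀ ^ 2 / (η / 16) ^ 2 := by positivity
    linarith
  have r3 : B * K₀ / nr ≤ η / 16 := by
    have e1 : 0 ≤ (K₀ / A') ^ 2 := by positivity
    have e2 : 0 ≤ 4 * t * (Mo + 1) * K₀ ^ 2 / (η / 16) ^ 2 := by positivity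
    have e3 : B * K₀ / (η / 16) ≤ nr := by linarith
    rw [div_le_iff₀ hη'] at e3
    rw [div_le_iff₀ hnr0]
    linarith
  have r4 : 4 * t * (Mo + 1) * K₀ ^ 2 / N ≤ (η / 16) ^ 2 := by
    have e1 : 0 ≤ (K₀ / A') ^ 2 := by positivity
    have e2 : 0 ≤ B * K₀ / (η / 16) := by positivity
    have e3 : 4 * t * (Mo + 1) * K₀ ^ 2 / (η / 16) ^ 2 ≤ N := by linarith
    rw [div_le_iff₀ (by positivity)] at e3
    rw [div_le_iff₀ hN0]
    linarith
  have p1 : 0 ≤ A₁ / t := by positivity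
  have p2 : 0 ≤ (A' / δ₀) ^ 2 := by positivity
  have p3 : 0 ≤ B * A / (η / 16) := by positivity
  have p4 : 0 ≤ t * A ^ 2 / (η / 16) := by positivity
  have r5 : A₁ ≤ t * cL * N := by
    have e3 : A₁ / t ≤ cL * N := by linarith
    rw [div_le_iff₀ ht] at e3
    linarith
  have r6 : (A' / δ₀) ^ 2 ≤ cL * N := by linarith
  have r7 : B * A / (cL * nr) ≤ η / 16 := by
    have e3 : B * A / (η / 16) ≤ nr * cL := by linarith
    rw [div_le_iff₀ hη'] at e3
    rw [div_le_iff₀ (by positivity)]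
    linarith
  have r8 : t * A ^ 2 / (cL * N) ≤ η / 16 := by
    have e3 : t * A ^ 2 / (η / 16) ≤ cL * N := by linarith
    rw [div_le_iff₀ hη'] at e3
    rw [div_le_iff₀ (by positivity)]
    linarith
  have r9 : t * cL * K₀ ≤ η / 16 := by
    rw [le_div_iff₀ (by positivity)] at q5
    linarith
  have r10 : K₀ ≤ A / cL := by
    rw [le_div_iff₀ (by positivity)] at q4
    rw [le_div_iff₀ hcp]
    linarith
  -- the models
  obtain ⟨T, hT⟩ : ∃ T : (Fin d → ZMod (L + 1)) → (Fin d → ZMod (L + 1)) → ℝ, T = tr J := ⟨_, rfl⟩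
  have hT0 : ∀ x y, 0 ≤ T x y := fun x y => by rw [hT]; exact h.tr_nonneg x y
  obtain ⟨U, hUdef⟩ : ∃ U : (Fin d → ZMod (L + 1)) → (Fin d → ZMod (L + 1)) → ℝ, U = mf T cL :=
    ⟨_, rfl⟩
  rw [← hT, ← hUdef]
  have hU0 : ∀ x y, 0 ≤ U x y := by
    intro x y
    rw [hUdef]
    exact mf_nonneg hT0 hcp.le x y
  have hne : Nonempty (Fin d → ZMod (L + 1)) := ⟨fun _ => 0⟩
  obtain ⟨κ, hκ⟩ : ∃ κ : ℝ, κ = cL / N := ⟨_, rfl⟩
  have hκ0 : 0 < κ := by rw [hκ]; positivity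
  obtain ⟨K', hK'⟩ : ∃ K' : ℝ, K' = A' * Real.sqrt (N / cL) := ⟨_, rfl⟩
  have hs : 0 < Real.sqrt (N / cL) := Real.sqrt_pos.2 (by positivity)
  have hKeq : A₁ / Real.sqrt (t * κ) = K' := by
    have e2 : Real.sqrt (cL / N) = (Real.sqrt (N / cL))⁻¹ := by
      rw [← Real.sqrt_inv, inv_div]
    rw [hK', hA', hκ, Real.sqrt_mul ht.le, e2]
    field_simp
  have hK'le : K' ≤ δ₀ * nr ^ d := by
    rw [hK', ← hcard]
    have e1 : Real.sqrt (N / cL) ≤ δ₀ / A' * N := by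
      refine Real.sqrt_le_iff.2 ⟨by positivity, ?_⟩
      rw [div_le_iff₀ hcp]
      have e3 : (δ₀ / A') ^ 2 * N * (A' / δ₀) ^ 2 ≤ (δ₀ / A') ^ 2 * N * (cL * N) :=
        mul_le_mul_of_nonneg_left r6 (by positivity)
      have e4 : (δ₀ / A') ^ 2 * N * (A' / δ₀) ^ 2 = N := by field_simp
      rw [e4] at e3
      refine e3.trans (le_of_eq ?_)
      ring
    have e2 := mul_le_mul_of_nonneg_left e1 hA'0.le
    refine e2.trans (le_of_eq ?_)
    field_simp
  have hK₀K' : K₀ ≤ K' := by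
    rw [hK']
    have e1 : K₀ / A' ≤ Real.sqrt (N / cL) := by
      refine Real.le_sqrt_of_sq_le (r2.trans ?_)
      rw [le_div_iff₀ hcp]
      nlinarith
    rw [div_le_iff₀ hA'0] at e1
    linarith
  have hsi := HS (Fin d → ZMod (L + 1)) U κ t ht hκ0
    (fun x y hxy => by
      rw [hUdef, hκ, hNdef]
      unfold mf
      rw [if_pos hxy]
      linarith [hT0 x y])
    (fun x => by
      rw [hUdef, hT]
      unfold mf
      rw [tr_self, if_neg (fun h' => h' rfl), add_zero])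
    (by rw [← hNdef]; exact r1)
    (by
      rw [← hNdef]
      refine r5.trans (le_of_eq ?_)
      rw [hκ]
      field_simp)
  rw [hKeq, ← hNdef, hcard] at hsi
  -- the masses
  have hmid := HM (Fin d → ZMod (L + 1)) T cL hT0 hcp
  have e0 : (fun x y => T x y + if x ≠ y then cL / (Fintype.card (Fin d → ZMod (L + 1)) : ℝ) else 0)
      = U := by rw [hUdef]; rfl
  rw [e0, ← hNdef, ← hK'] at hmid
  have hgap := (hsi K' le_rfl hK'le).2
  have haaT : ∀ K, mn T t (mas K) = aa J t K (L + 1) := fun K => by rw [hT]; rfl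
  have hαK₀ := hα K₀ hK₀0 (L + 1)
  rw [hcast, ← haaT, ← hB] at hαK₀
  have hwin : mn U t (win K₀ (A / cL)) ≤ η / 16 + η / 16 + η / 16 + (η / 16 + η / 16) := by
    have h1 := far_win hU hG (J₁ := T)
      (J₂ := fun x y => if x ≠ y then cL / (Fintype.card (Fin d → ZMod (L + 1)) : ℝ) else 0)
      (t := t) (j := κ) (K := K₀) (K' := A / cL) hT0
      (fun x y => by split_ifs <;> positivity) ht.le hκ0.le
      (fun x y => by
        rw [← hNdef, hκ]
        split_ifs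
        · exact le_rfl
        · positivity) hK₀0 r10
    rw [e0, ← hNdef] at h1
    have h2 : t * (κ * (K₀ * N + (A / cL) ^ 2)) = t * cL * K₀ + t * A ^ 2 / (cL * N) := by
      rw [hκ]
      field_simp
    rw [h2] at h1
    have h3 : mn T t (win K₀ (A / cL)) = mn T t (mas K₀) - mn T t (mas (A / cL)) :=
      mn_sub T t _ _
    have h4 := hα (A / cL) (by positivity) (L + 1)
    rw [hcast, ← haaT, ← hB] at h4
    have h5 := hmα (A / cL) (by positivity)
    have h6 : B * (A / cL) / nr = B * A / (cL * nr) := by field_simp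
    rw [h6] at h4
    rw [abs_le] at h4 hαK₀
    linarith [h4.1, h4.2, hαK₀.1, hαK₀.2]
  have hmean : |mn U t (mas K₀) - m| ≤ η / 16 + η / 16 + η / 16 := by
    have h1 := cmp (J₁ := U) (J₂ := T) (t := t) hU0 hT0 ht.le (mas_BD hK₀0)
    have h2 : ∑ x, ∑ y, |U x y - T x y| / 2 ≤ N * cL / 2 := by
      have h3 : ∀ x y : Fin d → ZMod (L + 1), |U x y - T x y| / 2 ≤ cL / N / 2 := by
        intro x y
        rw [hUdef]
        unfold mf
        rw [add_sub_cancel_left, ← hNdef]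
        refine div_le_div_of_nonneg_right ?_ two_pos.le
        split_ifs
        · rw [abs_of_nonneg (by positivity)]
        · rw [abs_zero]; positivity
      refine (Finset.sum_le_sum fun x _ => Finset.sum_le_sum fun y _ => h3 x y).trans
        (le_of_eq ?_)
      rw [Finset.sum_const, Finset.sum_const, Finset.card_univ, nsmul_eq_mul, nsmul_eq_mul,
        ← hNdef]
      field_simp
    have h3 : t * (∑ x, ∑ y, |U x y - T x y| / 2) *
        (2 * K₀ / (Fintype.card (Fin d → ZMod (L + 1)) : ℝ)) ≤ t * cL * K₀ := by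
      rw [← hNdef]
      refine (mul_le_mul_of_nonneg_right (mul_le_mul_of_nonneg_left h2 ht.le)
        (by positivity)).trans (le_of_eq ?_)
      field_simp
    have h4 : |mn U t (mas K₀) - mn T t (mas K₀)| ≤ η / 16 := (h1.trans h3).trans r9
    rw [abs_le] at h4 hαK₀ ⊢
    constructor <;> linarith [h4.1, h4.2, hαK₀.1, hαK₀.2]
  have hvar : mn U t (fun g => |mas K₀ g - mn U t (mas K₀)|) ≤ η / 16 := by
    refine abs_var U t ht.le hU0 (2 * K₀ / Fintype.card (Fin d → ZMod (L + 1))) (mas K₀)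
      (mas_BD hK₀0) (η / 16) hη' ?_
    have h1 : ∑ x, ∑ y, U x y / 2 ≤ N * (Mo + 1) / 2 := by
      have h2 : ∀ x : Fin d → ZMod (L + 1), ∑ y, U x y / 2 ≤ (Mo + 1) / 2 := by
        intro x
        rw [← Finset.sum_div]
        refine div_le_div_of_nonneg_right ?_ two_pos.le
        rw [hUdef]
        unfold mf
        rw [Finset.sum_add_distrib]
        refine add_le_add (by rw [hT]; exact h.row (L + 1) x) ?_
        have h3 : ∀ y : Fin d → ZMod (L + 1), (if x ≠ y then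
            cL / (Fintype.card (Fin d → ZMod (L + 1)) : ℝ) else 0) ≤ cL / N := by
          intro y
          rw [← hNdef]
          split_ifs
          · exact le_rfl
          · positivity
        refine (Finset.sum_le_sum fun y _ => h3 y).trans ?_
        rw [Finset.sum_const, Finset.card_univ, nsmul_eq_mul, ← hNdef]
        have h4 : N * (cL / N) = cL := by field_simp
        rw [h4]
        exact q3
      refine (Finset.sum_le_sum fun x _ => h2 x).trans (le_of_eq ?_)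
      rw [Finset.sum_const, Finset.card_univ, nsmul_eq_mul, ← hNdef]
      ring
    rw [← hNdef]
    have h3 : 2 * (t * ∑ x, ∑ y, U x y / 2) * (2 * K₀ / N) ^ 2 ≤
        2 * (t * (N * (Mo + 1) / 2)) * (2 * K₀ / N) ^ 2 := by
      refine mul_le_mul_of_nonneg_right ?_ (by positivity)
      exact mul_le_mul_of_nonneg_left (mul_le_mul_of_nonneg_left h1 ht.le) (by norm_num)
    refine h3.trans (le_trans (le_of_eq ?_) r4)
    field_simp
    ring
  rw [hcast]
  have hconc : ∀ K : ℝ, K₀ ≤ K → K ≤ δ₀ * nr ^ d → mn U t (fun g => |mas K g - m|) ≤ η := by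
    intro K hKa hKb
    have h1 : ∀ g : Perm (Fin d → ZMod (L + 1)), |mas K g - m| ≤ ((win K₀ (A / cL) g +
        win (A / cL) K' g) + (mas K' g - mas (δ₀ * nr ^ d) g)) + (|mas K₀ g - mn U t (mas K₀)| +
          |mn U t (mas K₀) - m|) := by
      intro g
      have h2 := abs_sub_le (mas K g) (mas K₀ g) m
      have h3 := abs_sub_le (mas K₀ g) (mn U t (mas K₀)) m
      have h4 : |mas K g - mas K₀ g| ≤ mas K₀ g - mas (δ₀ * nr ^ d) g := by
        have h5 := Pool.Agent.TH268.PD.mas_anti hKa g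
        have h6 := Pool.Agent.TH268.PD.mas_anti hKb g
        rw [abs_sub_comm, abs_of_nonneg (by linarith)]
        linarith
      unfold win
      linarith
    refine (mn_mono hU0 ht.le h1).trans ?_
    rw [mn_add, mn_add, mn_add, mn_add, mn_const hU0 ht.le]
    have h2 : mn U t (fun g => mas K' g - mas (δ₀ * nr ^ d) g) ≤ η / 16 := hgap
    have h3 : mn U t (fun g => win K₀ (A / cL) g) ≤
      η / 16 + η / 16 + η / 16 + (η / 16 + η / 16) := hwin
    have h4 : mn U t (fun g => win (A / cL) K' g) ≤ η / 16 := hmid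
    linarith
  refine ⟨hconc, K', hK₀K', hK'le, ?_⟩
  have h1 := (hsi K' le_rfl hK'le).1
  unfold mn
  linarith

/-- **Weak mean field noise.** -/
theorem weak (hU : CmpUp) (hG : Gain) (hGeo : Geo) (hN : Nmt) (hd : 1 ≤ d) (h : FM d J Mo)
    (t : ℝ) (ht : 0 < t) :
    ∃ m : ℝ, 0 ≤ m ∧ m ≤ 1 ∧
      (∃ α : ℝ → ℝ,
        (∀ K, 0 ≤ K → Tendsto (fun L : ℕ => aa J t K (L + 1)) atTop (𝓝 (α K))) ∧
        Tendsto α atTop (𝓝 m)) ∧
      (∀ c : ℕ → ℝ, (∀ L, 0 < c L) → Tendsto c atTop (𝓝 0) →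
        Tendsto (fun L : ℕ => ((L : ℝ) + 1) * c L) atTop atTop →
        (∀ ε : ℝ, 0 < ε → ∃ K₀ δ₀ : ℝ, 1 ≤ K₀ ∧ 0 < δ₀ ∧ ∃ L₀ : ℕ, ∀ L : ℕ, L₀ ≤ L →
          ∀ K : ℝ, K₀ ≤ K → K ≤ δ₀ * ((L + 1 : ℕ) : ℝ) ^ d →
            mn (mf (tr J : (Fin d → ZMod (L + 1)) → (Fin d → ZMod (L + 1)) → ℝ) (c L)) t
              (fun g => |mas K g - m|) ≤ ε) ∧
        (∀ (k : ℕ) (f : (Fin k → ℝ) → ℝ), Continuous f → (∃ B, ∀ u, |f u| ≤ B) →
          Tendsto (fun L : ℕ =>
            mn (mf (tr J : (Fin d → ZMod (L + 1)) → (Fin d → ZMod (L + 1)) → ℝ) (c L)) t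
              (fun g => f (fun i => top (frac g) i))) atTop
            (𝓝 (pdm (fun u : Fin k → ℝ => f (fun i => m * u i)))))) ∧
      (∀ S : ℝ, (∀ s : Finset (Fin d → ℤ), 0 ∉ s → ∑ z ∈ s, J z ≤ S) → t * S < 1 → m = 0) := by
  obtain ⟨α, m, hm0, hm1, hα, hα', hmα, hαm⟩ := h.al hGeo hd t ht
  refine ⟨m, hm0, hm1, ⟨α, hα, hαm⟩, fun c hc hc0 hcL => ⟨fun ε hε => ?_, fun k f hfc hfb => ?_⟩,
    fun S hS hq => ?_⟩
  · obtain ⟨K₀, δ₀, h1, h2, L₀, H⟩ := weak_core hU hG hN hd h t ht α m hα' hmα hαm c hc hc0 hcL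
      0 (fun _ => 0) continuous_const 0 (fun _ => by simp) ε hε
    exact ⟨K₀, δ₀, h1, h2, L₀, fun L hL => (H L hL).1⟩
  · obtain ⟨B, hB⟩ := hfb
    rw [Metric.tendsto_atTop]
    intro η hη
    obtain ⟨Λ, hΛ, hnear⟩ := Pool.Agent.TH268.PD.pdm_near k f hfc B hB (η / 4) (by positivity)
    obtain ⟨K₀, δ₀, h1, h2, L₀, H⟩ := weak_core hU hG hN hd h t ht α m hα' hmα hαm c hc hc0 hcL
      k f hfc B hB (η / (4 * (Λ + 1))) (by positivity)
    refine ⟨L₀, fun L hL => ?_⟩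
    obtain ⟨h3, K, hK1, hK2, h4⟩ := H L hL
    have h5 := h3 K hK1 hK2
    obtain ⟨U, hUdef⟩ : ∃ U : (Fin d → ZMod (L + 1)) → (Fin d → ZMod (L + 1)) → ℝ,
      U = mf (tr J) (c L) := ⟨_, rfl⟩
    rw [← hUdef] at h4 h5 ⊢
    have hU0 : ∀ x y, 0 ≤ U x y := by
      intro x y
      rw [hUdef]
      exact mf_nonneg (fun x y => h.tr_nonneg x y) (hc L).le x y
    have h6 : |mn U t (fun g => pdm (fun u : Fin k → ℝ => f (fun i => mas K g * u i))) -
        pdm (fun u : Fin k → ℝ => f (fun i => m * u i))| ≤ η / 4 + Λ * (η / (4 * (Λ + 1))) := by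
      have e1 : mn U t (fun g => pdm (fun u : Fin k → ℝ => f (fun i => mas K g * u i))) -
          pdm (fun u : Fin k → ℝ => f (fun i => m * u i)) =
          mn U t (fun g => pdm (fun u : Fin k → ℝ => f (fun i => mas K g * u i)) -
            pdm (fun u : Fin k → ℝ => f (fun i => m * u i))) := by
        rw [mn_sub, mn_const hU0 ht.le]
      rw [e1]
      refine (mn_abs hU0 ht.le _).trans ?_
      have h7 : ∀ g : Perm (Fin d → ZMod (L + 1)),
          |pdm (fun u : Fin k → ℝ => f (fun i => mas K g * u i)) -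
            pdm (fun u : Fin k → ℝ => f (fun i => m * u i))| ≤ η / 4 + Λ * |mas K g - m| :=
        fun g => hnear (mas K g) m (Pool.Agent.TH268.PD.mas_nonneg _ _)
          (Pool.Agent.TH268.PD.mas_le_one _ _) hm0 hm1
      refine (mn_mono hU0 ht.le h7).trans ?_
      rw [mn_add, mn_const hU0 ht.le]
      refine add_le_add le_rfl ?_
      have e2 : mn U t (fun g => Λ * |mas K g - m|) = Λ * mn U t
            (fun g : Perm (Fin d → ZMod (L + 1)) => |mas K g - m|) := by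
        unfold mn
        rw [Finset.mul_sum]
        exact Finset.sum_congr rfl fun g _ => by ring
      rw [e2]
      exact mul_le_mul_of_nonneg_left h5 hΛ
    have h7 : (Λ + 1) * (η / (4 * (Λ + 1))) = η / 4 := by field_simp
    have h8 : 0 < η / (4 * (Λ + 1)) := by positivity
    have h9 := abs_sub_le (mn U t (fun g => f (fun i => top (frac g) i)))
      (mn U t (fun g => pdm (fun u : Fin k → ℝ => f (fun i => mas K g * u i))))
      (pdm (fun u : Fin k → ℝ => f (fun i => m * u i)))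
    rw [Real.dist_eq]
    nlinarith
  · refine le_antisymm ?_ hm0
    have hq0 : 0 < 1 - t * S := by linarith
    have h6 : ∀ K : ℝ, 0 < K → m ≤ 1 / (1 - t * S) / K := fun K hK =>
      (hmα K hK.le).trans (le_of_tendsto' (hα K hK.le) fun L =>
        small_aa' h.tr_nonneg S hS t ht hq K hK (L + 1))
    have h7 : Tendsto (fun K : ℝ => 1 / (1 - t * S) / K) atTop (𝓝 0) :=
      Tendsto.div_atTop tendsto_const_nhds tendsto_id
    exact ge_of_tendsto h7 (Filter.eventually_atTop.2 ⟨1, fun K hK => h6 K (by linarith)⟩)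

end

end Pool.Agent.N795.ST
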