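import Pool.Agent.N795.ST.Main

/-!
# Random stirring with long range rates at all times: the law of the ordered cycle lengths, small
and large times
-/

set_option autoImplicit false

namespace Pool.Agent.N795.ST

open Finset Equiv Filter Topology
open Pool.Agent.W805.LR (len cnt)
open Pool.Agent.TH268.PD (law mas TT BD top frac pdm)

section

variable {d : ℕ} {σ lam Lam C : ℝ} {J : (Fin d → ℤ) → ℝ}

theorem disp_inj_right {M : ℕ} (x : Fin d → ZMod M) :
    Function.Injective fun y : Fin d → ZMod M => disp x y := by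
  intro y y' h
  funext i
  have h1 := congrFun h i
  simp only [disp] at h1
  have h2 := ZMod.injective_valMinAbs h1
  exact sub_right_injective h2

theorem disp_inj_left {M : ℕ} (x : Fin d → ZMod M) :
    Function.Injective fun y : Fin d → ZMod M => disp y x := by
  intro y y' h
  funext i
  have h1 := congrFun h i
  simp only [disp] at h1
  have h2 := ZMod.injective_valMinAbs h1
  exact sub_left_injective h2

/-- the row sums on the torus are at most the sum of the rates -/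
theorem row_le (S : ℝ) (hS : ∀ s : Finset (Fin d → ℤ), 0 ∉ s → ∑ z ∈ s, J z ≤ S) (n : ℕ) [NeZero n]
    (x : Fin d → ZMod n) : ∑ y, tr J x y ≤ S := by
  classical
  have e1 : ∑ y, tr J x y = (∑ y ∈ univ.filter fun y => x ≠ y, J (disp x y)) / 2 +
      (∑ y ∈ univ.filter fun y => x ≠ y, J (disp y x)) / 2 := by
    rw [Finset.sum_filter, Finset.sum_filter, Finset.sum_div, Finset.sum_div,
      ← Finset.sum_add_distrib]
    refine Finset.sum_congr rfl fun y _ => ?_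
    unfold tr
    by_cases h : x = y
    · simp [h]
    · simp only [ne_eq, h, not_false_eq_true, if_true, if_false]
      ring
  have h1 : ∑ y ∈ univ.filter fun y => x ≠ y, J (disp x y) ≤ S := by
    have h2 := hS ((univ.filter fun y => x ≠ y).image fun y => disp x y) (by
      rw [Finset.mem_image]
      rintro ⟨y, hy, hy'⟩
      exact (Finset.mem_filter.1 hy).2 ((disp_eq_zero x y).1 hy'))
    rwa [Finset.sum_image fun y _ y' _ h => disp_inj_right x h] at h2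
  have h2 : ∑ y ∈ univ.filter fun y => x ≠ y, J (disp y x) ≤ S := by
    have h2 := hS ((univ.filter fun y => x ≠ y).image fun y => disp y x) (by
      rw [Finset.mem_image]
      rintro ⟨y, hy, hy'⟩
      exact (Finset.mem_filter.1 hy).2 ((disp_eq_zero y x).1 hy').symm)
    rwa [Finset.sum_image fun y _ y' _ h => disp_inj_left x h] at h2
  rw [e1]
  linarith

/-- small times -/
theorem small_aa (hlam : 0 < lam) (hJ : Cmpr d σ lam Lam J) (S : ℝ)
    (hS : ∀ s : Finset (Fin d → ℤ), 0 ∉ s → ∑ z ∈ s, J z ≤ S) (t : ℝ) (ht : 0 < t)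
    (hq : t * S < 1) (K : ℝ) (hK : 0 < K) (n : ℕ) [NeZero n] :
    aa J t K n ≤ 1 / (1 - t * S) / K := by
  classical
  unfold aa
  obtain ⟨T, hT⟩ : ∃ T : (Fin d → ZMod n) → (Fin d → ZMod n) → ℝ, T = tr J := ⟨_, rfl⟩
  rw [← hT]
  have hT0 : ∀ x y, 0 ≤ T x y := fun x y => by rw [hT]; exact tr_nonneg hlam hJ x y
  have hTs : ∀ x y, T x y = T y x := fun x y => by rw [hT]; exact tr_symm J x y
  have hne : Nonempty (Fin d → ZMod n) := ⟨fun _ => 0⟩
  have hN : (0 : ℝ) < Fintype.card (Fin d → ZMod n) := by exact_mod_cast Fintype.card_pos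
  have h1 : ∀ g : Perm (Fin d → ZMod n), mas K g ≤
      (∑ v, len g v) / (K * Fintype.card (Fin d → ZMod n)) := by
    intro g
    unfold mas
    rw [Pool.Agent.TH268.PD.Bad.cnt_eq, div_le_div_iff₀ hN (by positivity)]
    have h2 : ((univ.filter fun v => K ≤ len g v).card : ℝ) * K ≤ ∑ v, len g v := by
      rw [← nsmul_eq_mul, ← Finset.sum_const]
      refine (Finset.sum_le_sum fun v hv => (Finset.mem_filter.1 hv).2).trans ?_
      refine Finset.sum_le_univ_sum_of_nonneg fun v => ?_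
      unfold len
      rw [Pool.Agent.TH268.PD.Bad.cnt_eq]
      positivity
    calc ((univ.filter fun v => K ≤ len g v).card : ℝ) * (K * Fintype.card (Fin d → ZMod n)) =
        (((univ.filter fun v => K ≤ len g v).card : ℝ) * K) * Fintype.card (Fin d → ZMod n) := by
          ring
      _ ≤ _ := mul_le_mul_of_nonneg_right h2 hN.le
  refine (mn_mono hT0 ht.le h1).trans ?_
  have e1 : mn T t (fun g => (∑ v, len g v) / (K * Fintype.card (Fin d → ZMod n))) =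
      (∑ v, ∑ g, law T t g * len g v) / (K * Fintype.card (Fin d → ZMod n)) := by
    unfold mn
    rw [Finset.sum_comm, Finset.sum_div]
    refine Finset.sum_congr rfl fun g _ => ?_
    rw [← Finset.mul_sum]
    ring
  rw [e1]
  have hq0 : 0 < 1 - t * S := by linarith
  have h2 : ∑ v, ∑ g, law T t g * len g v ≤ Fintype.card (Fin d → ZMod n) * (1 / (1 - t * S)) := by
    refine (Finset.sum_le_sum fun v _ => Pool.Agent.N795.LR.small_law T hT0 hTs t ht.le S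
      (fun x => by rw [hT]; exact row_le S hS n x) hq v).trans (le_of_eq ?_)
    rw [Finset.sum_const, nsmul_eq_mul, Finset.card_univ]
  refine (div_le_div_of_nonneg_right h2 (by positivity)).trans (le_of_eq ?_)
  field_simp

/-- large times -/
theorem large_aa (hd : 1 ≤ d) (hlam : 0 < lam) (hσ : 0 < σ) (hσd : σ < d)
    (hJ : Cmpr d σ lam Lam J) (θ : ℝ) (hθ : 0 < θ) :
    ∃ t₁ : ℝ, 0 < t₁ ∧ ∀ t : ℝ, t₁ ≤ t → ∀ K : ℝ, ∃ L₀ : ℕ, ∀ (n : ℕ) [NeZero n], L₀ ≤ n →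
      1 - θ ≤ aa J t K n := by
  classical
  obtain ⟨t₁, ht₁, ε, hε, H⟩ := Pool.Agent.TH268.PD.large_time d σ lam θ hd hσ hσd hlam hθ
  refine ⟨t₁, ht₁, fun t ht K => ?_⟩
  have ht0 : 0 < t := lt_of_lt_of_le ht₁ ht
  obtain ⟨L₁, hL₁⟩ := H t ht
  have hlim1 : Tendsto (fun L : ℕ => ε * (L : ℝ) ^ d) atTop atTop :=
    Tendsto.const_mul_atTop hε ((tendsto_pow_atTop (by omega)).comp tendsto_natCast_atTop_atTop)
  obtain ⟨L₂, hL₂⟩ := Filter.eventually_atTop.1 (hlim1.eventually_ge_atTop K)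
  refine ⟨max L₁ L₂, fun n _ hn => ?_⟩
  have h1 := hL₁ n ((le_max_left _ _).trans hn) (tr J) ⟨tr_symm J, tr_self J, fun x y hxy => by
    refine le_trans ?_ (le_tr hJ hxy)
    refine mul_le_mul_of_nonneg_left ?_ hlam.le
    have h2 : (1 : ℝ) ≤ (nrm (disp x y) : ℝ) := by
      exact_mod_cast nrm_pos fun h' => hxy ((disp_eq_zero x y).1 h')
    have h3 : (nrm (disp x y) : ℝ) ≤ Pool.Agent.W805.LR.bdist x y := by
      have := Pool.Agent.W805.LR.tdist_le_bdist x y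
      exact_mod_cast this
    refine Real.rpow_le_rpow_of_nonpos (by linarith) h3 ?_
    have : (0 : ℝ) ≤ d := by positivity
    linarith⟩
  have h2 := hL₂ n ((le_max_right _ _).trans hn)
  have hcard := Pool.Agent.W805.LR.card_torus d n
  have hne : Nonempty (Fin d → ZMod n) := ⟨fun _ => 0⟩
  have hN : (0 : ℝ) < Fintype.card (Fin d → ZMod n) := by exact_mod_cast Fintype.card_pos
  have hT0 : ∀ x y : Fin d → ZMod n, 0 ≤ tr J x y := fun x y => tr_nonneg hlam hJ x y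
  have h3 : mn (tr J) t (fun g : Perm (Fin d → ZMod n) =>
      1 - mas (ε * Fintype.card (Fin d → ZMod n)) g) ≤ θ := by
    have e1 : mn (tr J) t (fun g : Perm (Fin d → ZMod n) =>
        1 - mas (ε * Fintype.card (Fin d → ZMod n)) g) =
        (∑ g : Perm (Fin d → ZMod n), law (tr J) t g *
          (cnt fun v : Fin d → ZMod n => len g v < ε * Fintype.card (Fin d → ZMod n))) /
          Fintype.card (Fin d → ZMod n) := by
      unfold mn
      rw [Finset.sum_div]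
      refine Finset.sum_congr rfl fun g _ => ?_
      beta_reduce
      rw [Pool.Agent.TH268.PD.one_sub_mas]
      ring
    rw [e1, div_le_iff₀ hN]
    exact h1
  rw [mn_sub, mn_const hT0 ht0.le] at h3
  have h4 : mn (tr J) t (fun g : Perm (Fin d → ZMod n) =>
      mas (ε * Fintype.card (Fin d → ZMod n)) g) ≤ aa J t K n := by
    unfold aa
    refine mn_mono hT0 ht0.le fun g => Pool.Agent.TH268.PD.mas_anti ?_ g
    rw [hcard]
    exact h2
  linarith

/-- the statement at a fixed time -/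
theorem fixed (hD : Dom) (hU : CmpUp) (hG : Gain) (hGeo : Geo) (hN : Nmt) (hC : Cs d σ C)
    (hd : 1 ≤ d) (hlam : 0 < lam) (hLam : 0 < Lam) (hσ : 0 < σ) (hσ1 : σ < 1)
    (hJ : Cmpr d σ lam Lam J) (t : ℝ) (ht : 0 < t) :
    ∃ (α : ℝ → ℝ) (m : ℝ), 0 ≤ m ∧ m ≤ 1 ∧
      (∀ K, 0 ≤ K → Tendsto (fun L : ℕ => aa J t K (L + 1)) atTop (𝓝 (α K))) ∧
      Tendsto α atTop (𝓝 m) ∧ (∀ K, 0 ≤ K → m ≤ α K) ∧
      (∀ ε : ℝ, 0 < ε → ∃ K₀ δ₀ : ℝ, 1 ≤ K₀ ∧ 0 < δ₀ ∧ ∃ L₀ : ℕ, ∀ (n : ℕ) [NeZero n], L₀ ≤ n →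
        ∀ K : ℝ, K₀ ≤ K → K ≤ δ₀ * (n : ℝ) ^ d →
          mn (tr J : (Fin d → ZMod n) → (Fin d → ZMod n) → ℝ) t (fun g => |mas K g - m|) ≤ ε) ∧
      (∀ (k : ℕ) (f : (Fin k → ℝ) → ℝ), Continuous f → (∃ B, ∀ u, |f u| ≤ B) →
        Tendsto (fun L : ℕ => mn (tr J : (Fin d → ZMod (L + 1)) → (Fin d → ZMod (L + 1)) → ℝ) t
          (fun g => f (fun i => top (frac g) i))) atTop
          (𝓝 (pdm (fun u : Fin k → ℝ => f (fun i => m * u i))))) := by
  obtain ⟨α, m, hm0, hm1, hα, hmα, hαm⟩ := exists_al hGeo hC hlam hLam hσ hJ t ht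
  refine ⟨α, m, hm0, hm1, hα, ?_, hmα, ?_, ?_⟩
  · rw [Metric.tendsto_atTop]
    intro ε hε
    obtain ⟨K₀, hK₀, H⟩ := hαm (ε / 2) (by positivity)
    refine ⟨K₀, fun K hK => ?_⟩
    have h1 := H K hK
    have h2 := hmα K (by linarith)
    rw [Real.dist_eq, abs_of_nonneg (by linarith)]
    linarith
  · intro ε hε
    obtain ⟨K₀, δ₀, h1, h2, L₀, H⟩ := core hD hU hG hGeo hN hC hd hlam hLam hσ hσ1 hJ t ht α m hα hmα
      hαm 0 (fun _ => 0) continuous_const 0 (fun _ => by simp) ε hε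
    exact ⟨K₀, δ₀, h1, h2, L₀, fun n _ hn => (H n hn).1⟩
  · intro k f hfc hfb
    obtain ⟨B, hB⟩ := hfb
    rw [Metric.tendsto_atTop]
    intro η hη
    obtain ⟨Λ, hΛ, hnear⟩ := Pool.Agent.TH268.PD.pdm_near k f hfc B hB (η / 4) (by positivity)
    obtain ⟨K₀, δ₀, h1, h2, L₀, H⟩ := core hD hU hG hGeo hN hC hd hlam hLam hσ hσ1 hJ t ht α m hα hmα
      hαm k f hfc B hB (η / (4 * (Λ + 1))) (by positivity)
    refine ⟨L₀, fun L hL => ?_⟩
    obtain ⟨h3, K, hK1, hK2, h4⟩ := H (L + 1) (by omega)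
    have h5 := h3 K hK1 hK2
    have hT0 : ∀ x y : Fin d → ZMod (L + 1), 0 ≤ tr J x y := fun x y => tr_nonneg hlam hJ x y
    have h6 : |mn (tr J : (Fin d → ZMod (L + 1)) → (Fin d → ZMod (L + 1)) → ℝ) t
        (fun g => pdm (fun u : Fin k → ℝ => f (fun i => mas K g * u i))) -
        pdm (fun u : Fin k → ℝ => f (fun i => m * u i))| ≤ η / 4 + Λ * (η / (4 * (Λ + 1))) := by
      have e1 : mn (tr J : (Fin d → ZMod (L + 1)) → (Fin d → ZMod (L + 1)) → ℝ) t
          (fun g => pdm (fun u : Fin k → ℝ => f (fun i => mas K g * u i))) -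
          pdm (fun u : Fin k → ℝ => f (fun i => m * u i)) =
          mn (tr J : (Fin d → ZMod (L + 1)) → (Fin d → ZMod (L + 1)) → ℝ) t
          (fun g => pdm (fun u : Fin k → ℝ => f (fun i => mas K g * u i)) -
            pdm (fun u : Fin k → ℝ => f (fun i => m * u i))) := by
        rw [mn_sub, mn_const hT0 ht.le]
      rw [e1]
      refine (mn_abs hT0 ht.le _).trans ?_
      have h7 : ∀ g : Perm (Fin d → ZMod (L + 1)),
          |pdm (fun u : Fin k → ℝ => f (fun i => mas K g * u i)) -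
            pdm (fun u : Fin k → ℝ => f (fun i => m * u i))| ≤ η / 4 + Λ * |mas K g - m| :=
        fun g => hnear (mas K g) m (Pool.Agent.TH268.PD.mas_nonneg _ _)
          (Pool.Agent.TH268.PD.mas_le_one _ _) hm0 hm1
      refine (mn_mono hT0 ht.le h7).trans ?_
      rw [mn_add, mn_const hT0 ht.le]
      refine add_le_add le_rfl ?_
      have e2 : mn (tr J : (Fin d → ZMod (L + 1)) → (Fin d → ZMod (L + 1)) → ℝ) t
          (fun g => Λ * |mas K g - m|) = Λ * mn (tr J) t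
            (fun g : Perm (Fin d → ZMod (L + 1)) => |mas K g - m|) := by
        unfold mn
        rw [Finset.mul_sum]
        exact Finset.sum_congr rfl fun g _ => by ring
      rw [e2]
      exact mul_le_mul_of_nonneg_left h5 hΛ
    have h7 : (Λ + 1) * (η / (4 * (Λ + 1))) = η / 4 := by field_simp
    have h8 : 0 < η / (4 * (Λ + 1)) := by positivity
    have h9 := abs_sub_le (mn (tr J : (Fin d → ZMod (L + 1)) → (Fin d → ZMod (L + 1)) → ℝ) t
      (fun g => f (fun i => top (frac g) i)))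
      (mn (tr J : (Fin d → ZMod (L + 1)) → (Fin d → ZMod (L + 1)) → ℝ) t
        (fun g => pdm (fun u : Fin k → ℝ => f (fun i => mas K g * u i))))
      (pdm (fun u : Fin k → ℝ => f (fun i => m * u i)))
    rw [Real.dist_eq]
    nlinarith

/-- **All times.** -/
theorem all_times (hD : Dom) (hU : CmpUp) (hG : Gain) (hGeo : Geo) (hN : Nmt) (hNS : NearSum)
    (hFS : FarSum) (hd : 1 ≤ d) (hlam : 0 < lam) (hLam : 0 < Lam) (hσ : 0 < σ) (hσ1 : σ < 1)
    (hJ : Cmpr d σ lam Lam J) :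
    ∃ m : ℝ → ℝ, (∀ t, 0 < t → 0 ≤ m t ∧ m t ≤ 1 ∧
      (∃ α : ℝ → ℝ,
        (∀ K, 0 ≤ K → Tendsto (fun L : ℕ => aa J t K (L + 1)) atTop (𝓝 (α K))) ∧
        Tendsto α atTop (𝓝 (m t))) ∧
      (∀ ε : ℝ, 0 < ε → ∃ K₀ δ₀ : ℝ, 1 ≤ K₀ ∧ 0 < δ₀ ∧ ∃ L₀ : ℕ, ∀ (n : ℕ) [NeZero n], L₀ ≤ n →
        ∀ K : ℝ, K₀ ≤ K → K ≤ δ₀ * (n : ℝ) ^ d →
          mn (tr J : (Fin d → ZMod n) → (Fin d → ZMod n) → ℝ) t (fun g => |mas K g - m t|) ≤ ε) ∧
      (∀ (k : ℕ) (f : (Fin k → ℝ) → ℝ), Continuous f → (∃ B, ∀ u, |f u| ≤ B) →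
        Tendsto (fun L : ℕ => mn (tr J : (Fin d → ZMod (L + 1)) → (Fin d → ZMod (L + 1)) → ℝ) t
          (fun g => f (fun i => top (frac g) i))) atTop
          (𝓝 (pdm (fun u : Fin k → ℝ => f (fun i => m t * u i)))))) ∧
      (∀ S t : ℝ, (∀ s : Finset (Fin d → ℤ), 0 ∉ s → ∑ z ∈ s, J z ≤ S) → 0 < t → t * S < 1 →
        m t = 0) ∧
      Tendsto m atTop (𝓝 1) := by
  obtain ⟨C, hC⟩ := exists_Cs hNS hFS d σ hd hσ hσ1
  have hd1 : (1 : ℝ) ≤ d := by exact_mod_cast hd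
  have h0 : ∀ t : ℝ, ∃ m : ℝ, 0 < t → 0 ≤ m ∧ m ≤ 1 ∧
      (∃ α : ℝ → ℝ,
        (∀ K, 0 ≤ K → Tendsto (fun L : ℕ => aa J t K (L + 1)) atTop (𝓝 (α K))) ∧
        Tendsto α atTop (𝓝 m) ∧ (∀ K, 0 ≤ K → m ≤ α K)) ∧
      (∀ ε : ℝ, 0 < ε → ∃ K₀ δ₀ : ℝ, 1 ≤ K₀ ∧ 0 < δ₀ ∧ ∃ L₀ : ℕ, ∀ (n : ℕ) [NeZero n], L₀ ≤ n →
        ∀ K : ℝ, K₀ ≤ K → K ≤ δ₀ * (n : ℝ) ^ d →
          mn (tr J : (Fin d → ZMod n) → (Fin d → ZMod n) → ℝ) t (fun g => |mas K g - m|) ≤ ε) ∧
      (∀ (k : ℕ) (f : (Fin k → ℝ) → ℝ), Continuous f → (∃ B, ∀ u, |f u| ≤ B) →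
        Tendsto (fun L : ℕ => mn (tr J : (Fin d → ZMod (L + 1)) → (Fin d → ZMod (L + 1)) → ℝ) t
          (fun g => f (fun i => top (frac g) i))) atTop
          (𝓝 (pdm (fun u : Fin k → ℝ => f (fun i => m * u i))))) := by
    intro t
    by_cases ht : 0 < t
    · obtain ⟨α, m, h1, h2, h3, h4, h5, h6, h7⟩ := fixed hD hU hG hGeo hN hC hd hlam hLam hσ hσ1 hJ t
        ht
      exact ⟨m, fun _ => ⟨h1, h2, ⟨α, h3, h4, h5⟩, h6, h7⟩⟩
    · exact ⟨0, fun h => absurd h ht⟩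
  choose m hm using h0
  refine ⟨m, fun t ht => ?_, ?_, ?_⟩
  · obtain ⟨h1, h2, ⟨α, h3, h4, h5⟩, h6, h7⟩ := hm t ht
    exact ⟨h1, h2, ⟨α, h3, h4⟩, h6, h7⟩
  · intro S t hS ht hq
    obtain ⟨h1, h2, ⟨α, h3, h4, h5⟩, -, -⟩ := hm t ht
    refine le_antisymm ?_ h1
    have hq0 : 0 < 1 - t * S := by linarith
    have h6 : ∀ K : ℝ, 0 < K → m t ≤ 1 / (1 - t * S) / K := fun K hK =>
      (h5 K hK.le).trans (le_of_tendsto' (h3 K hK.le) fun L =>
        small_aa hlam hJ S hS t ht hq K hK (L + 1))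
    have h7 : Tendsto (fun K : ℝ => 1 / (1 - t * S) / K) atTop (𝓝 0) :=
      Tendsto.div_atTop tendsto_const_nhds tendsto_id
    exact ge_of_tendsto h7 (Filter.eventually_atTop.2 ⟨1, fun K hK => h6 K (by linarith)⟩)
  · rw [Metric.tendsto_atTop]
    intro θ hθ
    obtain ⟨t₁, ht₁, H⟩ := large_aa (Lam := Lam) hd hlam hσ (by linarith) hJ (θ / 2) (by positivity)
    refine ⟨t₁, fun t ht => ?_⟩
    have ht0 : 0 < t := lt_of_lt_of_le ht₁ ht
    obtain ⟨h1, h2, ⟨α, h3, h4, h5⟩, -, -⟩ := hm t ht0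
    have h6 : ∀ K : ℝ, 0 ≤ K → 1 - θ / 2 ≤ α K := by
      intro K hK
      obtain ⟨L₀, hL₀⟩ := H t ht K
      exact ge_of_tendsto (h3 K hK) (Filter.eventually_atTop.2 ⟨L₀, fun L hL =>
        hL₀ (L + 1) (by omega)⟩)
    have h7 : 1 - θ / 2 ≤ m t :=
      ge_of_tendsto h4 (Filter.eventually_atTop.2 ⟨0, fun K hK => h6 K hK⟩)
    rw [Real.dist_eq, abs_sub_comm, abs_of_nonneg (by linarith)]
    linarith

end

end Pool.Agent.N795.ST
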