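import Pool.Agent.N795.ST.Lim

/-!
# No cycles of length between `A L ^ σ` and `A' L ^ ((d + σ) / 2)`
-/

set_option autoImplicit false

namespace Pool.Agent.N795.ST

open Finset Equiv Filter Topology
open Pool.Agent.W805.LR (len cnt)
open Pool.Agent.TH268.PD (law mas TT BD)

theorem nrm_le {d M : ℕ} [NeZero M] (x y : Fin d → ZMod M) : nrm (disp x y) ≤ M := by
  unfold nrm disp
  refine Finset.sup_le fun i _ => ?_
  exact (ZMod.natAbs_valMinAbs_le _).trans (Nat.div_le_self _ _)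

section

variable {V : Type} [Fintype V] [DecidableEq V]

theorem win_dyadic (k : ℝ) (n : ℕ) (g : Perm V) :
    win k (k * 2 ^ n) g = ∑ j ∈ range n, win (k * 2 ^ j) (2 * (k * 2 ^ j)) g := by
  induction n with
  | zero => simp [win]
  | succ n ih =>
    rw [Finset.sum_range_succ, ← ih]
    unfold win
    rw [show k * 2 ^ (n + 1) = 2 * (k * 2 ^ n) by ring]
    ring

theorem win_mono_right {K K' K'' : ℝ} (h : K' ≤ K'') (g : Perm V) : win K K' g ≤ win K K'' g := by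
  unfold win
  linarith [Pool.Agent.TH268.PD.mas_anti h g]

theorem mn_sum (J : V → V → ℝ) (t : ℝ) (n : ℕ) (F : ℕ → Perm V → ℝ) :
    mn J t (fun g => ∑ j ∈ range n, F j g) = ∑ j ∈ range n, mn J t (F j) := by
  unfold mn
  rw [Finset.sum_comm]
  refine Finset.sum_congr rfl fun g _ => ?_
  rw [Finset.mul_sum]

end

theorem sqrt_two_lt : Real.sqrt 2 < 3 / 2 := by
  rw [Real.sqrt_lt' (by norm_num)]
  norm_num

/-- geometric series -/
theorem geo_half (n : ℕ) : ∑ j ∈ range n, 1 / Real.sqrt ((2 : ℝ) ^ j) ≤ 4 := by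
  obtain ⟨q, hq⟩ : ∃ q : ℝ, q = 1 / Real.sqrt 2 := ⟨_, rfl⟩
  have hs : 0 < Real.sqrt 2 := Real.sqrt_pos.2 (by norm_num)
  have hq0 : 0 ≤ q := by rw [hq]; positivity
  have hq1 : q ≤ 3 / 4 := by
    rw [hq, div_le_iff₀ hs]
    have h1 : Real.sqrt 2 * Real.sqrt 2 = 2 := Real.mul_self_sqrt (by norm_num)
    nlinarith
  have h1 : ∀ j : ℕ, 1 / Real.sqrt ((2 : ℝ) ^ j) = q ^ j := by
    intro j
    rw [hq, one_div_pow]
    congr 1
    induction j with
    | zero => simp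
    | succ j ih =>
      rw [pow_succ, Real.sqrt_mul (by positivity), ih, pow_succ]
  rw [Finset.sum_congr rfl fun j _ => h1 j]
  have h2 : ∑ j ∈ range n, q ^ j ≤ ∑ j ∈ range n, (3 / 4 : ℝ) ^ j :=
    Finset.sum_le_sum fun j _ => pow_le_pow_left₀ hq0 hq1 j
  refine h2.trans ?_
  rw [geom_sum_eq (by norm_num)]
  have h3 : (0 : ℝ) ≤ (3 / 4) ^ n := by positivity
  rw [div_le_iff_of_neg (by norm_num)]
  linarith

theorem geo_four (n : ℕ) : ∑ j ∈ range n, (4 : ℝ) ^ j ≤ 4 ^ n / 3 := by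
  rw [geom_sum_eq (by norm_num)]
  have : (0 : ℝ) ≤ 4 ^ n := by positivity
  linarith

/-- **No cycles of length between `A L ^ σ` and `A' L ^ ((d + σ) / 2)`.** -/
theorem mid (hN : Nmt) {d : ℕ} {σ lam Lam : ℝ} {J : (Fin d → ℤ) → ℝ} (hlam : 0 < lam)
    (hσ : 0 < σ) (hJ : Cmpr d σ lam Lam J) (t : ℝ)
    (ht : 0 < t) (A' : ℝ) (hA' : 0 < A') (ε : ℝ) (hε : 0 < ε) :
    ∃ A : ℝ, 0 < A ∧ ∀ (n : ℕ) [NeZero n],
      mn (tr J : (Fin d → ZMod n) → (Fin d → ZMod n) → ℝ) t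
        (win (A * (n : ℝ) ^ σ) (A' * (n : ℝ) ^ (((d : ℝ) + σ) / 2))) ≤ ε := by
  obtain ⟨C, hC, hN⟩ := hN
  obtain ⟨ζ, hζ⟩ : ∃ ζ : ℝ, ζ = min 1 (3 * ε / (8 * C * t * lam * A' ^ 2)) := ⟨_, rfl⟩
  have hζ0 : 0 < ζ := by rw [hζ]; exact lt_min one_pos (by positivity)
  have hζ1 : ζ ≤ 1 := by rw [hζ]; exact min_le_left _ _
  have hζ2 : C * (4 / 3 * (t * ζ * lam * A' ^ 2)) ≤ ε / 2 := by
    have h1 : ζ ≤ 3 * ε / (8 * C * t * lam * A' ^ 2) := by rw [hζ]; exact min_le_right _ _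
    rw [le_div_iff₀ (by positivity)] at h1
    nlinarith
  obtain ⟨A, hA⟩ : ∃ A : ℝ, A = (8 * C / ε) ^ 2 / (t * ζ * lam) := ⟨_, rfl⟩
  have hA0 : 0 < A := by rw [hA]; positivity
  have hA1 : C * (4 / Real.sqrt (t * ζ * lam * A)) ≤ ε / 2 := by
    have h1 : t * ζ * lam * A = (8 * C / ε) ^ 2 := by
      rw [hA]; field_simp
    rw [h1, Real.sqrt_sq (by positivity)]
    refine le_of_eq ?_
    field_simp
    ring
  refine ⟨A, hA0, fun n _ => ?_⟩
  have hn0 : (0 : ℝ) < n := by exact_mod_cast Nat.pos_of_ne_zero (NeZero.ne n)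
  have hn1 : (1 : ℝ) ≤ n := by exact_mod_cast Nat.pos_of_ne_zero (NeZero.ne n)
  obtain ⟨k, hk⟩ : ∃ k : ℝ, k = A * (n : ℝ) ^ σ := ⟨_, rfl⟩
  obtain ⟨K', hK'⟩ : ∃ K' : ℝ, K' = A' * (n : ℝ) ^ (((d : ℝ) + σ) / 2) := ⟨_, rfl⟩
  have hk0 : 0 < k := by rw [hk]; positivity
  have hK'0 : 0 < K' := by rw [hK']; positivity
  rw [← hk, ← hK']
  have hJ0 : ∀ x y : Fin d → ZMod n, 0 ≤ tr J x y := fun x y => tr_nonneg hlam hJ x y
  by_cases hcase : K' ≤ k
  · refine (mn_le_const hJ0 ht.le 0 fun g => ?_).trans hε.le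
    unfold win
    linarith [Pool.Agent.TH268.PD.mas_anti hcase g]
  rw [not_le] at hcase
  -- number of dyadic steps
  obtain ⟨I, hI1, hI2⟩ : ∃ I : ℕ, K' ≤ k * 2 ^ I ∧ k * 2 ^ I ≤ 2 * K' := by
    have h1 : ∃ I : ℕ, K' ≤ k * 2 ^ I := by
      obtain ⟨I, hI⟩ := pow_unbounded_of_one_lt (K' / k) (show (1 : ℝ) < 2 by norm_num)
      refine ⟨I, ?_⟩
      rw [div_lt_iff₀ hk0] at hI
      linarith
    classical
    refine ⟨Nat.find h1, Nat.find_spec h1, ?_⟩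
    obtain ⟨i, hi⟩ : ∃ i, i = Nat.find h1 := ⟨_, rfl⟩
    rw [← hi]
    rcases Nat.eq_zero_or_pos i with h0 | h0
    · rw [h0, pow_zero, mul_one]
      linarith
    · have h2 := Nat.find_min h1 (show i - 1 < Nat.find h1 by rw [← hi]; omega)
      rw [not_le] at h2
      have h3 : (2 : ℝ) ^ i = 2 * 2 ^ (i - 1) := by
        rw [← pow_succ']
        congr 1
        omega
      rw [h3]
      linarith
  -- splitting off a mean field part
  obtain ⟨N, hNdef⟩ : ∃ N : ℝ, N = Fintype.card (Fin d → ZMod n) := ⟨_, rfl⟩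
  have hcard : N = (n : ℝ) ^ (d : ℝ) := by
    rw [hNdef, Real.rpow_natCast]
    exact Pool.Agent.W805.LR.card_torus d n
  have hNpos : 0 < N := by rw [hcard]; positivity
  obtain ⟨c, hc⟩ : ∃ c : ℝ, c = ζ * lam * (n : ℝ) ^ (-σ) := ⟨_, rfl⟩
  have hc0 : 0 < c := by rw [hc]; positivity
  have hcN : c / N = ζ * lam * (n : ℝ) ^ (-((d : ℝ) + σ)) := by
    rw [hc, hcard, div_eq_mul_inv, ← Real.rpow_neg hn0.le, mul_assoc, ← Real.rpow_add hn0]
    congr 2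
    ring
  obtain ⟨J₀, hJ₀⟩ : ∃ J₀ : (Fin d → ZMod n) → (Fin d → ZMod n) → ℝ,
    J₀ = fun x y => tr J x y - if x ≠ y then c / N else 0 := ⟨_, rfl⟩
  have hJ₀0 : ∀ x y, 0 ≤ J₀ x y := by
    intro x y
    rw [hJ₀]
    beta_reduce
    by_cases hxy : x = y
    · rw [if_neg (fun h => h hxy), sub_zero]
      exact hJ0 x y
    · rw [if_pos hxy, sub_nonneg, hcN]
      refine le_trans ?_ (le_tr hJ hxy)
      have h1 : (nrm (disp x y) : ℝ) ≤ n := by exact_mod_cast nrm_le x y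
      have h2 : (1 : ℝ) ≤ nrm (disp x y) := by
        exact_mod_cast nrm_pos (fun h => hxy ((disp_eq_zero x y).1 h))
      have h3 : (n : ℝ) ^ (-((d : ℝ) + σ)) ≤ (nrm (disp x y) : ℝ) ^ (-((d : ℝ) + σ)) :=
        Real.rpow_le_rpow_of_nonpos (by linarith) h1 (by
          have : (0 : ℝ) ≤ d := Nat.cast_nonneg d
          linarith)
      have h4 : ζ * lam ≤ lam := by nlinarith
      have h5 : (0 : ℝ) ≤ (n : ℝ) ^ (-((d : ℝ) + σ)) := by positivity
      exact mul_le_mul h4 h3 h5 hlam.le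
  have hJeq : (fun x y => J₀ x y + if x ≠ y then c / (Fintype.card (Fin d → ZMod n) : ℝ) else 0) =
      tr J := by
    funext x y
    rw [hJ₀, ← hNdef]
    ring
  have hwin : ∀ j : ℕ, mn (tr J : (Fin d → ZMod n) → (Fin d → ZMod n) → ℝ) t
      (win (k * 2 ^ j) (2 * (k * 2 ^ j))) ≤
      C * (1 / Real.sqrt (t * ζ * lam * A) * (1 / Real.sqrt ((2 : ℝ) ^ j)) +
        t * c * k ^ 2 / N * 4 ^ j) := by
    intro j
    have h1 := hN (Fin d → ZMod n) J₀ c t (k * 2 ^ j) hJ₀0 hc0 ht (by positivity)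
    rw [hJeq, ← hNdef] at h1
    refine h1.trans (le_of_eq ?_)
    congr 1
    have e1 : t * c * (k * 2 ^ j) = (t * ζ * lam * A) * 2 ^ j := by
      rw [hc, hk]
      have e2 : (n : ℝ) ^ (-σ) * (n : ℝ) ^ σ = 1 := by
        rw [← Real.rpow_add hn0, neg_add_cancel, Real.rpow_zero]
      calc t * (ζ * lam * (n : ℝ) ^ (-σ)) * (A * (n : ℝ) ^ σ * 2 ^ j)
          = t * ζ * lam * A * 2 ^ j * ((n : ℝ) ^ (-σ) * (n : ℝ) ^ σ) := by ring
        _ = _ := by rw [e2, mul_one]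
    rw [e1, Real.sqrt_mul (by positivity), one_div_mul_one_div]
    congr 1
    rw [mul_pow, ← pow_mul, mul_comm j 2, pow_mul]
    norm_num
    ring
  have h1 : mn (tr J : (Fin d → ZMod n) → (Fin d → ZMod n) → ℝ) t (win k K') ≤
      ∑ j ∈ range I, mn (tr J : (Fin d → ZMod n) → (Fin d → ZMod n) → ℝ) t
        (win (k * 2 ^ j) (2 * (k * 2 ^ j))) := by
    rw [← mn_sum]
    refine mn_mono hJ0 ht.le fun g => ?_
    rw [← win_dyadic]
    exact win_mono_right hI1 g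
  refine h1.trans ?_
  refine (Finset.sum_le_sum fun j _ => hwin j).trans ?_
  rw [← Finset.mul_sum, Finset.sum_add_distrib, ← Finset.mul_sum, ← Finset.mul_sum, mul_add]
  have h2 : C * (1 / Real.sqrt (t * ζ * lam * A) * ∑ j ∈ range I, 1 / Real.sqrt ((2 : ℝ) ^ j)) ≤
      ε / 2 := by
    refine le_trans ?_ hA1
    refine mul_le_mul_of_nonneg_left ?_ hC.le
    rw [div_eq_mul_one_div 4, mul_comm (4 : ℝ)]
    exact mul_le_mul_of_nonneg_left (geo_half I) (by positivity)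
  have h3 : C * (t * c * k ^ 2 / N * ∑ j ∈ range I, (4 : ℝ) ^ j) ≤ ε / 2 := by
    refine le_trans ?_ hζ2
    refine mul_le_mul_of_nonneg_left ?_ hC.le
    refine (mul_le_mul_of_nonneg_left (geo_four I) (by positivity)).trans ?_
    have e1 : (4 : ℝ) ^ I = (2 ^ I) ^ 2 := by
      rw [← pow_mul, mul_comm I 2, pow_mul]
      norm_num
    have e2 : t * c * k ^ 2 / N * (4 ^ I / 3) = t * c / (3 * N) * (k * 2 ^ I) ^ 2 := by
      rw [e1]
      field_simp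
    rw [e2]
    have h4 : (k * 2 ^ I) ^ 2 ≤ (2 * K') ^ 2 := pow_le_pow_left₀ (by positivity) hI2 2
    refine (mul_le_mul_of_nonneg_left h4 (by positivity)).trans (le_of_eq ?_)
    have e3 : K' ^ 2 = A' ^ 2 * (n : ℝ) ^ ((d : ℝ) + σ) := by
      rw [hK', mul_pow]
      congr 1
      rw [← Real.rpow_natCast, ← Real.rpow_mul hn0.le]
      congr 1
      push_cast
      ring
    have e4 : (n : ℝ) ^ ((d : ℝ) + σ) = N * (n : ℝ) ^ σ := by
      rw [hcard, ← Real.rpow_add hn0]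
    have e5 : (n : ℝ) ^ (-σ) * (n : ℝ) ^ σ = 1 := by
      rw [← Real.rpow_add hn0, neg_add_cancel, Real.rpow_zero]
    calc t * c / (3 * N) * (2 * K') ^ 2 = t * c / (3 * N) * (4 * K' ^ 2) := by ring
      _ = t * (ζ * lam * (n : ℝ) ^ (-σ)) / (3 * N) * (4 * (A' ^ 2 * (N * (n : ℝ) ^ σ))) := by
          rw [e3, e4, hc]
      _ = 4 / 3 * (t * ζ * lam * A' ^ 2) * ((n : ℝ) ^ (-σ) * (n : ℝ) ^ σ) * (N / N) := by ring
      _ = 4 / 3 * (t * ζ * lam * A' ^ 2) := by rw [e5, div_self hNpos.ne', mul_one, mul_one]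
  linarith

end Pool.Agent.N795.ST
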