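import Pool.Agent.N795.ST.Mid2
import Pool.Agent.N795.ST.Fin
import Pool.Agent.N130.STNearFar

/-!
# Stirring with a weak mean field part: the base rates
-/

set_option autoImplicit false

namespace Pool.Agent.N795.ST

open Finset Equiv Filter Topology
open Pool.Agent.W805.LR (len cnt)
open Pool.Agent.TH268.PD (law mas TT BD top frac pdm)
open Pool.Agent.TH268.PD.LocC (E)
open Pool.Agent.N795.ST.N130NF (dz dz_inj dz_zero card_core bcore_self nrm_eq_zero)

/-- rates with a finite first moment -/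
structure FM (d : ℕ) (J : (Fin d → ℤ) → ℝ) (Mo : ℝ) : Prop where
  nonneg : ∀ z, z ≠ 0 → 0 ≤ J z
  mom : ∀ s : Finset (Fin d → ℤ), 0 ∉ s → ∑ z ∈ s, (nrm z : ℝ) * J z ≤ Mo

section

variable {d : ℕ} {Mo : ℝ} {J : (Fin d → ℤ) → ℝ}

theorem FM.Mo_nonneg (h : FM d J Mo) : 0 ≤ Mo := by
  have := h.mom ∅ (by simp)
  simpa using this

theorem FM.sum_le (h : FM d J Mo) (s : Finset (Fin d → ℤ)) (hs : 0 ∉ s) : ∑ z ∈ s, J z ≤ Mo := by
  refine le_trans (Finset.sum_le_sum fun z hz => ?_) (h.mom s hs)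
  have hz0 : z ≠ 0 := fun h' => hs (h' ▸ hz)
  have h1 : (1 : ℝ) ≤ nrm z := by exact_mod_cast nrm_pos hz0
  have h2 := h.nonneg z hz0
  nlinarith

theorem FM.tr_nonneg (h : FM d J Mo) {M : ℕ} (x y : Fin d → ZMod M) : 0 ≤ tr J x y := by
  unfold tr
  split_ifs with hxy
  · exact le_rfl
  · have h1 := h.nonneg (disp x y) (fun h' => hxy ((disp_eq_zero x y).1 h'))
    have h2 := h.nonneg (disp y x) (fun h' => hxy ((disp_eq_zero y x).1 h').symm)
    linarith

theorem FM.row (h : FM d J Mo) (n : ℕ) [NeZero n] (x : Fin d → ZMod n) :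
    ∑ y, tr J x y ≤ Mo := row_le Mo h.sum_le n x

theorem FM.cor_nonneg (h : FM d J Mo) {M : ℕ} (n : ℕ) (x y : Fin d → ZMod M) :
    0 ≤ cor J n x y := by
  unfold cor
  split_ifs
  · exact h.tr_nonneg x y
  · exact le_rfl

/-- one direction of the rates between different boxes -/
theorem FM.bad_one (h : FM d J Mo) (hd : 1 ≤ d) (M n : ℕ) [NeZero M] [NeZero n] (hn : n ∣ M) :
    ∑ x : Fin d → ZMod M, ∑ y, (open Classical in
      if ¬ bcore n x y then (if x = y then 0 else J (disp x y)) else 0) ≤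
      2 * d * (Fintype.card (Fin d → ZMod M) : ℝ) * Mo / n := by
  classical
  have hn0 : (0 : ℝ) < n := by exact_mod_cast Nat.pos_of_ne_zero (NeZero.ne n)
  have hd1 : (1 : ℝ) ≤ d := by exact_mod_cast hd
  obtain ⟨N, hN⟩ : ∃ N : ℝ, N = Fintype.card (Fin d → ZMod M) := ⟨_, rfl⟩
  have hN0 : 0 ≤ N := by rw [hN]; positivity
  -- change of variables
  have e1 : ∑ x : Fin d → ZMod M, ∑ y, (if ¬ bcore n x y then
      (if x = y then 0 else J (disp x y)) else 0) =
      ∑ e : Fin d → ZMod M, ∑ x : Fin d → ZMod M, (if ¬ bcore n x (x - e) then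
        (if e = 0 then 0 else J (dz e)) else 0) := by
    rw [Finset.sum_comm (γ := Fin d → ZMod M)
      (f := fun e x => if ¬ bcore n x (x - e) then (if e = 0 then 0 else J (dz e)) else 0)]
    refine Finset.sum_congr rfl fun x _ => ?_
    rw [← Equiv.sum_comp (Equiv.subLeft x)]
    refine Finset.sum_congr rfl fun e _ => ?_
    have q1 : (Equiv.subLeft x) e = x - e := rfl
    rw [q1, N130NF.disp_eq, sub_sub_cancel]
    have q2 : x = x - e ↔ e = 0 := by
      constructor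
      · intro h'
        have : x - (x - e) = x - x := by rw [← h']
        rwa [sub_sub_cancel, sub_self] at this
      · rintro rfl
        rw [sub_zero]
    by_cases he : e = 0
    · rw [if_pos (q2.2 he), if_pos he]
    · rw [if_neg (fun h' => he (q2.1 h')), if_neg he]
  rw [e1]
  have h1 : ∀ e : Fin d → ZMod M, ∑ x : Fin d → ZMod M, (if ¬ bcore n x (x - e) then
        (if e = 0 then 0 else J (dz e)) else 0) ≤
      (2 * d * N / n) * (if e = 0 then 0 else (nrm (dz e) : ℝ) * J (dz e)) := by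
    intro e
    by_cases he : e = 0
    · rw [if_pos he, if_pos he, mul_zero]
      refine le_of_eq (Finset.sum_eq_zero fun x _ => ?_)
      split_ifs <;> rfl
    · have hdz : dz e ≠ 0 := fun h' => he (dz_inj (h'.trans dz_zero.symm))
      have hJ0 := h.nonneg (dz e) hdz
      have hnr : (1 : ℝ) ≤ nrm (dz e) := by exact_mod_cast nrm_pos hdz
      rw [if_neg he, if_neg he, ← Finset.sum_filter, Finset.sum_const, nsmul_eq_mul]
      have h2 : (n : ℝ) * ((univ.filter fun x : Fin d → ZMod M => ¬ bcore n x (x - e)).card : ℝ) ≤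
          2 * d * N * nrm (dz e) := by
        by_cases h3 : 2 * nrm (dz e) < n
        · have h4 := card_core hd hn e h3 (fun x => ¬ bcore n x (x - e)) (fun x hx => hx)
          have h5 : (n : ℝ) * ((univ.filter fun x : Fin d → ZMod M =>
              ¬ bcore n x (x - e)).card : ℝ) ≤ N * (d * nrm (dz e)) := by
            rw [hN]
            exact_mod_cast h4
          refine h5.trans ?_
          have h6 : 0 ≤ N * (d * nrm (dz e)) := by positivity
          linarith
        · rw [not_lt] at h3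
          have h4 : (n : ℝ) ≤ 2 * nrm (dz e) := by exact_mod_cast h3
          have h5 : ((univ.filter fun x : Fin d → ZMod M => ¬ bcore n x (x - e)).card : ℝ) ≤
              N := by
            rw [hN]
            exact_mod_cast Finset.card_le_univ _
          calc (n : ℝ) * ((univ.filter fun x : Fin d → ZMod M =>
                ¬ bcore n x (x - e)).card : ℝ) ≤ (2 * nrm (dz e)) * N :=
                mul_le_mul h4 h5 (by positivity) (by positivity)
            _ ≤ 2 * d * N * nrm (dz e) := by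
                have h6 : 0 ≤ 2 * N * nrm (dz e) := by positivity
                nlinarith
      have h3 : (2 * d * N / n) * ((nrm (dz e) : ℝ) * J (dz e)) =
          (2 * d * N * nrm (dz e)) / n * J (dz e) := by ring
      rw [h3]
      refine mul_le_mul_of_nonneg_right ?_ hJ0
      rw [le_div_iff₀ hn0]
      linarith
  refine (Finset.sum_le_sum fun e _ => h1 e).trans ?_
  rw [← Finset.mul_sum]
  have h2 : ∑ e : Fin d → ZMod M, (if e = 0 then 0 else (nrm (dz e) : ℝ) * J (dz e)) ≤ Mo := by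
    have h3 := h.mom ((univ.filter fun e : Fin d → ZMod M => e ≠ 0).image dz) (by
      rw [Finset.mem_image]
      rintro ⟨e, he, he'⟩
      exact (Finset.mem_filter.1 he).2 (dz_inj (he'.trans dz_zero.symm)))
    rw [Finset.sum_image fun y _ y' _ h' => dz_inj h', Finset.sum_filter] at h3
    refine le_trans (le_of_eq (Finset.sum_congr rfl fun e _ => ?_)) h3
    by_cases he : e = 0
    · rw [if_pos he, if_neg (fun h' => h' he)]
    · rw [if_neg he, if_pos he]
  refine (mul_le_mul_of_nonneg_left h2 (by positivity)).trans (le_of_eq ?_)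
  rw [hN]
  ring

/-- the rates between different boxes -/
theorem FM.bad (h : FM d J Mo) (hd : 1 ≤ d) (M n : ℕ) [NeZero M] [NeZero n] (hn : n ∣ M) :
    ∑ x : Fin d → ZMod M, ∑ y, |tr J x y - cor J n x y| / 2 ≤
      d * (Fintype.card (Fin d → ZMod M) : ℝ) * Mo / n := by
  classical
  have h1 := h.bad_one hd M n hn
  obtain ⟨D, hD⟩ : ∃ D : (Fin d → ZMod M) → (Fin d → ZMod M) → ℝ, D = fun x y =>
    if ¬ bcore n x y then (if x = y then 0 else J (disp x y)) else 0 := ⟨_, rfl⟩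
  have e1 : ∀ x y : Fin d → ZMod M, |tr J x y - cor J n x y| / 2 = (D x y + D y x) / 4 := by
    intro x y
    rw [hD]
    beta_reduce
    unfold cor
    by_cases hb : bcore n x y
    · rw [if_pos hb, sub_self, abs_zero, if_neg (fun h' => h' hb),
        if_neg (fun h' => h' (bcore_symm hb))]
      ring
    · have hb' : ¬ bcore n y x := fun h' => hb (bcore_symm h')
      rw [if_neg hb, sub_zero, abs_of_nonneg (h.tr_nonneg x y), if_pos hb, if_pos hb']
      unfold tr
      by_cases hxy : x = y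
      · rw [if_pos hxy, if_pos hxy, if_pos hxy.symm]
        ring
      · rw [if_neg hxy, if_neg hxy, if_neg (Ne.symm hxy)]
        ring
  have e2 : ∑ x : Fin d → ZMod M, ∑ y, |tr J x y - cor J n x y| / 2 =
      (∑ x, ∑ y, D x y) / 2 := by
    have e3 : ∑ x : Fin d → ZMod M, ∑ y, D y x = ∑ x, ∑ y, D x y := Finset.sum_comm
    have e4 : ∑ x : Fin d → ZMod M, ∑ y, |tr J x y - cor J n x y| / 2 =
        (∑ x, ∑ y, D x y + ∑ x, ∑ y, D y x) / 4 := by
      rw [← Finset.sum_add_distrib, Finset.sum_div]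
      refine Finset.sum_congr rfl fun x _ => ?_
      rw [← Finset.sum_add_distrib, Finset.sum_div]
      exact Finset.sum_congr rfl fun y _ => e1 x y
    rw [e4, e3]
    ring
  rw [e2]
  have h2 : ∑ x, ∑ y, D x y ≤ 2 * d * (Fintype.card (Fin d → ZMod M) : ℝ) * Mo / n := by
    rw [hD]
    exact h1
  have h3 : (2 * d * (Fintype.card (Fin d → ZMod M) : ℝ) * Mo / n) / 2 =
      d * (Fintype.card (Fin d → ZMod M) : ℝ) * Mo / n := by ring
  rw [← h3]
  exact div_le_div_of_nonneg_right h2 two_pos.le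

/-- comparison of the torus of side `m n` with the torus of side `n` -/
theorem FM.step (h : FM d J Mo) (hGeo : Geo) (hd : 1 ≤ d) (t : ℝ) (ht : 0 < t) (m n : ℕ)
    [NeZero m] [NeZero n] [NeZero (m * n)] (K : ℝ) (hK : 0 ≤ K) :
    |aa J t K (m * n) - aa J t K n| ≤ 4 * t * d * Mo * K / n := by
  have hn0 : (0 : ℝ) < n := by exact_mod_cast Nat.pos_of_ne_zero (NeZero.ne n)
  have hcn : ∀ (M : ℕ) [NeZero M], n ∣ M →
      |mn (tr J : (Fin d → ZMod M) → (Fin d → ZMod M) → ℝ) t (mas K) -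
        mn (cor J n : (Fin d → ZMod M) → (Fin d → ZMod M) → ℝ) t (mas K)| ≤
        2 * t * d * Mo * K / n := by
    intro M _ hM
    have hN : (0 : ℝ) < Fintype.card (Fin d → ZMod M) := by exact_mod_cast Fintype.card_pos
    have h1 := cmp (J₁ := (tr J : (Fin d → ZMod M) → (Fin d → ZMod M) → ℝ))
      (J₂ := (cor J n : (Fin d → ZMod M) → (Fin d → ZMod M) → ℝ)) (t := t)
      (fun x y => h.tr_nonneg x y)
      (fun x y => h.cor_nonneg n x y) ht.le (mas_BD hK)
    refine h1.trans ?_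
    have h2 := h.bad hd M n hM
    have h4 := mul_le_mul_of_nonneg_right (mul_le_mul_of_nonneg_left h2 ht.le)
      (show 0 ≤ 2 * K / (Fintype.card (Fin d → ZMod M) : ℝ) by positivity)
    refine h4.trans (le_of_eq ?_)
    field_simp
  have a4 := copies (E m n d) (cor J n : (Fin d → ZMod n) → (Fin d → ZMod n) → ℝ) t K
  rw [J2_cor hGeo J m n] at a4
  have h1 := abs_le.1 (hcn n dvd_rfl)
  have h2 := abs_le.1 (hcn (m * n) (Dvd.intro_left m rfl))
  have e1 : 4 * t * d * Mo * K / n = 2 * (2 * t * d * Mo * K / n) := by ring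
  rw [e1]
  unfold aa
  rw [abs_le]
  constructor <;> linarith [h1.1, h1.2, h2.1, h2.2]

theorem FM.aa_nonneg (h : FM d J Mo) {t : ℝ} (ht : 0 < t) (K : ℝ) (n : ℕ) [NeZero n] :
    0 ≤ aa J t K n :=
  mn_nonneg (fun x y => h.tr_nonneg x y) ht.le fun g => Pool.Agent.TH268.PD.mas_nonneg K g

theorem FM.aa_le_one (h : FM d J Mo) {t : ℝ} (ht : 0 < t) (K : ℝ) (n : ℕ) [NeZero n] :
    aa J t K n ≤ 1 :=
  mn_le_const (fun x y => h.tr_nonneg x y) ht.le 1 fun g => Pool.Agent.TH268.PD.mas_le_one K g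

theorem FM.aa_anti (h : FM d J Mo) {t : ℝ} (ht : 0 < t) {K K' : ℝ} (hK : K ≤ K') (n : ℕ)
    [NeZero n] : aa J t K' n ≤ aa J t K n :=
  mn_mono (fun x y => h.tr_nonneg x y) ht.le fun g => Pool.Agent.TH268.PD.mas_anti hK g

/-- the mass converges, with a rate -/
theorem FM.alpha (h : FM d J Mo) (hGeo : Geo) (hd : 1 ≤ d) (t : ℝ) (ht : 0 < t) (K : ℝ)
    (hK : 0 ≤ K) :
    ∃ α : ℝ, Tendsto (fun L : ℕ => aa J t K (L + 1)) atTop (𝓝 α) ∧
      ∀ (n : ℕ) [NeZero n], |aa J t K n - α| ≤ 4 * t * d * Mo * K / n := by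
  have hMo := h.Mo_nonneg
  obtain ⟨B, hB⟩ : ∃ B : ℝ, B = 4 * t * d * Mo * K := ⟨_, rfl⟩
  have hB0 : 0 ≤ B := by rw [hB]; positivity
  have hstep : ∀ L L' : ℕ, |aa J t K (L + 1) - aa J t K (L' + 1)| ≤
      B / ((L : ℝ) + 1) + B / ((L' : ℝ) + 1) := by
    intro L L'
    have i1 : NeZero ((L' + 1) * (L + 1)) := ⟨by positivity⟩
    have i2 : NeZero ((L + 1) * (L' + 1)) := ⟨by positivity⟩
    have h1 := h.step hGeo hd t ht (L' + 1) (L + 1) K hK
    have h2 := h.step hGeo hd t ht (L + 1) (L' + 1) K hK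
    have h3 : aa J t K ((L + 1) * (L' + 1)) = aa J t K ((L' + 1) * (L + 1)) :=
      aa_congr J t K (mul_comm _ _)
    rw [h3] at h2
    rw [← hB] at h1 h2
    push_cast at h1 h2
    have h4 := abs_sub_le (aa J t K (L + 1)) (aa J t K ((L' + 1) * (L + 1))) (aa J t K (L' + 1))
    rw [abs_sub_comm (aa J t K (L + 1)) (aa J t K ((L' + 1) * (L + 1)))] at h4
    linarith
  have hlim : Tendsto (fun L : ℕ => B / ((L : ℝ) + 1)) atTop (𝓝 0) :=
    Tendsto.div_atTop tendsto_const_nhds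
      (tendsto_atTop_add_const_right _ _ tendsto_natCast_atTop_atTop)
  have hcau : CauchySeq (fun L : ℕ => aa J t K (L + 1)) := by
    refine cauchySeq_of_le_tendsto_0 (fun N => 2 * (B / ((N : ℝ) + 1))) (fun n m N hn hm => ?_) ?_
    · rw [Real.dist_eq]
      refine (hstep n m).trans ?_
      have h1 : B / ((n : ℝ) + 1) ≤ B / ((N : ℝ) + 1) := by
        refine div_le_div_of_nonneg_left hB0 (by positivity) ?_
        have : (N : ℝ) ≤ n := by exact_mod_cast hn
        linarith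
      have h2 : B / ((m : ℝ) + 1) ≤ B / ((N : ℝ) + 1) := by
        refine div_le_div_of_nonneg_left hB0 (by positivity) ?_
        have : (N : ℝ) ≤ m := by exact_mod_cast hm
        linarith
      linarith
    · have := hlim.const_mul 2
      rwa [mul_zero] at this
  obtain ⟨z, hz⟩ := cauchySeq_tendsto_of_complete hcau
  refine ⟨z, hz, fun n _ => ?_⟩
  rw [← hB]
  obtain ⟨L, rfl⟩ : ∃ L, n = L + 1 := ⟨n - 1, by have := Nat.pos_of_ne_zero (NeZero.ne n); omega⟩
  have h1 : Tendsto (fun L' : ℕ => |aa J t K (L + 1) - aa J t K (L' + 1)|) atTop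
      (𝓝 |aa J t K (L + 1) - z|) := (tendsto_const_nhds.sub hz).abs
  have h2 : Tendsto (fun L' : ℕ => B / ((L : ℝ) + 1) + B / ((L' : ℝ) + 1)) atTop
      (𝓝 (B / ((L : ℝ) + 1) + 0)) := tendsto_const_nhds.add hlim
  have h3 := le_of_tendsto_of_tendsto' h1 h2 fun L' => hstep L L'
  rw [add_zero] at h3
  push_cast
  exact h3

/-- the limits for all lengths -/
theorem FM.al (h : FM d J Mo) (hGeo : Geo) (hd : 1 ≤ d) (t : ℝ) (ht : 0 < t) :
    ∃ (α : ℝ → ℝ) (m : ℝ), 0 ≤ m ∧ m ≤ 1 ∧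
      (∀ K, 0 ≤ K → Tendsto (fun L : ℕ => aa J t K (L + 1)) atTop (𝓝 (α K))) ∧
      (∀ K, 0 ≤ K → ∀ (n : ℕ) [NeZero n], |aa J t K n - α K| ≤ 4 * t * d * Mo * K / n) ∧
      (∀ K, 0 ≤ K → m ≤ α K) ∧ Tendsto α atTop (𝓝 m) := by
  have h0 : ∀ K : ℝ, ∃ α : ℝ, 0 ≤ K → (Tendsto (fun L : ℕ => aa J t K (L + 1)) atTop (𝓝 α) ∧
      ∀ (n : ℕ) [NeZero n], |aa J t K n - α| ≤ 4 * t * d * Mo * K / n) := by
    intro K
    by_cases hK : 0 ≤ K
    · obtain ⟨α, hα⟩ := h.alpha hGeo hd t ht K hK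
      exact ⟨α, fun _ => hα⟩
    · exact ⟨0, fun h => absurd h hK⟩
  choose α hα' using h0
  have hα : ∀ K, 0 ≤ K → Tendsto (fun L : ℕ => aa J t K (L + 1)) atTop (𝓝 (α K)) :=
    fun K hK => (hα' K hK).1
  have hα0 : ∀ K, 0 ≤ K → 0 ≤ α K := fun K hK =>
    ge_of_tendsto' (hα K hK) fun L => h.aa_nonneg ht K (L + 1)
  have hα1 : ∀ K, 0 ≤ K → α K ≤ 1 := fun K hK =>
    le_of_tendsto' (hα K hK) fun L => h.aa_le_one ht K (L + 1)
  have hanti : ∀ K K' : ℝ, 0 ≤ K → K ≤ K' → α K' ≤ α K := fun K K' hK hKK =>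
    le_of_tendsto_of_tendsto' (hα K' (hK.trans hKK)) (hα K hK) fun L =>
      h.aa_anti ht hKK (L + 1)
  obtain ⟨S, hS⟩ : ∃ S : Set ℝ, S = α '' Set.Ici 0 := ⟨_, rfl⟩
  have hne : S.Nonempty := ⟨α 0, by rw [hS]; exact ⟨0, Set.mem_Ici.2 le_rfl, rfl⟩⟩
  have hbd : BddBelow S := ⟨0, by
    rw [hS]
    rintro _ ⟨K, hK, rfl⟩
    exact hα0 K hK⟩
  have hlow : ∀ K, 0 ≤ K → sInf S ≤ α K := fun K hK => csInf_le hbd (by rw [hS]; exact ⟨K, hK, rfl⟩)
  refine ⟨α, sInf S, ?_, ?_, hα, fun K hK => (hα' K hK).2, hlow, ?_⟩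
  · refine le_csInf hne ?_
    rw [hS]
    rintro _ ⟨K, hK, rfl⟩
    exact hα0 K hK
  · exact (hlow 0 le_rfl).trans (hα1 0 le_rfl)
  · rw [Metric.tendsto_atTop]
    intro ε hε
    obtain ⟨_, hx, hlt⟩ := exists_lt_of_csInf_lt hne (show sInf S < sInf S + ε by linarith)
    rw [hS] at hx
    obtain ⟨K₁, hK₁, rfl⟩ := hx
    have hK₁' : 0 ≤ K₁ := hK₁
    refine ⟨K₁, fun K hK => ?_⟩
    have h1 := hanti K₁ K hK₁' hK
    have h2 := hlow K (le_trans hK₁' hK)
    rw [Real.dist_eq, abs_of_nonneg (by linarith)]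
    linarith

end

end Pool.Agent.N795.ST
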