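import Pool.Agent.N795.ST.Bas

/-!
# Long range rates on the torus: comparison of tori of different size
-/

set_option autoImplicit false

namespace Pool.Agent.N795.ST

open Finset Equiv Filter Topology
open Pool.Agent.W805.LR (len cnt)
open Pool.Agent.TH268.PD (law mas TT BD)
open Pool.Agent.TH268.PD.LocA (J2)
open Pool.Agent.TH268.PD.LocC (E)

/-- rates comparable to `|z| ^ (-(d + σ))` -/
def Cmpr (d : ℕ) (σ lam Lam : ℝ) (J : (Fin d → ℤ) → ℝ) : Prop :=
  ∀ z, z ≠ 0 → lam * (nrm z : ℝ) ^ (-((d : ℝ) + σ)) ≤ J z ∧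
    J z ≤ Lam * (nrm z : ℝ) ^ (-((d : ℝ) + σ))

/-- the rates on the torus -/
noncomputable def tr {d M : ℕ} (J : (Fin d → ℤ) → ℝ) (x y : Fin d → ZMod M) : ℝ :=
  open Classical in if x = y then 0 else (J (disp x y) + J (disp y x)) / 2

section basics

variable {d M : ℕ}

theorem disp_eq_zero (x y : Fin d → ZMod M) : disp x y = 0 ↔ x = y := by
  unfold disp
  constructor
  · intro h
    funext i
    have h1 := congrFun h i
    simp only [Pi.zero_apply, ZMod.valMinAbs_eq_zero] at h1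
    exact sub_eq_zero.1 h1
  · rintro rfl
    funext i
    simp

theorem nrm_symm (x y : Fin d → ZMod M) : nrm (disp x y) = nrm (disp y x) := by
  unfold nrm disp
  congr 1
  funext i
  rw [← ZMod.natAbs_valMinAbs_neg, neg_sub]

theorem nrm_pos {z : Fin d → ℤ} (hz : z ≠ 0) : 1 ≤ nrm z := by
  obtain ⟨i, hi⟩ := Function.ne_iff.1 hz
  unfold nrm
  refine le_trans ?_ (Finset.le_sup (f := fun i => (z i).natAbs) (mem_univ i))
  exact Int.natAbs_pos.2 hi

theorem tr_symm (J : (Fin d → ℤ) → ℝ) (x y : Fin d → ZMod M) : tr J x y = tr J y x := by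
  classical
  unfold tr
  by_cases h : x = y
  · rw [if_pos h, if_pos h.symm]
  · rw [if_neg h, if_neg (Ne.symm h), add_comm]

theorem tr_self (J : (Fin d → ℤ) → ℝ) (x : Fin d → ZMod M) : tr J x x = 0 := by
  unfold tr
  rw [if_pos rfl]

variable {σ lam Lam : ℝ} {J : (Fin d → ℤ) → ℝ}

theorem tr_le (hJ : Cmpr d σ lam Lam J) {x y : Fin d → ZMod M} (h : x ≠ y) :
    tr J x y ≤ Lam * (nrm (disp x y) : ℝ) ^ (-((d : ℝ) + σ)) := by
  unfold tr
  rw [if_neg h]
  have h1 := (hJ (disp x y) (fun h' => h ((disp_eq_zero x y).1 h'))).2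
  have h2 := (hJ (disp y x) (fun h' => h ((disp_eq_zero y x).1 h').symm)).2
  rw [← nrm_symm x y] at h2
  linarith

theorem le_tr (hJ : Cmpr d σ lam Lam J) {x y : Fin d → ZMod M} (h : x ≠ y) :
    lam * (nrm (disp x y) : ℝ) ^ (-((d : ℝ) + σ)) ≤ tr J x y := by
  unfold tr
  rw [if_neg h]
  have h1 := (hJ (disp x y) (fun h' => h ((disp_eq_zero x y).1 h'))).1
  have h2 := (hJ (disp y x) (fun h' => h ((disp_eq_zero y x).1 h').symm)).1
  rw [← nrm_symm x y] at h2
  linarith

theorem tr_nonneg (hlam : 0 < lam) (hJ : Cmpr d σ lam Lam J) (x y : Fin d → ZMod M) :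
    0 ≤ tr J x y := by
  by_cases h : x = y
  · rw [h, tr_self]
  · exact le_trans (by positivity) (le_tr hJ h)

/-- the rates inside the boxes -/
noncomputable def cor (J : (Fin d → ℤ) → ℝ) (n : ℕ) (x y : Fin d → ZMod M) : ℝ :=
  open Classical in if bcore n x y then tr J x y else 0

/-- the rates between different boxes at small distance -/
noncomputable def nea (J : (Fin d → ℤ) → ℝ) (n : ℕ) (R : ℝ) (x y : Fin d → ZMod M) : ℝ :=
  open Classical in if ¬ bcore n x y ∧ (nrm (disp x y) : ℝ) < R then tr J x y else 0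

/-- the rates between different boxes at large distance -/
noncomputable def fa (J : (Fin d → ℤ) → ℝ) (n : ℕ) (R : ℝ) (x y : Fin d → ZMod M) : ℝ :=
  open Classical in if ¬ bcore n x y ∧ R ≤ (nrm (disp x y) : ℝ) then tr J x y else 0

theorem split_tr (J : (Fin d → ℤ) → ℝ) (n : ℕ) (R : ℝ) (x y : Fin d → ZMod M) :
    tr J x y = cor J n x y + nea J n R x y + fa J n R x y := by
  classical
  unfold cor nea fa
  by_cases h : bcore n x y
  · rw [if_pos h, if_neg (fun h' => h'.1 h), if_neg (fun h' => h'.1 h), add_zero, add_zero]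
  · rw [if_neg h]
    by_cases h2 : (nrm (disp x y) : ℝ) < R
    · rw [if_pos ⟨h, h2⟩, if_neg (fun h' => not_le.2 h2 h'.2), add_zero, zero_add]
    · rw [if_neg (fun h' => h2 h'.2), if_pos ⟨h, not_lt.1 h2⟩, zero_add, zero_add]

theorem cor_nonneg (hlam : 0 < lam) (hJ : Cmpr d σ lam Lam J) (n : ℕ) (x y : Fin d → ZMod M) :
    0 ≤ cor J n x y := by
  unfold cor
  split_ifs
  · exact tr_nonneg hlam hJ x y
  · exact le_rfl

theorem nea_nonneg (hlam : 0 < lam) (hJ : Cmpr d σ lam Lam J) (n : ℕ) (R : ℝ)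
    (x y : Fin d → ZMod M) : 0 ≤ nea J n R x y := by
  unfold nea
  split_ifs
  · exact tr_nonneg hlam hJ x y
  · exact le_rfl

theorem fa_nonneg (hlam : 0 < lam) (hJ : Cmpr d σ lam Lam J) (n : ℕ) (R : ℝ)
    (x y : Fin d → ZMod M) : 0 ≤ fa J n R x y := by
  unfold fa
  split_ifs
  · exact tr_nonneg hlam hJ x y
  · exact le_rfl

theorem bcore_symm {n : ℕ} {x y : Fin d → ZMod M} (h : bcore n x y) : bcore n y x := by
  intro i
  refine ⟨(h i).1.symm, ?_⟩
  rw [abs_sub_comm]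
  exact (h i).2

theorem fa_symm (n : ℕ) (R : ℝ) (x y : Fin d → ZMod M) : fa J n R x y = fa J n R y x := by
  classical
  unfold fa
  rw [nrm_symm x y, tr_symm J x y]
  congr 1
  refine propext ⟨fun h => ⟨fun h' => h.1 (bcore_symm h'), h.2⟩,
    fun h => ⟨fun h' => h.1 (bcore_symm h'), h.2⟩⟩

theorem fa_le (hlam : 0 < lam) (hLam : 0 < Lam) (hσ : 0 < σ) (hJ : Cmpr d σ lam Lam J) (n : ℕ)
    {R : ℝ} (hR : 0 < R) (x y : Fin d → ZMod M) :
    fa J n R x y ≤ Lam * R ^ (-((d : ℝ) + σ)) := by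
  classical
  unfold fa
  split_ifs with h
  · by_cases hxy : x = y
    · rw [hxy, tr_self]; positivity
    · refine (tr_le hJ hxy).trans (mul_le_mul_of_nonneg_left ?_ hLam.le)
      exact Real.rpow_le_rpow_of_nonpos hR h.2 (by
        have : (0 : ℝ) ≤ d := Nat.cast_nonneg d
        linarith)
  · positivity

end basics

/-- constants of the lattice sums -/
structure Cs (d : ℕ) (σ C : ℝ) : Prop where
  pos : 0 < C
  near : ∀ (M n : ℕ) [NeZero M] [NeZero n] (R : ℝ), n ∣ M → 0 < R → 2 * R ≤ n →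
    ∑ x : Fin d → ZMod M, ∑ y, (open Classical in
      if ¬ bcore n x y ∧ (nrm (disp x y) : ℝ) < R
        then (nrm (disp x y) : ℝ) ^ (-((d : ℝ) + σ)) else 0) ≤
      C * (Fintype.card (Fin d → ZMod M) : ℝ) * R ^ (1 - σ) / n
  far : ∀ (M : ℕ) [NeZero M] (x : Fin d → ZMod M) (R : ℝ), 1 ≤ R →
    ∑ y, (open Classical in
      if R ≤ (nrm (disp x y) : ℝ) then (nrm (disp x y) : ℝ) ^ (-((d : ℝ) + σ)) else 0) ≤
      C * R ^ (-σ)

theorem exists_Cs (hN : NearSum) (hF : FarSum) (d : ℕ) (σ : ℝ) (hd : 1 ≤ d) (hσ : 0 < σ)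
    (hσ1 : σ < 1) : ∃ C, Cs d σ C := by
  obtain ⟨C₁, hC₁, h₁⟩ := hN d σ hd hσ hσ1
  obtain ⟨C₂, hC₂, h₂⟩ := hF d σ hd hσ
  refine ⟨C₁ + C₂, by positivity, ?_, ?_⟩
  · intro M n _ _ R h1 h2 h3
    refine (h₁ M n R h1 h2 h3).trans ?_
    refine div_le_div_of_nonneg_right ?_ (Nat.cast_nonneg _)
    refine mul_le_mul_of_nonneg_right ?_ (Real.rpow_nonneg h2.le _)
    refine mul_le_mul_of_nonneg_right (by linarith) (Nat.cast_nonneg _)
  · intro M _ x R h1
    refine (h₂ M x R h1).trans ?_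
    exact mul_le_mul_of_nonneg_right (by linarith) (Real.rpow_nonneg (by linarith) _)

section sums

variable {d : ℕ} {σ lam Lam C : ℝ} {J : (Fin d → ℤ) → ℝ}

theorem nea_sum (hC : Cs d σ C) (hlam : 0 < lam) (hLam : 0 < Lam) (hJ : Cmpr d σ lam Lam J)
    (M n : ℕ) [NeZero M] [NeZero n] (R : ℝ) (h1 : n ∣ M) (h2 : 0 < R) (h3 : 2 * R ≤ n) :
    ∑ x : Fin d → ZMod M, ∑ y, nea J n R x y ≤
      Lam * (C * (Fintype.card (Fin d → ZMod M) : ℝ) * R ^ (1 - σ) / n) := by
  classical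
  refine le_trans ?_ (mul_le_mul_of_nonneg_left (hC.near M n R h1 h2 h3) hLam.le)
  rw [Finset.mul_sum]
  refine Finset.sum_le_sum fun x _ => ?_
  rw [Finset.mul_sum]
  refine Finset.sum_le_sum fun y _ => ?_
  unfold nea
  split_ifs with h
  · by_cases hxy : x = y
    · rw [hxy, tr_self]; positivity
    · exact tr_le hJ hxy
  · rw [mul_zero]

theorem fa_row (hC : Cs d σ C) (hlam : 0 < lam) (hLam : 0 < Lam) (hJ : Cmpr d σ lam Lam J)
    (M n : ℕ) [NeZero M] (R : ℝ) (hR : 1 ≤ R) (x : Fin d → ZMod M) :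
    ∑ y, fa J n R x y ≤ Lam * (C * R ^ (-σ)) := by
  classical
  refine le_trans ?_ (mul_le_mul_of_nonneg_left (hC.far M x R hR) hLam.le)
  rw [Finset.mul_sum]
  refine Finset.sum_le_sum fun y _ => ?_
  unfold fa
  by_cases h : R ≤ (nrm (disp x y) : ℝ)
  · rw [if_pos h]
    split_ifs with h'
    · by_cases hxy : x = y
      · rw [hxy, tr_self]; positivity
      · exact tr_le hJ hxy
    · positivity
  · rw [if_neg h, if_neg (fun h' => h h'.2), mul_zero]

theorem fa_row2 (hC : Cs d σ C) (hlam : 0 < lam) (hLam : 0 < Lam) (hJ : Cmpr d σ lam Lam J)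
    (M n : ℕ) [NeZero M] (R : ℝ) (hR : 1 ≤ R) (x : Fin d → ZMod M) :
    ∑ y, (fa J n R x y + fa J n R y x) / 2 ≤ Lam * (C * R ^ (-σ)) := by
  refine le_trans (le_of_eq ?_) (fa_row hC hlam hLam hJ M n R hR x)
  refine Finset.sum_congr rfl fun y _ => ?_
  rw [fa_symm n R y x]
  ring

/-- the boxes of the large torus -/
theorem J2_cor (hGeo : Geo) (J : (Fin d → ℤ) → ℝ) (m n : ℕ) [NeZero m] [NeZero n]
    [NeZero (m * n)] : J2 (E m n d) (cor J n) = cor J n := by
  classical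
  funext x y
  obtain ⟨h1, h2⟩ := hGeo d m n x y
  obtain ⟨_, h2'⟩ := hGeo d m n y x
  unfold J2 cor
  by_cases h : bcore n x y
  · obtain ⟨q1, q2⟩ := h1.1 h
    rw [if_pos q1, if_pos q2, if_pos h]
    unfold tr
    rw [← h2 h, ← h2' (bcore_symm h)]
    have : x = y ↔ (E m n d x).2 = (E m n d y).2 := by
      constructor
      · rintro rfl; rfl
      · intro h'
        exact (E m n d).injective (Prod.ext q1 h')
    by_cases hxy : x = y
    · rw [if_pos hxy, if_pos (this.1 hxy)]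
    · rw [if_neg hxy, if_neg (fun h' => hxy (this.2 h'))]
  · rw [if_neg h]
    split_ifs with q1 q2
    · exact absurd (h1.2 ⟨q1, q2⟩) h
    · rfl
    · rfl

/-- **The key inequality**: cycles in the window on the torus of side `n` give cycles in the window
on the torus of side `m n`. -/
theorem key (hD : Dom) (hU : CmpUp) (hG : Gain) (hGeo : Geo) (hC : Cs d σ C) (hlam : 0 < lam)
    (hLam : 0 < Lam) (hσ : 0 < σ) (hJ : Cmpr d σ lam Lam J) (t : ℝ) (ht : 0 < t) (m n : ℕ)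
    [NeZero m] [NeZero n] [NeZero (m * n)] (R K K' : ℝ) (hR : 1 ≤ R) (hRn : 2 * R ≤ n)
    (hK : 0 ≤ K) (hKK : K ≤ K') :
    mn (tr J : (Fin d → ZMod n) → (Fin d → ZMod n) → ℝ) t (win K K') ≤
      Real.exp (t * K' * (Lam * (C * R ^ (-σ)))) *
        mn (tr J : (Fin d → ZMod (m * n)) → (Fin d → ZMod (m * n)) → ℝ) t (win K K') +
      4 * t * Lam * C * K' * R ^ (1 - σ) / n +
      t * (Lam * R ^ (-((d : ℝ) + σ)) *
        (K * Fintype.card (Fin d → ZMod n) + K' ^ 2)) := by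
  have hR0 : 0 < R := by linarith
  have hn0 : (0 : ℝ) < n := by exact_mod_cast Nat.pos_of_ne_zero (NeZero.ne n)
  have hC0 := hC.pos
  have hK' : 0 ≤ K' := hK.trans hKK
  have hRσ : 0 ≤ R ^ (1 - σ) := Real.rpow_nonneg hR0.le _
  -- comparison of the core with and without near rates
  have hcn : ∀ (M : ℕ) [NeZero M], n ∣ M →
      |mn (fun x y : Fin d → ZMod M => cor J n x y + nea J n R x y) t (win K K') -
        mn (cor J n : (Fin d → ZMod M) → (Fin d → ZMod M) → ℝ) t (win K K')| ≤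
        2 * t * Lam * C * K' * R ^ (1 - σ) / n := by
    intro M _ hM
    have hN : (0 : ℝ) < Fintype.card (Fin d → ZMod M) := by exact_mod_cast Fintype.card_pos
    have h1 := cmp (J₁ := fun x y : Fin d → ZMod M => cor J n x y + nea J n R x y)
      (J₂ := (cor J n : (Fin d → ZMod M) → (Fin d → ZMod M) → ℝ)) (t := t)
      (fun x y => add_nonneg (cor_nonneg hlam hJ n x y) (nea_nonneg hlam hJ n R x y))
      (fun x y => cor_nonneg hlam hJ n x y) ht.le (win_BD hK hKK)
    refine h1.trans ?_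
    have h2 : ∑ x : Fin d → ZMod M, ∑ y, |cor J n x y + nea J n R x y - cor J n x y| / 2 ≤
        Lam * (C * (Fintype.card (Fin d → ZMod M) : ℝ) * R ^ (1 - σ) / n) / 2 := by
      have h3 : ∑ x : Fin d → ZMod M, ∑ y, |cor J n x y + nea J n R x y - cor J n x y| / 2 =
          (∑ x : Fin d → ZMod M, ∑ y, nea J n R x y) / 2 := by
        rw [Finset.sum_div]
        refine Finset.sum_congr rfl fun x _ => ?_
        rw [Finset.sum_div]
        refine Finset.sum_congr rfl fun y _ => ?_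
        rw [add_sub_cancel_left, abs_of_nonneg (nea_nonneg hlam hJ n R x y)]
      rw [h3]
      exact div_le_div_of_nonneg_right (nea_sum hC hlam hLam hJ M n R hM hR0 hRn) two_pos.le
    have h4 := mul_le_mul_of_nonneg_right (mul_le_mul_of_nonneg_left h2 ht.le)
      (show 0 ≤ 4 * K' / (Fintype.card (Fin d → ZMod M) : ℝ) by positivity)
    refine h4.trans (le_of_eq ?_)
    field_simp
    ring
  -- the small torus
  have a1 : (tr J : (Fin d → ZMod n) → (Fin d → ZMod n) → ℝ) =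
      fun x y => (fun x y => cor J n x y + nea J n R x y) x y + fa J n R x y := by
    funext x y
    exact split_tr J n R x y
  have a2 := far_win hU hG (J₁ := fun x y : Fin d → ZMod n => cor J n x y + nea J n R x y)
    (J₂ := fa J n R) (t := t) (j := Lam * R ^ (-((d : ℝ) + σ)))
    (fun x y => add_nonneg (cor_nonneg hlam hJ n x y) (nea_nonneg hlam hJ n R x y))
    (fun x y => fa_nonneg hlam hJ n R x y) ht.le (by positivity)
    (fun x y => fa_le hlam hLam hσ hJ n hR0 x y) hK hKK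
  rw [← a1] at a2
  have a3 := abs_le.1 (hcn n dvd_rfl)
  -- the copies
  have a4 := copies_win (E m n d) (cor J n : (Fin d → ZMod n) → (Fin d → ZMod n) → ℝ) t K K'
  rw [J2_cor hGeo J m n] at a4
  -- the large torus
  have a5 := abs_le.1 (hcn (m * n) (Dvd.intro_left m rfl))
  have b1 : (tr J : (Fin d → ZMod (m * n)) → (Fin d → ZMod (m * n)) → ℝ) =
      fun x y => (fun x y => cor J n x y + nea J n R x y) x y + fa J n R x y := by
    funext x y
    exact split_tr J n R x y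
  have a6 := dom_win hD (J₁ := fun x y : Fin d → ZMod (m * n) => cor J n x y + nea J n R x y)
    (J₂ := fa J n R) (t := t) (κ := Lam * (C * R ^ (-σ)))
    (fun x y => add_nonneg (cor_nonneg hlam hJ n x y) (nea_nonneg hlam hJ n R x y))
    (fun x y => fa_nonneg hlam hJ n R x y) ht.le (by positivity)
    (fun x => fa_row2 hC hlam hLam hJ (m * n) n R hR x) hK hKK
  rw [← b1] at a6
  obtain ⟨X, hX⟩ : ∃ X, X = mn (fun x y : Fin d → ZMod (m * n) =>
    cor J n x y + nea J n R x y) t (win K K') := ⟨_, rfl⟩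
  obtain ⟨Y, hY⟩ : ∃ Y, Y = mn (tr J : (Fin d → ZMod (m * n)) → (Fin d → ZMod (m * n)) → ℝ) t
    (win K K') := ⟨_, rfl⟩
  rw [← hX] at a5 a6
  rw [← hY] at a6 ⊢
  have a7 : X ≤ Real.exp (t * K' * (Lam * (C * R ^ (-σ)))) * Y := by
    rw [Real.exp_neg, inv_mul_le_iff₀ (Real.exp_pos _)] at a6
    exact a6
  have e1 : 4 * t * Lam * C * K' * R ^ (1 - σ) / n =
    2 * (2 * t * Lam * C * K' * R ^ (1 - σ) / n) := by ring
  rw [e1]
  linarith [a3.2, a5.1]

/-- comparison of the mass of the cycles of length at least `K` -/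
theorem mas_step (hGeo : Geo) (hC : Cs d σ C) (hlam : 0 < lam)
    (hLam : 0 < Lam) (hσ : 0 < σ) (hJ : Cmpr d σ lam Lam J) (t : ℝ) (ht : 0 < t) (m n : ℕ)
    [NeZero m] [NeZero n] [NeZero (m * n)] (K : ℝ) (hK : 0 ≤ K) (hn : 2 ≤ n) :
    |mn (tr J : (Fin d → ZMod (m * n)) → (Fin d → ZMod (m * n)) → ℝ) t (mas K) -
      mn (tr J : (Fin d → ZMod n) → (Fin d → ZMod n) → ℝ) t (mas K)| ≤
      4 * t * Lam * C * K * ((n : ℝ) / 2) ^ (-σ) := by
  have hn2 : (2 : ℝ) ≤ n := by exact_mod_cast hn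
  have hn0 : (0 : ℝ) < n := by linarith
  obtain ⟨R, hR⟩ : ∃ R : ℝ, R = n / 2 := ⟨_, rfl⟩
  have hR1 : 1 ≤ R := by rw [hR]; linarith
  have hR0 : 0 < R := by linarith
  have hRn : 2 * R ≤ n := by rw [hR]; linarith
  have hC0 := hC.pos
  rw [← hR]
  have hcn : ∀ (M : ℕ) [NeZero M], n ∣ M →
      |mn (tr J : (Fin d → ZMod M) → (Fin d → ZMod M) → ℝ) t (mas K) -
        mn (cor J n : (Fin d → ZMod M) → (Fin d → ZMod M) → ℝ) t (mas K)| ≤
        2 * t * Lam * C * K * R ^ (-σ) := by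
    intro M _ hM
    have hN : (0 : ℝ) < Fintype.card (Fin d → ZMod M) := by exact_mod_cast Fintype.card_pos
    have h1 := cmp (J₁ := (tr J : (Fin d → ZMod M) → (Fin d → ZMod M) → ℝ))
      (J₂ := (cor J n : (Fin d → ZMod M) → (Fin d → ZMod M) → ℝ)) (t := t)
      (fun x y => tr_nonneg hlam hJ x y)
      (fun x y => cor_nonneg hlam hJ n x y) ht.le (mas_BD hK)
    refine h1.trans ?_
    have h2 : ∑ x : Fin d → ZMod M, ∑ y, |tr J x y - cor J n x y| / 2 ≤
        (Lam * (C * (Fintype.card (Fin d → ZMod M) : ℝ) * R ^ (1 - σ) / n) +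
          Fintype.card (Fin d → ZMod M) * (Lam * (C * R ^ (-σ)))) / 2 := by
      have h3 : ∑ x : Fin d → ZMod M, ∑ y, |tr J x y - cor J n x y| / 2 =
          (∑ x : Fin d → ZMod M, ∑ y, nea J n R x y +
            ∑ x : Fin d → ZMod M, ∑ y, fa J n R x y) / 2 := by
        rw [← Finset.sum_add_distrib, Finset.sum_div]
        refine Finset.sum_congr rfl fun x _ => ?_
        rw [← Finset.sum_add_distrib, Finset.sum_div]
        refine Finset.sum_congr rfl fun y _ => ?_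
        rw [split_tr J n R x y, add_assoc, add_sub_cancel_left,
          abs_of_nonneg (add_nonneg (nea_nonneg hlam hJ n R x y) (fa_nonneg hlam hJ n R x y))]
      rw [h3]
      refine div_le_div_of_nonneg_right (add_le_add
        (nea_sum hC hlam hLam hJ M n R hM hR0 hRn) ?_) two_pos.le
      refine (Finset.sum_le_sum fun x _ => fa_row hC hlam hLam hJ M n R hR1 x).trans ?_
      rw [Finset.sum_const, Finset.card_univ, nsmul_eq_mul]
    have h4 := mul_le_mul_of_nonneg_right (mul_le_mul_of_nonneg_left h2 ht.le)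
      (show 0 ≤ 2 * K / (Fintype.card (Fin d → ZMod M) : ℝ) by positivity)
    refine h4.trans ?_
    have e2 : R ^ (1 - σ) = R * R ^ (-σ) := by
      rw [sub_eq_add_neg, Real.rpow_add hR0, Real.rpow_one]
    have e3 : R ^ (1 - σ) / n = R ^ (-σ) / 2 := by
      rw [e2, hR]
      field_simp
    have e4 : Lam * (C * (Fintype.card (Fin d → ZMod M) : ℝ) * R ^ (1 - σ) / n) =
        Lam * C * (Fintype.card (Fin d → ZMod M) : ℝ) * (R ^ (-σ) / 2) := by
      rw [← e3]; ring
    rw [e4]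
    have h5 : 0 ≤ R ^ (-σ) := Real.rpow_nonneg hR0.le _
    have e5 : t * ((Lam * C * (Fintype.card (Fin d → ZMod M) : ℝ) * (R ^ (-σ) / 2) +
        Fintype.card (Fin d → ZMod M) * (Lam * (C * R ^ (-σ)))) / 2) *
        (2 * K / (Fintype.card (Fin d → ZMod M) : ℝ)) = 3 / 2 * (t * Lam * C * K * R ^ (-σ)) := by
      field_simp
      ring
    rw [e5]
    have h6 : 0 ≤ t * Lam * C * K * R ^ (-σ) := by positivity
    nlinarith
  have a4 := copies (E m n d) (cor J n : (Fin d → ZMod n) → (Fin d → ZMod n) → ℝ) t K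
  rw [J2_cor hGeo J m n] at a4
  have h1 := abs_le.1 (hcn n dvd_rfl)
  have h2 := abs_le.1 (hcn (m * n) (Dvd.intro_left m rfl))
  rw [abs_le]
  constructor <;> linarith [h1.1, h1.2, h2.1, h2.2]

end sums

end Pool.Agent.N795.ST
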