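import Pool.Agent.N795.ST.Mid

/-!
# No cycles of intermediate length: any rates plus a mean field part
-/

set_option autoImplicit false

namespace Pool.Agent.N795.ST

open Finset Equiv Filter Topology
open Pool.Agent.TH268.PD (law mas)

theorem mf_nonneg {V : Type} [Fintype V] [DecidableEq V] {J : V → V → ℝ} {c : ℝ}
    (hJ : ∀ x y, 0 ≤ J x y) (hc : 0 ≤ c) (x y : V) :
    0 ≤ J x y + if x ≠ y then c / (Fintype.card V : ℝ) else 0 := by
  have h1 := hJ x y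
  have h2 : 0 ≤ c / (Fintype.card V : ℝ) := by positivity
  split_ifs <;> linarith

/-- **No cycles of length between `A / c` and `A' √(N / c)`.** -/
theorem mid_gen (hN : Nmt) (t : ℝ) (ht : 0 < t) (A' : ℝ) (hA' : 0 < A') (ε : ℝ) (hε : 0 < ε) :
    ∃ A : ℝ, 0 < A ∧ ∀ (V : Type) [Fintype V] [DecidableEq V] [Nonempty V] (J : V → V → ℝ) (c : ℝ),
      (∀ x y, 0 ≤ J x y) → 0 < c →
      mn (fun x y => J x y + if x ≠ y then c / (Fintype.card V : ℝ) else 0) t
        (win (A / c) (A' * Real.sqrt (Fintype.card V / c))) ≤ ε := by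
  obtain ⟨C, hC, hN⟩ := hN
  obtain ⟨ζ, hζ⟩ : ∃ ζ : ℝ, ζ = min 1 (3 * ε / (8 * C * t * A' ^ 2)) := ⟨_, rfl⟩
  have hζ0 : 0 < ζ := by rw [hζ]; exact lt_min one_pos (by positivity)
  have hζ1 : ζ ≤ 1 := by rw [hζ]; exact min_le_left _ _
  have hζ2 : C * (4 / 3 * (t * ζ * A' ^ 2)) ≤ ε / 2 := by
    have h1 : ζ ≤ 3 * ε / (8 * C * t * A' ^ 2) := by rw [hζ]; exact min_le_right _ _
    rw [le_div_iff₀ (by positivity)] at h1
    nlinarith
  obtain ⟨A, hA⟩ : ∃ A : ℝ, A = (8 * C / ε) ^ 2 / (t * ζ) := ⟨_, rfl⟩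
  have hA0 : 0 < A := by rw [hA]; positivity
  have hA1 : C * (4 / Real.sqrt (t * ζ * A)) ≤ ε / 2 := by
    have h1 : t * ζ * A = (8 * C / ε) ^ 2 := by
      rw [hA]; field_simp
    rw [h1, Real.sqrt_sq (by positivity)]
    refine le_of_eq ?_
    field_simp
    ring
  refine ⟨A, hA0, fun V _ _ _ J c hJ hc => ?_⟩
  obtain ⟨k, hk⟩ : ∃ k : ℝ, k = A / c := ⟨_, rfl⟩
  obtain ⟨N, hNdef⟩ : ∃ N : ℝ, N = Fintype.card V := ⟨_, rfl⟩
  have hNpos : 0 < N := by rw [hNdef]; exact_mod_cast Fintype.card_pos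
  obtain ⟨K', hK'⟩ : ∃ K' : ℝ, K' = A' * Real.sqrt (N / c) := ⟨_, rfl⟩
  have hk0 : 0 < k := by rw [hk]; positivity
  have hs : 0 < Real.sqrt (N / c) := Real.sqrt_pos.2 (by positivity)
  have hK'0 : 0 < K' := by rw [hK']; positivity
  rw [← hk, ← hNdef, ← hK']
  obtain ⟨U, hU⟩ : ∃ U : V → V → ℝ, U = fun x y => J x y + if x ≠ y then c / N else 0 := ⟨_, rfl⟩
  have hU0 : ∀ x y : V, 0 ≤ U x y := by
    intro x y
    rw [hU, hNdef]
    exact mf_nonneg hJ hc.le x y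
  rw [← hU]
  by_cases hcase : K' ≤ k
  · refine (mn_le_const hU0 ht.le 0 fun g => ?_).trans hε.le
    unfold win
    linarith [Pool.Agent.TH268.PD.mas_anti hcase g]
  rw [not_le] at hcase
  obtain ⟨I, hI1, hI2⟩ : ∃ I : ℕ, K' ≤ k * 2 ^ I ∧ k * 2 ^ I ≤ 2 * K' := by
    have h1 : ∃ I : ℕ, K' ≤ k * 2 ^ I := by
      obtain ⟨I, hI⟩ := pow_unbounded_of_one_lt (K' / k) (show (1 : ℝ) < 2 by norm_num)
      refine ⟨I, ?_⟩
      rw [div_lt_iff₀ hk0] at hI
      linarith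
    classical
    refine ⟨Nat.find h1, Nat.find_spec h1, ?_⟩
    obtain ⟨i, hi⟩ : ∃ i, i = Nat.find h1 := ⟨_, rfl⟩
    rw [← hi]
    rcases Nat.eq_zero_or_pos i with h0 | h0
    · rw [h0, pow_zero, mul_one]
      linarith
    · have h2 := Nat.find_min h1 (show i - 1 < Nat.find h1 by rw [← hi]; omega)
      rw [not_le] at h2
      have h3 : (2 : ℝ) ^ i = 2 * 2 ^ (i - 1) := by
        rw [← pow_succ']
        congr 1
        omega
      rw [h3]
      linarith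
  obtain ⟨J₀, hJ₀⟩ : ∃ J₀ : V → V → ℝ,
    J₀ = fun x y => U x y - if x ≠ y then ζ * c / N else 0 := ⟨_, rfl⟩
  have hJ₀0 : ∀ x y, 0 ≤ J₀ x y := by
    intro x y
    rw [hJ₀, hU]
    beta_reduce
    have h1 := hJ x y
    have h2 : ζ * c / N ≤ c / N := by
      refine div_le_div_of_nonneg_right ?_ hNpos.le
      nlinarith
    split_ifs <;> linarith
  have hJeq : (fun x y => J₀ x y + if x ≠ y then ζ * c / (Fintype.card V : ℝ) else 0) = U := by
    funext x y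
    rw [hJ₀, ← hNdef]
    ring
  have hwin : ∀ j : ℕ, mn U t (win (k * 2 ^ j) (2 * (k * 2 ^ j))) ≤
      C * (1 / Real.sqrt (t * ζ * A) * (1 / Real.sqrt ((2 : ℝ) ^ j)) +
        t * (ζ * c) * k ^ 2 / N * 4 ^ j) := by
    intro j
    have h1 := hN V J₀ (ζ * c) t (k * 2 ^ j) hJ₀0 (by positivity) ht (by positivity)
    rw [hJeq, ← hNdef] at h1
    refine h1.trans (le_of_eq ?_)
    congr 1
    have e1 : t * (ζ * c) * (k * 2 ^ j) = (t * ζ * A) * 2 ^ j := by
      rw [hk]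
      field_simp
    rw [e1, Real.sqrt_mul (by positivity), one_div_mul_one_div]
    congr 1
    rw [mul_pow, ← pow_mul, mul_comm j 2, pow_mul]
    norm_num
    ring
  have h1 : mn U t (win k K') ≤
      ∑ j ∈ range I, mn U t (win (k * 2 ^ j) (2 * (k * 2 ^ j))) := by
    rw [← mn_sum]
    refine mn_mono hU0 ht.le fun g => ?_
    rw [← win_dyadic]
    exact win_mono_right hI1 g
  refine h1.trans ?_
  refine (Finset.sum_le_sum fun j _ => hwin j).trans ?_
  rw [← Finset.mul_sum, Finset.sum_add_distrib, ← Finset.mul_sum, ← Finset.mul_sum, mul_add]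
  have h2 : C * (1 / Real.sqrt (t * ζ * A) * ∑ j ∈ range I, 1 / Real.sqrt ((2 : ℝ) ^ j)) ≤
      ε / 2 := by
    refine le_trans ?_ hA1
    refine mul_le_mul_of_nonneg_left ?_ hC.le
    rw [div_eq_mul_one_div 4, mul_comm (4 : ℝ)]
    exact mul_le_mul_of_nonneg_left (geo_half I) (by positivity)
  have h3 : C * (t * (ζ * c) * k ^ 2 / N * ∑ j ∈ range I, (4 : ℝ) ^ j) ≤ ε / 2 := by
    refine le_trans ?_ hζ2
    refine mul_le_mul_of_nonneg_left ?_ hC.le
    refine (mul_le_mul_of_nonneg_left (geo_four I) (by positivity)).trans ?_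
    have e1 : (4 : ℝ) ^ I = (2 ^ I) ^ 2 := by
      rw [← pow_mul, mul_comm I 2, pow_mul]
      norm_num
    have e2 : t * (ζ * c) * k ^ 2 / N * (4 ^ I / 3) = t * (ζ * c) / (3 * N) * (k * 2 ^ I) ^ 2 := by
      rw [e1]
      field_simp
    rw [e2]
    have h4 : (k * 2 ^ I) ^ 2 ≤ (2 * K') ^ 2 := pow_le_pow_left₀ (by positivity) hI2 2
    refine (mul_le_mul_of_nonneg_left h4 (by positivity)).trans (le_of_eq ?_)
    have e3 : K' ^ 2 = A' ^ 2 * (N / c) := by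
      rw [hK', mul_pow, Real.sq_sqrt (by positivity)]
    rw [mul_pow, e3]
    field_simp
    ring
  linarith

end Pool.Agent.N795.ST
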